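import Mathlib

/-! Measure-theoretic chaos: the definitions. -/

namespace Pool.Agent.H24.Chaos

open MeasureTheory Filter
open scoped ENNReal

/-- A measure-preserving transformation of a standard probability space. The σ-algebra of the system
is the completion of the given σ-algebra, that is, it consists of the null-measurable sets. -/
structure MPSystem where
  /-- the points -/
  X : Type
  [mX : MeasurableSpace X]
  [sX : StandardBorelSpace X]
  /-- the measure -/
  μ : Measure X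
  [prob : IsProbabilityMeasure μ]
  /-- the transformation -/
  T : X → X
  mp : MeasurePreserving T μ μ

attribute [instance] MPSystem.mX MPSystem.sX MPSystem.prob

/-- `P` is a refining sequence of finite measurable partitions: the atoms of the `k`-th partition are
the nonempty sets `{x | P k x = j}`. -/
structure IsRefining (M : MPSystem) (P : ℕ → M.X → ℕ) : Prop where
  finite : ∀ k, (Set.range (P k)).Finite
  measurable : ∀ k j, NullMeasurableSet {x | P k x = j} M.μ
  refines : ∀ k x y, P (k + 1) x = P (k + 1) y → P k x = P k y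
  generates : ∀ B : Set M.X, MeasurableSet B → ∃ B' : Set M.X,
    MeasurableSet[MeasurableSpace.generateFrom {C | ∃ k j, C = {x | P k x = j}}] B' ∧ B =ᵐ[M.μ] B'

/-- The upper density of a set of natural numbers. -/
noncomputable def upperDensity (A : Set ℕ) : ℝ≥0∞ :=
  limsup (fun N : ℕ => ((A ∩ Set.Iio N).ncard : ℝ≥0∞) / N) atTop

/-- The first condition: a sequence of upper density one along which the orbits are together. -/
def Together (M : MPSystem) (P : ℕ → M.X → ℕ) (x y : M.X) : Prop :=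
  ∃ n : ℕ → ℕ, StrictMono n ∧ upperDensity (Set.range n) = 1 ∧
    ∀ k, ∀ᶠ i in atTop, P k (M.T^[n i] x) = P k (M.T^[n i] y)

/-- A sequence of upper density at least `η` along which the orbits are in different atoms of the
`k`-th partition. -/
def Apart (M : MPSystem) (P : ℕ → M.X → ℕ) (x y : M.X) (k : ℕ) (η : ℝ≥0∞) : Prop :=
  ∃ m : ℕ → ℕ, StrictMono m ∧ η ≤ upperDensity (Set.range m) ∧
    ∀ i, P k (M.T^[m i] x) ≠ P k (M.T^[m i] y)

/-- A scrambled pair. -/
def Scrambled (M : MPSystem) (P : ℕ → M.X → ℕ) (x y : M.X) : Prop :=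
  Together M P x y ∧ ∃ k, ∃ η > 0, Apart M P x y k η

/-- A `+`-scrambled pair. -/
def ScrambledPlus (M : MPSystem) (P : ℕ → M.X → ℕ) (x y : M.X) : Prop :=
  Together M P x y ∧ ∀ η < 1, ∃ k, Apart M P x y k η

/-- Measure-theoretic chaos. -/
def Chaotic (M : MPSystem) : Prop :=
  ∀ P, IsRefining M P → ∃ E : Set M.X, ¬ E.Countable ∧ E.Pairwise (Scrambled M P)

/-- Measure-theoretic `+` chaos. -/
def ChaoticPlus (M : MPSystem) : Prop :=
  ∀ P, IsRefining M P → ∃ E : Set M.X, ¬ E.Countable ∧ E.Pairwise (ScrambledPlus M P)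

/-- Uniform measure-theoretic chaos. -/
def UniformlyChaotic (M : MPSystem) : Prop :=
  ∀ P, IsRefining M P → ∃ E : Set M.X, ¬ E.Countable ∧ ∃ k, ∃ η > 0,
    E.Pairwise fun x y => Together M P x y ∧ Apart M P x y k η

/-- Uniform measure-theoretic `+` chaos. -/
def UniformlyChaoticPlus (M : MPSystem) : Prop :=
  ∀ P, IsRefining M P → ∃ E : Set M.X, ¬ E.Countable ∧ ∃ k : ℝ≥0∞ → ℕ,
    E.Pairwise fun x y => Together M P x y ∧ ∀ η < 1, Apart M P x y (k η) η

/-- `M` is a factor of `N`. -/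
def IsFactor (M N : MPSystem) : Prop :=
  ∃ π : N.X → M.X, MeasurePreserving π N.μ M.μ ∧ ∀ᵐ y ∂N.μ, π (N.T y) = M.T (π y)

theorem UniformlyChaoticPlus.uniformly {M : MPSystem} (h : UniformlyChaoticPlus M) :
    UniformlyChaotic M := fun P hP => by
  obtain ⟨E, hE, k, hk⟩ := h P hP
  refine ⟨E, hE, k 2⁻¹, 2⁻¹, by simp, fun x hx y hy hxy => ?_⟩
  obtain ⟨h1, h2⟩ := hk hx hy hxy
  exact ⟨h1, h2 _ (by simp)⟩

theorem UniformlyChaoticPlus.plus {M : MPSystem} (h : UniformlyChaoticPlus M) :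
    ChaoticPlus M := fun P hP => by
  obtain ⟨E, hE, k, hk⟩ := h P hP
  refine ⟨E, hE, fun x hx y hy hxy => ?_⟩
  obtain ⟨h1, h2⟩ := hk hx hy hxy
  exact ⟨h1, fun η hη => ⟨k η, h2 η hη⟩⟩

theorem ChaoticPlus.chaotic {M : MPSystem} (h : ChaoticPlus M) : Chaotic M := fun P hP => by
  obtain ⟨E, hE, hk⟩ := h P hP
  refine ⟨E, hE, fun x hx y hy hxy => ?_⟩
  obtain ⟨h1, h2⟩ := hk hx hy hxy
  obtain ⟨k, hk⟩ := h2 2⁻¹ (by simp)
  exact ⟨h1, k, 2⁻¹, by simp, hk⟩

theorem UniformlyChaotic.chaotic {M : MPSystem} (h : UniformlyChaotic M) : Chaotic M :=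
    fun P hP => by
  obtain ⟨E, hE, k, η, hη, hk⟩ := h P hP
  refine ⟨E, hE, fun x hx y hy hxy => ?_⟩
  obtain ⟨h1, h2⟩ := hk hx hy hxy
  exact ⟨h1, k, η, hη, h2⟩

/-! Upper density. -/

theorem upperDensity_le {A : Set ℕ} {a : ℝ≥0∞}
    (h : ∀ᶠ N : ℕ in atTop, ((A ∩ Set.Iio N).ncard : ℝ≥0∞) ≤ a * N) : upperDensity A ≤ a := by
  refine limsup_le_of_le (h := ?_)
  filter_upwards [h, eventually_gt_atTop 0] with N hN h0
  exact ENNReal.div_le_of_le_mul hN

theorem le_upperDensity {A : Set ℕ} {a : ℝ≥0∞}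
    (h : ∃ᶠ N : ℕ in atTop, a * N ≤ ((A ∩ Set.Iio N).ncard : ℝ≥0∞)) : a ≤ upperDensity A := by
  refine le_limsup_of_frequently_le ?_
  refine (h.and_eventually (eventually_gt_atTop 0)).mono fun N ⟨hN, h0⟩ => ?_
  rw [ENNReal.le_div_iff_mul_le (Or.inl (by simp; omega)) (Or.inl (by simp))]
  exact hN

theorem upperDensity_le_one (A : Set ℕ) : upperDensity A ≤ 1 := by
  refine upperDensity_le (Eventually.of_forall fun N => ?_)
  rw [one_mul]
  have := Set.ncard_le_ncard (Set.inter_subset_right (s := A) (t := Set.Iio N)) (Set.finite_Iio N)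
  rw [Set.ncard_Iio_nat] at this
  exact_mod_cast this

theorem infinite_of_upperDensity {A : Set ℕ} (h : upperDensity A ≠ 0) : A.Infinite := by
  intro hA
  apply h
  refine le_antisymm (le_of_forall_pos_le_add fun ε hε => ?_) zero_le
  rw [zero_add]
  refine upperDensity_le ?_
  by_cases hε' : ε = ⊤
  · filter_upwards [eventually_gt_atTop 0] with N hN
    rw [hε', ENNReal.top_mul (by simp; omega)]; exact le_top
  have h1 : Tendsto (fun N : ℕ => ε * N) atTop (nhds ⊤) := by
    have := ENNReal.Tendsto.const_mul (a := ε) (ENNReal.tendsto_nat_nhds_top) (Or.inl (by simp))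
    rwa [ENNReal.mul_top hε.ne'] at this
  have h2 := h1.eventually (lt_mem_nhds (ENNReal.natCast_lt_top A.ncard))
  filter_upwards [h2] with N hN
  refine le_trans ?_ hN.le
  exact_mod_cast Set.ncard_le_ncard Set.inter_subset_left hA

theorem exists_seq {A : Set ℕ} (h : A.Infinite) :
    ∃ n : ℕ → ℕ, StrictMono n ∧ Set.range n = A :=
  ⟨Nat.nth (· ∈ A), Nat.nth_strictMono h, Nat.range_nth_of_infinite h⟩

end Pool.Agent.H24.Chaos
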