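import Mathlib

/-! The binary odometer. -/

namespace Pool.Agent.H24.Chaos

open Finset

/-- Adding one with carry. -/
def S (z : ℕ → Bool) : ℕ → Bool := fun n => xor (z n) (decide (∀ i < n, z i = true))

/-- The number given by the first `K` bits. -/
def val (K : ℕ) (z : ℕ → Bool) : ℕ := ∑ i ∈ range K, 2 ^ i * (z i).toNat

theorem val_succ (K : ℕ) (z : ℕ → Bool) : val (K + 1) z = val K z + 2 ^ K * (z K).toNat := by
  simp [val, sum_range_succ]

theorem val_lt (K : ℕ) (z : ℕ → Bool) : val K z < 2 ^ K := by
  induction K with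
  | zero => simp [val]
  | succ K ih =>
    rw [val_succ, pow_succ]
    have := Bool.toNat_le (z K)
    nlinarith

theorem val_congr {K : ℕ} {z z' : ℕ → Bool} (h : ∀ i < K, z i = z' i) : val K z = val K z' :=
  sum_congr rfl fun i hi => by rw [h i (mem_range.1 hi)]

theorem val_inj {K : ℕ} {z z' : ℕ → Bool} (h : val K z = val K z') : ∀ i < K, z i = z' i := by
  induction K with
  | zero => simp
  | succ K ih =>
    rw [val_succ, val_succ] at h
    have h1 := val_lt K z
    have h2 := val_lt K z'
    have h3 : z K = z' K := by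
      cases hz : z K <;> cases hz' : z' K <;> simp [hz, hz'] at h ⊢ <;> omega
    rw [h3] at h
    intro i hi
    rcases Nat.lt_succ_iff_lt_or_eq.1 hi with hi | rfl
    · exact ih (by omega) i hi
    · exact h3

theorem val_ones {K : ℕ} {z : ℕ → Bool} : (∀ i < K, z i = true) ↔ val K z = 2 ^ K - 1 := by
  induction K with
  | zero => simp [val]
  | succ K ih =>
    have h1 := val_lt K z
    have h2 : 0 < 2 ^ K := by positivity
    rw [val_succ, pow_succ]
    constructor
    · intro h
      rw [ih.1 fun i hi => h i (by omega), h K (by omega)]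
      simp; omega
    · intro h i hi
      have h3 : z K = true := by
        by_contra h3
        simp at h3
        simp [h3] at h
        omega
      simp [h3] at h
      rcases Nat.lt_succ_iff_lt_or_eq.1 hi with hi | rfl
      · exact ih.2 (by omega) i hi
      · exact h3

theorem val_S (K : ℕ) (z : ℕ → Bool) : val K (S z) = (val K z + 1) % 2 ^ K := by
  induction K with
  | zero => simp [val]
  | succ K ih =>
    have h1 := val_lt K z
    have h2 : 0 < 2 ^ K := by positivity
    rw [val_succ, ih, val_succ]
    have hS : S z K = xor (z K) (decide (∀ i < K, z i = true)) := rfl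
    by_cases h : ∀ i < K, z i = true
    · have h3 := val_ones.1 h
      rw [hS, decide_eq_true h, h3]
      have e1 : 2 ^ K - 1 + 1 = 2 ^ K := by omega
      rw [e1, Nat.mod_self, pow_succ]
      cases hz : z K
      · simp
        rw [Nat.mod_eq_of_lt] <;> omega
      · simp
        have : 2 ^ K - 1 + 2 ^ K + 1 = 2 ^ K * 2 := by omega
        rw [this, Nat.mod_self]
    · have h3 : val K z + 1 < 2 ^ K := by
        have : val K z ≠ 2 ^ K - 1 := fun h4 => h (val_ones.2 h4)
        omega
      rw [hS, decide_eq_false h, Nat.mod_eq_of_lt h3, pow_succ, Nat.mod_eq_of_lt]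
      · simp; omega
      · have := Bool.toNat_le (z K)
        nlinarith

theorem S_high {K : ℕ} {z : ℕ → Bool} (h : val K z + 1 < 2 ^ K) {i : ℕ} (hi : K ≤ i) :
    S z i = z i := by
  have : ¬ ∀ j < i, z j = true := fun h' => by
    have := val_ones.1 fun j (hj : j < K) => h' j (by omega)
    omega
  simp only [S, decide_eq_false this]; simp

theorem val_iter (K n : ℕ) (z : ℕ → Bool) : val K (S^[n] z) = (val K z + n) % 2 ^ K := by
  induction n with
  | zero => simp [Nat.mod_eq_of_lt (val_lt K z)]
  | succ n ih => rw [Function.iterate_succ_apply', val_S, ih, Nat.mod_add_mod, add_assoc]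

theorem iter_high {K n : ℕ} {z : ℕ → Bool} (h : val K z + n < 2 ^ K) {i : ℕ} (hi : K ≤ i) :
    (S^[n] z) i = z i := by
  induction n with
  | zero => rfl
  | succ n ih =>
    rw [Function.iterate_succ_apply', S_high (K := K) _ hi, ih (by omega)]
    rw [val_iter, Nat.mod_eq_of_lt (by omega)]; omega

/-- distinct times smaller than `2 ^ K` give distinct low bits -/
theorem iter_inj {K n n' : ℕ} {z : ℕ → Bool} (hn : n < 2 ^ K) (hn' : n' < 2 ^ K)
    (h : ∀ i < K, (S^[n] z) i = (S^[n'] z) i) : n = n' := by
  have h1 := val_congr h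
  rw [val_iter, val_iter] at h1
  have h2 : (val K z + n) ≡ (val K z + n') [MOD 2 ^ K] := h1
  have h3 := Nat.ModEq.add_left_cancel' _ h2
  rwa [Nat.ModEq, Nat.mod_eq_of_lt hn, Nat.mod_eq_of_lt hn'] at h3

theorem val_le_of_zero {K i : ℕ} {z : ℕ → Bool} (hi : i < K) (h : z i = false) :
    val K z + 2 ^ i + 1 ≤ 2 ^ K := by
  induction K with
  | zero => omega
  | succ K ih =>
    rw [val_succ, pow_succ]
    have h1 := val_lt K z
    rcases Nat.lt_succ_iff_lt_or_eq.1 hi with hi | rfl
    · have := ih hi
      have := Bool.toNat_le (z K)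
      nlinarith
    · simp [h]; omega

theorem iter_pow_of_false {β : ℕ} {z : ℕ → Bool} (h : z β = false) :
    S^[2 ^ β] z = Function.update z β true := by
  funext i
  obtain ⟨K, hK, hi⟩ : ∃ K, β < K ∧ i < K := ⟨max β i + 1, by omega, by omega⟩
  refine val_inj (K := K) ?_ i hi
  have h1 : val K (Function.update z β true) = val K z + 2 ^ β := by
    clear hi i
    induction K with
    | zero => omega
    | succ K ih =>
      rw [val_succ, val_succ]
      rcases Nat.lt_succ_iff_lt_or_eq.1 hK with hK | rfl
      · rw [ih hK, Function.update_of_ne (by omega)]; omega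
      · rw [val_congr (z' := z) fun i hi => Function.update_of_ne (by omega) _ _]
        simp [h]
  rw [val_iter, h1, Nat.mod_eq_of_lt]
  rw [← h1]; exact val_lt _ _

theorem iter_pow_of_true {β : ℕ} {z : ℕ → Bool} (h : z β = true) :
    (S^[2 ^ β] z) β = false := by
  have h1 := val_iter (β + 1) (2 ^ β) z
  rw [val_succ β z, h] at h1
  have h2 := val_lt β z
  have h3 : (val β z + 2 ^ β * true.toNat + 2 ^ β) % 2 ^ (β + 1) = val β z := by
    have : val β z + 2 ^ β * true.toNat + 2 ^ β = val β z + 2 ^ (β + 1) := by
      simp [pow_succ]; omega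
    rw [this, Nat.add_mod_right, Nat.mod_eq_of_lt]
    rw [pow_succ]; omega
  rw [h3, val_succ] at h1
  by_contra h4
  simp at h4
  simp [h4] at h1
  omega

end Pool.Agent.H24.Chaos
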