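import Mathlib
import Pool.Agent.H24.Chaos.Odo

/-! Fair coins. -/

namespace Pool.Agent.H24.Chaos

open MeasureTheory Set
open scoped ENNReal

noncomputable def coin : Measure Bool := (2⁻¹ : ℝ≥0∞) • (Measure.dirac true + Measure.dirac false)

instance : IsProbabilityMeasure coin := ⟨by
  simp [coin, ENNReal.inv_two_add_inv_two]⟩

theorem coin_singleton (b : Bool) : coin {b} = 2⁻¹ := by
  cases b <;> simp [coin]

theorem coin_xor (c : Bool) : coin.map (fun b => xor b c) = coin := by
  have h : Measurable (fun b : Bool => xor b c) := measurable_of_finite _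
  simp only [coin, Measure.map_smul, Measure.map_add _ _ h, Measure.map_dirac' h]
  cases c <;> simp [add_comm]

noncomputable def fair (ι : Type) : Measure (ι → Bool) := Measure.infinitePi fun _ => coin

instance (ι : Type) : IsProbabilityMeasure (fair ι) := by unfold fair; infer_instance

theorem mp_xor {ι : Type} (g : ι → Bool) :
    MeasurePreserving (fun (ω : ι → Bool) i => xor (ω i) (g i)) (fair ι) (fair ι) := by
  have h : ∀ i, Measurable (fun b : Bool => xor b (g i)) := fun i => measurable_of_finite _
  refine ⟨measurable_pi_iff.2 fun i => (h i).comp (measurable_pi_apply i), ?_⟩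
  rw [fair, Measure.infinitePi_map_pi (f := fun i b => xor b (g i)) _ h]
  simp only [coin_xor]

theorem mp_perm {ι : Type} (e : ι ≃ ι) :
    MeasurePreserving (fun (ω : ι → Bool) i => ω (e i)) (fair ι) (fair ι) := by
  refine ⟨measurable_pi_iff.2 fun i => measurable_pi_apply _, ?_⟩
  have := Measure.infinitePi_map_piCongrLeft (X := fun _ : ι => Bool) (μ := fun _ => coin) e.symm
  conv_rhs => rw [fair, ← this]
  rw [fair]
  congr 1
  funext ω i
  obtain ⟨j, rfl⟩ := e.symm.surjective i
  simp only [Equiv.apply_symm_apply]
  exact (Equiv.piCongrLeft_apply_apply (fun _ : ι => Bool) e.symm ω j).symm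

theorem fair_cyl {ι : Type} (s : Finset ι) (b : ι → Bool) :
    fair ι {ω | ∀ i ∈ s, ω i = b i} = 2⁻¹ ^ s.card := by
  have : {ω : ι → Bool | ∀ i ∈ s, ω i = b i} = Set.pi s fun i => {b i} := by
    ext ω; simp [Set.pi]
  rw [this, fair, Measure.infinitePi_pi _ fun i _ => measurableSet_singleton _]
  simp [coin_singleton]

theorem fair_null {ι : Type} (q : ℕ → ι) (hq : Function.Injective q) (b : ι → Bool) :
    fair ι {ω | ∀ n, ω (q n) = b (q n)} = 0 := by
  have h : ∀ n : ℕ, fair ι {ω | ∀ n, ω (q n) = b (q n)} ≤ 2⁻¹ ^ n := fun n => by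
    classical
    have := fair_cyl ((Finset.range n).image q) b
    rw [Finset.card_image_of_injective _ hq, Finset.card_range] at this
    rw [← this]
    refine measure_mono fun ω hω i hi => ?_
    obtain ⟨k, -, rfl⟩ := Finset.mem_image.1 hi
    exact hω k
  have h2 : Filter.Tendsto (fun n : ℕ => (2⁻¹ : ℝ≥0∞) ^ n) Filter.atTop (nhds 0) :=
    ENNReal.tendsto_pow_atTop_nhds_zero_of_lt_one (by simp)
  exact le_antisymm (ge_of_tendsto' h2 h) zero_le

theorem measurableSet_coord {ι : Type} (i : ι) (b : Bool) :
    MeasurableSet {ω : ι → Bool | ω i = b} :=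
  (measurableSet_singleton b).preimage (measurable_pi_apply i)

theorem measurable_S : Measurable S := by
  refine measurable_pi_iff.2 fun n => ?_
  have h : MeasurableSet {z : ℕ → Bool | ∀ i < n, z i = true} := by
    simp only [ofPred_forall]
    exact MeasurableSet.iInter fun i => MeasurableSet.iInter fun _ => measurableSet_coord i true
  have h2 : Measurable fun z : ℕ → Bool => decide (∀ i < n, z i = true) := by
    refine measurable_to_bool ?_
    convert! h using 1
    ext z; simp
  have h3 : Measurable fun p : Bool × Bool => xor p.1 p.2 := measurable_of_finite _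
  exact h3.comp ((measurable_pi_apply n).prodMk h2)

theorem mp_S : MeasurePreserving S (fair ℕ) (fair ℕ) := by
  refine ⟨measurable_S, Measure.ext fun B hB => ?_⟩
  rw [Measure.map_apply measurable_S hB]
  set FZ : ℕ → Set (ℕ → Bool) := fun j => {z | (∀ i < j, z i = true) ∧ z j = false} with hFZ
  set D : ℕ → Set (ℕ → Bool) := fun j => {z | (∀ i < j, z i = false) ∧ z j = true} with hD
  have mFZ : ∀ j, MeasurableSet (FZ j) := fun j => by
    have : FZ j = (⋂ i ∈ {i | i < j}, {z : ℕ → Bool | z i = true}) ∩ {z | z j = false} := by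
      ext z; simp [hFZ]
    rw [this]
    exact (MeasurableSet.biInter (to_countable _) fun i _ => measurableSet_coord i true).inter
      (measurableSet_coord j false)
  have mD : ∀ j, MeasurableSet (D j) := fun j => by
    have : D j = (⋂ i ∈ {i | i < j}, {z : ℕ → Bool | z i = false}) ∩ {z | z j = true} := by
      ext z; simp [hD]
    rw [this]
    exact (MeasurableSet.biInter (to_countable _) fun i _ => measurableSet_coord i false).inter
      (measurableSet_coord j true)
  have dFZ : Pairwise fun i j => Disjoint (FZ i) (FZ j) := by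
    intro i j hij
    refine Set.disjoint_left.2 fun z hi hj => ?_
    rcases lt_or_gt_of_ne hij with h | h
    · have := hj.1 i h; rw [hi.2] at this; exact absurd this (by simp)
    · have := hi.1 j h; rw [hj.2] at this; exact absurd this (by simp)
  have dD : Pairwise fun i j => Disjoint (D i) (D j) := by
    intro i j hij
    refine Set.disjoint_left.2 fun z hi hj => ?_
    rcases lt_or_gt_of_ne hij with h | h
    · have := hj.1 i h; rw [hi.2] at this; exact absurd this (by simp)
    · have := hi.1 j h; rw [hj.2] at this; exact absurd this (by simp)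
  have cFZ : ∀ z : ℕ → Bool, z ∉ ⋃ j, FZ j → ∀ n, z n = true := fun z hz n => by
    by_contra hn
    have hex : ∃ n, z n = false := ⟨n, by simpa using hn⟩
    refine hz (mem_iUnion.2 ⟨Nat.find hex, fun i hi => ?_, Nat.find_spec hex⟩)
    simpa using Nat.find_min hex hi
  have cD : ∀ z : ℕ → Bool, z ∉ ⋃ j, D j → ∀ n, z n = false := fun z hz n => by
    by_contra hn
    have hex : ∃ n, z n = true := ⟨n, by simpa using hn⟩
    refine hz (mem_iUnion.2 ⟨Nat.find hex, fun i hi => ?_, Nat.find_spec hex⟩)
    simpa using Nat.find_min hex hi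
  have key : ∀ (C : Set (ℕ → Bool)) (F : ℕ → Set (ℕ → Bool)) (b : Bool),
      (∀ z, z ∉ ⋃ j, F j → ∀ n, z n = b) → fair ℕ C = fair ℕ (⋃ j, C ∩ F j) := by
    intro C F b h
    rw [← inter_iUnion]
    refine le_antisymm ?_ (measure_mono inter_subset_left)
    calc fair ℕ C ≤ fair ℕ ((C ∩ ⋃ j, F j) ∪ {z | ∀ n, z n = b}) := measure_mono fun z hz => by
            by_cases h' : z ∈ ⋃ j, F j
            · exact Or.inl ⟨hz, h'⟩
            · exact Or.inr (h z h')
      _ ≤ fair ℕ (C ∩ ⋃ j, F j) + fair ℕ {z | ∀ n, z n = b} := measure_union_le _ _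
      _ = _ := by
        have := fair_null id Function.injective_id fun _ => b
        simp only [id] at this
        rw [this, add_zero]
  rw [key (S ⁻¹' B) FZ true cFZ, key B D false cD,
    measure_iUnion (fun i j h => (dFZ h).mono inter_subset_right inter_subset_right)
      fun j => (measurable_S hB).inter (mFZ j),
    measure_iUnion (fun i j h => (dD h).mono inter_subset_right inter_subset_right)
      fun j => hB.inter (mD j)]
  congr 1
  funext j
  have h1 : S ⁻¹' B ∩ FZ j = (fun (z : ℕ → Bool) i => xor (z i) (decide (i ≤ j))) ⁻¹' (B ∩ D j) := by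
    ext z
    have hz : z ∈ FZ j ↔ (fun i => xor (z i) (decide (i ≤ j))) ∈ D j := by
      simp only [hFZ, hD, mem_ofPred_eq]
      constructor
      · rintro ⟨h1, h2⟩
        exact ⟨fun i hi => by simp [h1 i hi, hi.le], by simp [h2]⟩
      · rintro ⟨h1, h2⟩
        refine ⟨fun i hi => ?_, by simpa using h2⟩
        have := h1 i hi
        simpa [hi.le] using this
    have hS : z ∈ FZ j → S z = fun i => xor (z i) (decide (i ≤ j)) := fun ⟨h1, h2⟩ => by
      funext i
      simp only [S]
      congr 1
      rw [decide_eq_decide]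
      constructor
      · intro h
        by_contra h3
        have := h j (by omega)
        rw [h2] at this; exact absurd this (by simp)
      · intro h k hk
        exact h1 k (by omega)
    simp only [mem_inter_iff, mem_preimage]
    constructor
    · rintro ⟨h1, h2⟩
      rw [hS h2] at h1
      exact ⟨h1, hz.1 h2⟩
    · rintro ⟨h1, h2⟩
      have h3 := hz.2 h2
      rw [hS h3]
      exact ⟨h1, h3⟩
  rw [h1, (mp_xor fun i => decide (i ≤ j)).measure_preimage (hB.inter (mD j)).nullMeasurableSet]

end Pool.Agent.H24.Chaos
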