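import Mathlib
import Pool.Agent.H24.Chaos.Fair

/-! A walk on the finite sets of natural numbers in a random scenery, driven by the odometer. -/

namespace Pool.Agent.H24.Chaos

open MeasureTheory Set
open scoped ENNReal

open Classical in
/-- the finite set given by a set (empty if the set is infinite) -/
noncomputable def ftf (s : Set ℕ) : Finset ℕ := if h : s.Finite then h.toFinset else ∅

theorem mem_ftf {s : Set ℕ} (h : s.Finite) {k : ℕ} : k ∈ ftf s ↔ k ∈ s := by
  rw [ftf, dif_pos h, Set.Finite.mem_toFinset]

theorem measurableSet_ftf {α : Type} [MeasurableSpace α] {s : α → Set ℕ}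
    (h : ∀ k, MeasurableSet {x | k ∈ s x}) (A : Finset ℕ) : MeasurableSet {x | ftf (s x) = A} := by
  have key : ∀ A : Finset ℕ, A ≠ ∅ → MeasurableSet {x | ftf (s x) = A} := by
    intro A hA
    have h1 : {x | ftf (s x) = A} = ⋂ k, {x | k ∈ s x ↔ k ∈ A} := by
      ext x
      simp only [mem_ofPred_eq, mem_iInter]
      constructor
      · rintro rfl k
        have : (s x).Finite := by
          by_contra h'
          exact hA (by rw [ftf, dif_neg h'])
        rw [mem_ftf this]
      · intro h'
        have : s x = (A : Set ℕ) := by ext k; exact h' k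
        ext k
        rw [this, mem_ftf A.finite_toSet]; rfl
    rw [h1]
    refine MeasurableSet.iInter fun k => ?_
    by_cases hk : k ∈ A
    · simpa [hk] using h k
    · have : {x | k ∈ s x ↔ k ∈ A} = {x | k ∈ s x}ᶜ := by ext x; simp [hk]
      rw [this]; exact (h k).compl
  by_cases hA : A = ∅
  · have : {x | ftf (s x) = A} = (⋃ B ∈ {B : Finset ℕ | B ≠ ∅}, {x | ftf (s x) = B})ᶜ := by
      ext x
      simp only [mem_ofPred_eq, hA, mem_compl_iff, mem_iUnion, not_exists]
      constructor
      · intro h1 i hi h2; exact hi (h2.symm.trans h1)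
      · intro h1
        by_contra h2
        exact h1 _ h2 rfl
    rw [this]
    exact (MeasurableSet.biUnion (to_countable _) fun B hB => key B hB).compl
  · exact key A hA

/-- The space of the walk. -/
abbrev X : Type := (ℕ → Bool) × (Finset ℕ → Bool)

noncomputable def μX : Measure X := (fair ℕ).prod (fair (Finset ℕ))

instance : IsProbabilityMeasure μX := by unfold μX; infer_instance

section
variable (p : ℕ → ℕ)

/-- the finite set of the special places at which two sequences are different -/
noncomputable def dif (z z' : ℕ → Bool) : Finset ℕ := ftf {j | z (p j) ≠ z' (p j)}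

/-- The walk. -/
noncomputable def T (x : X) : X := (S x.1, fun A => x.2 (symmDiff A (dif p x.1 (S x.1))))

theorem measurableSet_dif (A : Finset ℕ) : MeasurableSet {z : ℕ → Bool | dif p z (S z) = A} := by
  refine measurableSet_ftf (fun k => ?_) A
  have : {z : ℕ → Bool | k ∈ {j | z (p j) ≠ S z (p j)}} = {z : ℕ → Bool | z (p k) = S z (p k)}ᶜ := by
    ext z; simp
  rw [this]
  exact (measurableSet_eq_fun (measurable_pi_apply _)
    ((measurable_pi_apply _).comp measurable_S)).compl

theorem measurable_T₂ : Measurable (fun x : X => fun A => x.2 (symmDiff A (dif p x.1 (S x.1)))) := by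
  refine measurable_pi_iff.2 fun A => measurable_to_bool ?_
  have : (fun x : X => x.2 (symmDiff A (dif p x.1 (S x.1)))) ⁻¹' {true} =
      ⋃ g : Finset ℕ, {x : X | dif p x.1 (S x.1) = g} ∩ {x : X | x.2 (symmDiff A g) = true} := by
    ext x; simp
  rw [this]
  refine MeasurableSet.iUnion fun g => ?_
  exact ((measurableSet_dif p g).preimage measurable_fst).inter
    ((measurableSet_coord _ true).preimage measurable_snd)

theorem mp_T : MeasurePreserving (T p) μX μX := by
  refine MeasurePreserving.skew_product mp_S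
    (g := fun z (ω : Finset ℕ → Bool) A => ω (symmDiff A (dif p z (S z)))) ?_ ?_
  · exact measurable_T₂ p
  · refine Filter.Eventually.of_forall fun z => ?_
    have hinv : Function.Involutive fun A : Finset ℕ => symmDiff A (dif p z (S z)) := fun A => by
      simp
    exact (mp_perm hinv.toPerm).map_eq

variable {p}

theorem dif_finite (hp : StrictMono p) {z : ℕ → Bool} {K n : ℕ} (h : val K z + n < 2 ^ K) :
    {j | z (p j) ≠ (S^[n] z) (p j)}.Finite := by
  refine (Finset.finite_toSet (Finset.range K)).subset fun j hj => ?_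
  simp only [mem_ofPred_eq] at hj
  simp only [Finset.coe_range, mem_Iio]
  by_contra hK
  exact hj (iter_high h ((not_lt.1 hK).trans hp.le_apply)).symm

/-- infinitely many zeros -/
def Zinf (z : ℕ → Bool) : Prop := ∀ K, ∃ i ≥ K, z i = false

theorem Zinf.bound {z : ℕ → Bool} (h : Zinf z) (n : ℕ) : ∃ K, val K z + n < 2 ^ K := by
  obtain ⟨i, hi, hz⟩ := h n
  refine ⟨i + 1, ?_⟩
  have := val_le_of_zero (K := i + 1) (Nat.lt_succ_self i) hz
  have : n < 2 ^ i := lt_of_le_of_lt hi Nat.lt_two_pow_self
  omega

theorem Zinf.finite (hp : StrictMono p) {z : ℕ → Bool} (h : Zinf z) (n : ℕ) :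
    {j | z (p j) ≠ (S^[n] z) (p j)}.Finite :=
  let ⟨_, hK⟩ := h.bound n
  dif_finite hp hK

theorem Zinf.mem_dif (hp : StrictMono p) {z : ℕ → Bool} (h : Zinf z) (n : ℕ) {j : ℕ} :
    j ∈ dif p z (S^[n] z) ↔ z (p j) ≠ (S^[n] z) (p j) := mem_ftf (h.finite hp n)

theorem Zinf.iter {z : ℕ → Bool} (h : Zinf z) (n : ℕ) : Zinf (S^[n] z) := fun K => by
  obtain ⟨L, hL⟩ := h.bound n
  obtain ⟨i, hi, hz⟩ := h (max K L)
  exact ⟨i, (le_max_left _ _).trans hi, by rw [iter_high hL ((le_max_right _ _).trans hi), hz]⟩

theorem T_iter (hp : StrictMono p) {z : ℕ → Bool} (h : Zinf z) (ω : Finset ℕ → Bool) (n : ℕ) :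
    (T p)^[n] (z, ω) = (S^[n] z, fun A => ω (symmDiff A (dif p z (S^[n] z)))) := by
  induction n with
  | zero =>
    have : dif p z z = ∅ := by
      ext j
      rw [show dif p z z = dif p z (S^[0] z) from rfl, h.mem_dif hp]; simp
    simp only [Function.iterate_zero, id, this]
    refine Prod.ext rfl ?_
    funext A
    have : symmDiff A ∅ = A := by ext j; simp [Finset.mem_symmDiff]
    simp only [this]
  | succ n ih =>
    rw [Function.iterate_succ_apply', ih, T]
    simp only [Function.iterate_succ_apply']
    refine Prod.ext rfl ?_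
    funext A
    simp only
    congr 1
    ext j
    have h1 : j ∈ dif p (S^[n] z) (S (S^[n] z)) ↔ (S^[n] z) (p j) ≠ (S (S^[n] z)) (p j) :=
      (h.iter n).mem_dif hp 1
    have h2 : j ∈ dif p z (S (S^[n] z)) ↔ z (p j) ≠ (S (S^[n] z)) (p j) := by
      have := h.mem_dif hp (n + 1) (j := j)
      simpa only [Function.iterate_succ_apply'] using this
    simp only [Finset.mem_symmDiff, h1, h2, h.mem_dif hp n]
    cases z (p j) <;> cases (S^[n] z) (p j) <;> cases (S (S^[n] z)) (p j) <;> simp

theorem T_iter_fst (x : X) (n : ℕ) : ((T p)^[n] x).1 = S^[n] x.1 := by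
  induction n with
  | zero => rfl
  | succ n ih => rw [Function.iterate_succ_apply', Function.iterate_succ_apply', T, ih]

end

end Pool.Agent.H24.Chaos
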