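import Mathlib
import Pool.Agent.H24.Chaos.Walk

/-! The two-point extension of the walk. -/

namespace Pool.Agent.H24.Chaos

open MeasureTheory Set
open scoped ENNReal

noncomputable def cnt (k : ℕ) : ℕ := Fintype.card ((Finset.range (k + 1)).powerset → Bool)

/-- the special places -/
noncomputable def pp : ℕ → ℕ
  | 0 => cnt 0 + 2
  | k + 1 => pp k + 1 + cnt (k + 1) + (k + 1) + 2

/-- the beginnings of the levels -/
noncomputable def bb : ℕ → ℕ
  | 0 => 0
  | k + 1 => pp k + 1

theorem pp_eq (k : ℕ) : pp k = bb k + cnt k + k + 2 := by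
  cases k <;> simp [pp, bb]

theorem pp_strictMono : StrictMono pp := strictMono_nat_of_lt_succ fun k => by
  simp only [pp]; omega

theorem le_bb (k : ℕ) : k ≤ bb k := by
  cases k with
  | zero => simp
  | succ k => simp only [bb]; have := pp_strictMono.le_apply (x := k); omega

/-- the special places below `k + 1` with the value one -/
noncomputable def F (k : ℕ) (z : ℕ → Bool) : Finset ℕ := {j ∈ Finset.range (k + 1) | z (pp j) = true}

/-- the type -/
noncomputable def w (k : ℕ) (x : X) : (Finset.range (k + 1)).powerset → Bool :=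
  fun A => x.2 (symmDiff A.1 (F k x.1))

noncomputable def pos (k : ℕ) (x : X) : ℕ := bb k + (Fintype.equivFin _ (w k x)).val

noncomputable def U (k : ℕ) (x : X) : Bool := x.1 (pos k x)

theorem bb_le_pos (k : ℕ) (x : X) : bb k ≤ pos k x := Nat.le_add_right _ _

theorem pos_lt (k : ℕ) (x : X) : pos k x < bb k + cnt k :=
  Nat.add_lt_add_left (Fin.is_lt _) _

theorem level_ne {k l a a' : ℕ} (h : k ≠ l) (h1 : bb k ≤ a) (h2 : a < bb k + cnt k)
    (h3 : bb l ≤ a') (h4 : a' < bb l + cnt l) : a ≠ a' := by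
  have key : ∀ k l : ℕ, k < l → pp k < bb l := fun k l hkl => by
    cases l with
    | zero => omega
    | succ l => simp only [bb]; have := pp_strictMono.monotone (Nat.lt_succ_iff.1 hkl); omega
  have e1 := pp_eq k
  have e2 := pp_eq l
  rcases lt_or_gt_of_ne h with h | h
  · have := key _ _ h; omega
  · have := key _ _ h; omega

theorem pp_ne {k j a : ℕ} (h1 : bb k ≤ a) (h2 : a < bb k + cnt k) : pp j ≠ a := by
  have key : ∀ k l : ℕ, k < l → pp k < bb l := fun k l hkl => by
    cases l with
    | zero => omega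
    | succ l => simp only [bb]; have := pp_strictMono.monotone (Nat.lt_succ_iff.1 hkl); omega
  have e1 := pp_eq k
  rcases lt_or_ge j k with h | h
  · have := key _ _ h; omega
  · have := pp_strictMono.monotone h; omega

theorem val_mono {K L n : ℕ} {z : ℕ → Bool} (h : val K z + n < 2 ^ K) (hKL : K ≤ L) :
    val L z + n < 2 ^ L := by
  induction L, hKL using Nat.le_induction with
  | base => exact h
  | succ L hL ih =>
    rw [val_succ, pow_succ]
    have := Bool.toNat_le (z L)
    nlinarith

theorem w_iter {z : ℕ → Bool} (h : Zinf z) (ω : Finset ℕ → Bool) {k n : ℕ}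
    (hn : val (pp (k + 1)) z + n < 2 ^ pp (k + 1)) : w k ((T pp)^[n] (z, ω)) = w k (z, ω) := by
  funext A
  rw [T_iter pp_strictMono h]
  simp only [w]
  congr 1
  ext j
  have hA : j ∈ A.1 → j < k + 1 := fun hj => by
    have := Finset.mem_powerset.1 A.2 hj
    simpa using this
  have hj : k + 1 ≤ j → (S^[n] z) (pp j) = z (pp j) := fun hj =>
    iter_high hn (pp_strictMono.monotone hj)
  simp only [Finset.mem_symmDiff, h.mem_dif pp_strictMono, F, Finset.mem_filter, Finset.mem_range]
  by_cases hjk : j < k + 1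
  · by_cases hjA : j ∈ A.1
    · cases z (pp j) <;> cases (S^[n] z) (pp j) <;> simp [hjk, hjA]
    · cases z (pp j) <;> cases (S^[n] z) (pp j) <;> simp [hjk, hjA]
  · have h1 := hj (by omega)
    have h2 : j ∉ A.1 := fun h' => hjk (hA h')
    simp [hjk, h1, h2]

theorem w_iter_congr {z : ℕ → Bool} (h : Zinf z) (ω : Finset ℕ → Bool) {k n n' : ℕ}
    (hn : ∀ j, (S^[n] z) (pp j) = (S^[n'] z) (pp j)) :
    w k ((T pp)^[n] (z, ω)) = w k ((T pp)^[n'] (z, ω)) := by
  funext A
  rw [T_iter pp_strictMono h, T_iter pp_strictMono h]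
  simp only [w]
  congr 1
  ext j
  simp only [Finset.mem_symmDiff, h.mem_dif pp_strictMono, F, Finset.mem_filter, hn]

theorem U_iter_high {z : ℕ → Bool} (h : Zinf z) (ω : Finset ℕ → Bool) {K n k : ℕ}
    (hn : val K z + n < 2 ^ K) (hk : K ≤ k) : U k ((T pp)^[n] (z, ω)) = U k (z, ω) := by
  have h1 : K ≤ pp (k + 1) := (hk.trans (Nat.le_succ _)).trans pp_strictMono.le_apply
  simp only [U, pos, w_iter h ω (val_mono hn h1), T_iter_fst]
  exact iter_high hn ((hk.trans (le_bb k)).trans (Nat.le_add_right _ _))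

/-- The cocycle. -/
noncomputable def φ (x : X) : Bool :=
  decide (Odd (ftf {k | U k (T pp x) ≠ U k x}).card)

/-- The extension. -/
noncomputable def R (y : X × Bool) : X × Bool := (T pp y.1, xor y.2 (φ y.1))

theorem measurable_scenery (A : Finset ℕ) (k : ℕ) :
    Measurable fun x : X => x.2 (symmDiff A (F k x.1)) := by
  refine measurable_to_bool ?_
  have : (fun x : X => x.2 (symmDiff A (F k x.1))) ⁻¹' {true} =
      ⋃ g : Finset ℕ, {x : X | F k x.1 = g} ∩ {x : X | x.2 (symmDiff A g) = true} := by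
    ext x; simp
  rw [this]
  refine MeasurableSet.iUnion fun g => ?_
  refine MeasurableSet.inter ?_ ((measurableSet_coord _ true).preimage measurable_snd)
  have h2 : {z : ℕ → Bool | F k z = g} =
      ⋂ j : ℕ, {z | (j < k + 1 ∧ z (pp j) = true) ↔ j ∈ g} := by
    ext z
    simp only [mem_ofPred_eq, mem_iInter, Finset.ext_iff, F, Finset.mem_filter, Finset.mem_range]
  have h3 : MeasurableSet {z : ℕ → Bool | F k z = g} := by
    rw [h2]
    refine MeasurableSet.iInter fun j => ?_
    by_cases hj : j < k + 1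
    · by_cases hg : j ∈ g
      · simpa [hj, hg] using measurableSet_coord (pp j) true
      · simpa [hj, hg] using measurableSet_coord (pp j) false
    · by_cases hg : j ∈ g <;> simp [hj, hg]
  exact h3.preimage measurable_fst

theorem measurable_w (k : ℕ) : Measurable (w k) :=
  measurable_pi_iff.2 fun A => measurable_scenery A.1 k

theorem measurable_U (k : ℕ) : Measurable (U k) := by
  refine measurable_to_bool ?_
  have : U k ⁻¹' {true} = ⋃ v : (Finset.range (k + 1)).powerset → Bool,
      (w k ⁻¹' {v}) ∩ {x : X | x.1 (bb k + (Fintype.equivFin _ v).val) = true} := by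
    ext x; simp [U, pos]
  rw [this]
  exact MeasurableSet.iUnion fun v => (measurable_w k (measurableSet_singleton v)).inter
    ((measurableSet_coord _ true).preimage measurable_fst)

theorem measurable_φ : Measurable φ := by
  refine measurable_to_bool ?_
  have : φ ⁻¹' {true} = ⋃ g ∈ {g : Finset ℕ | Odd g.card},
      {x : X | ftf {k | U k (T pp x) ≠ U k x} = g} := by
    ext x; simp [φ]
  rw [this]
  refine MeasurableSet.biUnion (to_countable _) fun g _ => measurableSet_ftf (fun k => ?_) g
  have : {x : X | k ∈ {k | U k (T pp x) ≠ U k x}} = {x : X | U k (T pp x) = U k x}ᶜ := by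
    ext x; simp
  rw [this]
  exact (measurableSet_eq_fun ((measurable_U k).comp (mp_T pp).measurable) (measurable_U k)).compl

noncomputable def μY : Measure (X × Bool) := μX.prod coin

instance : IsProbabilityMeasure μY := by unfold μY; infer_instance

theorem mp_R : MeasurePreserving R μY μY := by
  refine MeasurePreserving.skew_product (mp_T pp) (g := fun x j => xor j (φ x)) ?_ ?_
  · have h3 : Measurable fun p : Bool × Bool => xor p.1 p.2 := measurable_of_finite _
    exact h3.comp (measurable_snd.prodMk (measurable_φ.comp measurable_fst))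
  · exact Filter.Eventually.of_forall fun x => coin_xor _

theorem R_iter_fst (y : X × Bool) (n : ℕ) : (R^[n] y).1 = (T pp)^[n] y.1 := by
  induction n with
  | zero => rfl
  | succ n ih => rw [Function.iterate_succ_apply', Function.iterate_succ_apply', R, ih]

/-- a bit as a number modulo two -/
def b2z (b : Bool) : ZMod 2 := if b then 1 else 0

theorem b2z_xor (a b : Bool) : b2z (xor a b) = b2z a + b2z b := by
  cases a <;> cases b <;> decide

theorem b2z_inj {a b : Bool} (h : b2z a = b2z b) : a = b := by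
  cases a <;> cases b <;> simp [b2z] at h ⊢

/-- the partial sums of the transfer function -/
noncomputable def PK (K : ℕ) (x : X) : ZMod 2 := ∑ k ∈ Finset.range K, b2z (U k x)

theorem b2z_φ {z : ℕ → Bool} (h : Zinf z) (ω : Finset ℕ → Bool) {K : ℕ}
    (hn : val K z + 1 < 2 ^ K) :
    b2z (φ (z, ω)) = PK K (T pp (z, ω)) + PK K (z, ω) := by
  have h1 : {k | U k (T pp (z, ω)) ≠ U k (z, ω)} ⊆ (Finset.range K : Set ℕ) := fun k hk => by
    simp only [Finset.coe_range, mem_Iio]
    by_contra h'
    exact hk (U_iter_high h ω (n := 1) hn (not_lt.1 h'))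
  have h2 : ftf {k | U k (T pp (z, ω)) ≠ U k (z, ω)} =
      {k ∈ Finset.range K | U k (T pp (z, ω)) ≠ U k (z, ω)} := by
    ext k
    rw [mem_ftf ((Finset.finite_toSet _).subset h1), Finset.mem_filter]
    exact ⟨fun h => ⟨by simpa using h1 h, h⟩, fun h => h.2⟩
  have h3 : b2z (φ (z, ω)) = ((ftf {k | U k (T pp (z, ω)) ≠ U k (z, ω)}).card : ZMod 2) := by
    simp only [φ, b2z, decide_eq_true_eq]
    split_ifs with h4
    · exact (ZMod.natCast_eq_one_iff_odd.2 h4).symm
    · exact (ZMod.natCast_eq_zero_iff_even.2 (Nat.not_odd_iff_even.1 h4)).symm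
  rw [h3, h2, Finset.card_filter, Nat.cast_sum, PK, PK, ← Finset.sum_add_distrib]
  refine Finset.sum_congr rfl fun k _ => ?_
  cases U k (T pp (z, ω)) <;> cases U k (z, ω) <;> simp [b2z] <;> decide

theorem R_iter_snd {z : ℕ → Bool} (h : Zinf z) (ω : Finset ℕ → Bool) (j : Bool) {K n : ℕ}
    (hn : val K z + n < 2 ^ K) :
    b2z (R^[n] ((z, ω), j)).2 = b2z j + (PK K ((T pp)^[n] (z, ω)) + PK K (z, ω)) := by
  induction n with
  | zero =>
    simp only [Function.iterate_zero, id]
    rw [CharTwo.add_self_eq_zero, add_zero]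
  | succ n ih =>
    rw [Function.iterate_succ_apply', R, b2z_xor, ih (by omega), R_iter_fst]
    have h1 : (T pp)^[n] (z, ω) = (S^[n] z, ((T pp)^[n] (z, ω)).2) := Prod.ext (T_iter_fst _ _) rfl
    rw [h1, b2z_φ (h.iter n) _ (K := K), ← h1, Function.iterate_succ_apply']
    · have := CharTwo.add_self_eq_zero (PK K ((T pp)^[n] (z, ω)))
      linear_combination this
    · rw [val_iter, Nat.mod_eq_of_lt (by omega)]; omega

/-- The main point: the difference of the last coordinates changes if a certain bit changes. -/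
theorem pair {z : ℕ → Bool} (h : Zinf z) {ω ω' : Finset ℕ → Bool} {j j' : Bool} {k : ℕ}
    (hw : w k (z, ω) ≠ w k (z, ω')) :
    ∃ β, bb k ≤ β ∧ β < bb k + cnt k ∧ ∀ n, (S^[n] z) β = false →
      val (pp (k + 1)) z + (n + 2 ^ β) < 2 ^ pp (k + 1) →
      ¬ ((R^[n] ((z, ω), j)).2 = (R^[n] ((z, ω'), j')).2 ∧
        (R^[n + 2 ^ β] ((z, ω), j)).2 = (R^[n + 2 ^ β] ((z, ω'), j')).2) := by
  -- the change of the partial sums
  have key : ∀ (ω : Finset ℕ → Bool) (β : ℕ), bb k ≤ β → β < bb k + cnt k →
      ∀ n, (S^[n] z) β = false → val (pp (k + 1)) z + (n + 2 ^ β) < 2 ^ pp (k + 1) →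
      PK (pp (k + 1)) ((T pp)^[n + 2 ^ β] (z, ω)) =
        PK (pp (k + 1)) ((T pp)^[n] (z, ω)) + if pos k (z, ω) = β then 1 else 0 := by
    intro ω β h1 h2 n hβ hn
    have e0 : S^[n + 2 ^ β] z = Function.update (S^[n] z) β true := by
      rw [add_comm, Function.iterate_add_apply, iter_pow_of_false hβ]
    have e1 : ∀ j, (S^[n + 2 ^ β] z) (pp j) = (S^[n] z) (pp j) := fun j => by
      rw [e0, Function.update_of_ne (pp_ne h1 h2)]
    have e2 : ∀ l, pos l ((T pp)^[n + 2 ^ β] (z, ω)) = pos l ((T pp)^[n] (z, ω)) := fun l => by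
      rw [pos, pos, w_iter_congr h ω e1]
    have e3 : ∀ l, l ≠ k → U l ((T pp)^[n + 2 ^ β] (z, ω)) = U l ((T pp)^[n] (z, ω)) := fun l hl => by
      rw [U, U, e2, T_iter_fst, T_iter_fst]
      simp only
      rw [e0, Function.update_of_ne]
      exact level_ne hl (bb_le_pos _ _) (pos_lt _ _) h1 h2
    have e4 : pos k ((T pp)^[n] (z, ω)) = pos k (z, ω) := by
      rw [pos, pos, w_iter h ω (lt_of_le_of_lt (Nat.add_le_add_left (Nat.le_add_right n _) _) hn)]
    have e5 : b2z (U k ((T pp)^[n + 2 ^ β] (z, ω))) = b2z (U k ((T pp)^[n] (z, ω))) +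
        if pos k (z, ω) = β then 1 else 0 := by
      rw [U, U, e2, e4, T_iter_fst, T_iter_fst]
      simp only
      rw [e0]
      split_ifs with h6
      · rw [h6, Function.update_self, hβ]; decide
      · rw [Function.update_of_ne h6, add_zero]
    have hk : k ∈ Finset.range (pp (k + 1)) := by
      have := pp_strictMono.le_apply (x := k + 1)
      simp; omega
    rw [PK, PK, ← Finset.add_sum_erase _ _ hk, ← Finset.add_sum_erase _ _ hk, e5,
      Finset.sum_congr rfl fun l hl => by rw [e3 l (Finset.ne_of_mem_erase hl)]]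
    ring
  have hne : pos k (z, ω) ≠ pos k (z, ω') := fun h' => hw <| by
    have : (Fintype.equivFin _ (w k (z, ω))) = Fintype.equivFin _ (w k (z, ω')) :=
      Fin.ext (Nat.add_left_cancel h')
    exact (Fintype.equivFin _).injective this
  set β := max (pos k (z, ω)) (pos k (z, ω')) with hβ
  have b1 : bb k ≤ β := (bb_le_pos k _).trans (le_max_left _ _)
  have b2 : β < bb k + cnt k := max_lt (pos_lt k _) (pos_lt k _)
  refine ⟨β, b1, b2, fun n hn hlt ⟨h1, h2⟩ => ?_⟩
  have hlt' := lt_of_le_of_lt (Nat.add_le_add_left (Nat.le_add_right n (2 ^ β)) _) hlt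
  have h1' := congrArg b2z h1
  have h2' := congrArg b2z h2
  rw [R_iter_snd h ω j hlt', R_iter_snd h ω' j' hlt'] at h1'
  rw [R_iter_snd h ω j hlt, R_iter_snd h ω' j' hlt, key ω β b1 b2 n hn hlt,
    key ω' β b1 b2 n hn hlt] at h2'
  rcases lt_or_gt_of_ne hne with h3 | h3
  · have e1 : β = pos k (z, ω') := max_eq_right h3.le
    rw [if_neg (by omega), if_pos e1.symm] at h2'
    have : (0 : ZMod 2) = 1 := by linear_combination h2' - h1'
    exact absurd this (by decide)
  · have e1 : β = pos k (z, ω) := max_eq_left h3.le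
    rw [if_pos e1.symm, if_neg (by omega)] at h2'
    have : (1 : ZMod 2) = 0 := by linear_combination h2' - h1'
    exact absurd this (by decide)

end Pool.Agent.H24.Chaos
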