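import Mathlib
import Pool.Agent.H24.Chaos.Ext
import Pool.Agent.H24.Chaos.Defs

/-! The extension has no scrambled pairs for a suitable refining sequence. -/

namespace Pool.Agent.H24.Chaos

open MeasureTheory Set Filter
open scoped ENNReal

/-- the good points of the base -/
def Z₀ : Set (ℕ → Bool) :=
  {z | (∀ K, ∃ i ≥ K, z i = true) ∧ ∀ᶠ k in atTop, ∃ i, pp k - k ≤ i ∧ i < pp k ∧ z i = false}

theorem le_pp_sub (k : ℕ) : k ≤ pp k - k := by
  have := pp_eq k
  have := le_bb k
  omega

theorem Zinf_of_Z₀ {z : ℕ → Bool} (h : z ∈ Z₀) : Zinf z := fun K => by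
  obtain ⟨k, hk, i, hi, -, hz⟩ := ((eventually_ge_atTop K).and h.2).exists
  exact ⟨i, hk.trans ((le_pp_sub k).trans hi), hz⟩

theorem S_mem_Z₀ (z : ℕ → Bool) : S z ∈ Z₀ ↔ z ∈ Z₀ := by
  by_cases h : ∃ i, z i = false
  · obtain ⟨i, hi⟩ := h
    have h1 : val (i + 1) z + 1 < 2 ^ (i + 1) := by
      have := val_le_of_zero (K := i + 1) (Nat.lt_succ_self i) hi
      have : 0 < 2 ^ i := by positivity
      omega
    have h2 : ∀ j, i + 1 ≤ j → S z j = z j := fun j hj => S_high h1 hj
    have h3 : (∀ K, ∃ i ≥ K, S z i = true) ↔ ∀ K, ∃ i ≥ K, z i = true := by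
      constructor
      · intro h K
        obtain ⟨j, hj, hz⟩ := h (max K (i + 1))
        exact ⟨j, (le_max_left _ _).trans hj, by rw [← h2 j ((le_max_right _ _).trans hj), hz]⟩
      · intro h K
        obtain ⟨j, hj, hz⟩ := h (max K (i + 1))
        exact ⟨j, (le_max_left _ _).trans hj, by rw [h2 j ((le_max_right _ _).trans hj), hz]⟩
    have h4 : (∀ᶠ k in atTop, ∃ i, pp k - k ≤ i ∧ i < pp k ∧ S z i = false) ↔
        ∀ᶠ k in atTop, ∃ i, pp k - k ≤ i ∧ i < pp k ∧ z i = false := by
      refine eventually_congr ((eventually_ge_atTop (i + 1)).mono fun k hk => ?_)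
      refine exists_congr fun j => ?_
      constructor
      · rintro ⟨a, b, c⟩
        exact ⟨a, b, by rw [← h2 j ((hk.trans (le_pp_sub k)).trans a), c]⟩
      · rintro ⟨a, b, c⟩
        exact ⟨a, b, by rw [h2 j ((hk.trans (le_pp_sub k)).trans a), c]⟩
    simp only [Z₀, mem_ofPred_eq, h3, h4]
  · push Not at h
    constructor
    · intro h1
      obtain ⟨i, -, hi⟩ := h1.1 0
      exfalso
      have : S z i = false := by
        have h2 : ∀ j, z j = true := fun j => by simpa using h j
        simp [S, h2]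
      rw [this] at hi; exact absurd hi (by simp)
    · intro h1
      obtain ⟨i, -, hi⟩ := Zinf_of_Z₀ h1 0
      exact absurd hi (h i)

theorem iter_mem_Z₀ (z : ℕ → Bool) (n : ℕ) : S^[n] z ∈ Z₀ ↔ z ∈ Z₀ := by
  induction n with
  | zero => rfl
  | succ n ih => rw [Function.iterate_succ_apply', S_mem_Z₀, ih]

theorem ae_Z₀ : ∀ᵐ z ∂fair ℕ, z ∈ Z₀ := by
  have h1 : ∀ᵐ z ∂fair ℕ, ∀ K, ∃ i ≥ K, z i = true := by
    rw [ae_all_iff]
    intro K
    have := fair_null (fun n => K + n) (fun a b h => Nat.add_left_cancel h) fun _ => false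
    rw [ae_iff]
    refine measure_mono_null ?_ this
    intro z hz n
    simp only [mem_ofPred_eq] at hz
    by_contra h
    exact hz ⟨K + n, Nat.le_add_right _ _, by simpa using h⟩
  have h2 : ∀ᵐ z ∂fair ℕ, ∀ᶠ k in atTop, z ∉ {z : ℕ → Bool | ∀ i ∈ Finset.Ico (pp k - k) (pp k),
      z i = true} := by
    refine ae_eventually_notMem ?_
    have : ∀ k, fair ℕ {z : ℕ → Bool | ∀ i ∈ Finset.Ico (pp k - k) (pp k), z i = true} =
        2⁻¹ ^ k := fun k => by
      have h3 := fair_cyl (Finset.Ico (pp k - k) (pp k)) fun _ => true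
      rw [h3, Nat.card_Ico]
      congr 1
      have := pp_eq k
      omega
    simp only [this]
    rw [ENNReal.tsum_geometric]
    simp
  filter_upwards [h1, h2] with z hz1 hz2
  refine ⟨hz1, hz2.mono fun k hk => ?_⟩
  simp only [mem_ofPred_eq, Finset.mem_Ico] at hk
  push Not at hk
  obtain ⟨i, ⟨h3, h4⟩, h5⟩ := hk
  exact ⟨i, h3, h4, by simpa using h5⟩

theorem measurableSet_Z₀ : MeasurableSet Z₀ := by
  have : Z₀ = (⋂ K, ⋃ i ∈ {i | K ≤ i}, {z : ℕ → Bool | z i = true}) ∩
      ⋃ k₀, ⋂ k ∈ {k | k₀ ≤ k}, ⋃ i ∈ {i | pp k - k ≤ i ∧ i < pp k}, {z : ℕ → Bool | z i = false} := by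
    ext z
    simp [Z₀, eventually_atTop, and_assoc]
  rw [this]
  refine MeasurableSet.inter ?_ ?_
  · exact MeasurableSet.iInter fun K => MeasurableSet.biUnion (to_countable _) fun i _ =>
      measurableSet_coord i true
  · exact MeasurableSet.iUnion fun k₀ => MeasurableSet.biInter (to_countable _) fun k _ =>
      MeasurableSet.biUnion (to_countable _) fun i _ => measurableSet_coord i false

/-- Counting times. -/
theorem count {z : ℕ → Bool} {β N : ℕ} {A : Set ℕ}
    (h : ∀ n, (S^[n] z) β = false → n + 2 ^ β < N → ¬ (n ∈ A ∧ n + 2 ^ β ∈ A)) :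
    2 * (A ∩ Iio N).ncard ≤ N + 2 * 2 ^ β := by
  classical
  set b := 2 ^ β with hb
  have hb0 : 0 < b := by positivity
  have hf : ∀ n, (S^[n] z) β = true → (S^[n + b] z) β = false := fun n hn => by
    rw [hb, add_comm, Function.iterate_add_apply]; exact iter_pow_of_true hn
  have ht : ∀ n, (S^[n] z) β = false → (S^[n + b] z) β = true := fun n hn => by
    rw [hb, add_comm, Function.iterate_add_apply, iter_pow_of_false hn]; simp
  set I : Finset ℕ := {n ∈ Finset.range (N - b) | (S^[n] z) β = false} with hI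
  set D : Finset ℕ := {n ∈ Finset.range N | n ∉ A} with hD
  have h1 : I.card ≤ D.card := by
    refine Finset.card_le_card_of_injOn (fun n => if n ∈ A then n + b else n) ?_ ?_
    · intro n hn
      simp only [hI, Finset.coe_filter, mem_ofPred_eq, Finset.mem_range] at hn
      simp only [hD, Finset.coe_filter, mem_ofPred_eq, Finset.mem_range]
      have h3 : n + b < N := by omega
      have h4 := h n hn.2 h3
      split_ifs with h5
      · exact ⟨h3, fun h6 => h4 ⟨h5, h6⟩⟩
      · exact ⟨by omega, h5⟩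
    · intro n hn m hm hnm
      simp only [hI, Finset.coe_filter, mem_ofPred_eq, Finset.mem_range] at hn hm
      simp only at hnm
      split_ifs at hnm with h5 h6 h6
      · omega
      · have := ht n hn.2
        rw [hnm, hm.2] at this; exact absurd this (by simp)
      · have := ht m hm.2
        rw [← hnm, hn.2] at this; exact absurd this (by simp)
      · exact hnm
  have h2 : N - 2 * b ≤ 2 * I.card := by
    have h3 : (Finset.range (N - 2 * b)).card ≤ I.card + I.card := by
      have h4 : Finset.range (N - 2 * b) ⊆ I ∪ {n ∈ Finset.range (N - 2 * b) | n + b ∈ I} := by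
        intro n hn
        simp only [Finset.mem_range] at hn
        simp only [Finset.mem_union, Finset.mem_filter, hI, Finset.mem_range]
        cases hz : (S^[n] z) β
        · exact Or.inl ⟨by omega, rfl⟩
        · exact Or.inr ⟨hn, by omega, hf n hz⟩
      refine (Finset.card_le_card h4).trans ((Finset.card_union_le _ _).trans ?_)
      refine Nat.add_le_add_left ?_ _
      refine Finset.card_le_card_of_injOn (fun n => n + b) ?_ fun n _ m _ h => by
        simpa using h
      intro n hn
      simp only [Finset.coe_filter, mem_ofPred_eq] at hn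
      exact hn.2
    rw [Finset.card_range] at h3; omega
  have h5 : (A ∩ Iio N).ncard + D.card = N := by
    have : A ∩ Iio N = (({n ∈ Finset.range N | n ∈ A} : Finset ℕ) : Set ℕ) := by
      ext n; simp [and_comm]
    rw [this, Set.ncard_coe_finset, hD]
    have := Finset.card_filter_add_card_filter_not (s := Finset.range N) (fun n => n ∈ A)
    rwa [Finset.card_range] at this
  omega

/-- same last coordinates: at most five eighths of the times -/
theorem count_same {z : ℕ → Bool} (hz : z ∈ Z₀) {ω ω' : Finset ℕ → Bool} (hω : ω ≠ ω')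
    (j j' : Bool) : ∀ᶠ N : ℕ in atTop,
      8 * ({n | (R^[n] ((z, ω), j)).2 = (R^[n] ((z, ω'), j')).2} ∩ Iio N).ncard ≤ 5 * N := by
  have hinf := Zinf_of_Z₀ hz
  obtain ⟨A, hA⟩ : ∃ A, ω A ≠ ω' A := by
    by_contra h; push Not at h; exact hω (funext h)
  obtain ⟨k₀, hk₀⟩ := eventually_atTop.1 hz.2
  obtain ⟨a, ha⟩ : ∃ a, A ⊆ Finset.range a := A.exists_nat_subset_range
  set k₁ := max (max k₀ a) 2 with hk₁
  have hw : ∀ k, k₁ ≤ k → w k (z, ω) ≠ w k (z, ω') := fun k hk h => by
    have hm : symmDiff A (F k z) ∈ (Finset.range (k + 1)).powerset := by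
      rw [Finset.mem_powerset]
      intro i hi
      rw [Finset.mem_symmDiff] at hi
      rcases hi with ⟨hi, -⟩ | ⟨hi, -⟩
      · have h1 := ha hi
        have h2 : a ≤ k := ((le_max_right k₀ a).trans (le_max_left _ _)).trans hk
        simp only [Finset.mem_range] at h1 ⊢; omega
      · exact (Finset.mem_filter.1 hi).1
    have := congrFun h ⟨_, hm⟩
    simp only [w] at this
    apply hA
    simpa using this
  filter_upwards [eventually_gt_atTop (2 ^ pp k₁)] with N hN
  -- the least level
  have hex : ∃ k, N + val (pp (k + 1)) z ≤ 2 ^ pp (k + 1) := by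
    obtain ⟨K, hK⟩ := hinf.bound N
    have h1 : K ≤ pp (K + 1) := (Nat.le_succ K).trans pp_strictMono.le_apply
    exact ⟨K, by have := val_mono hK h1; omega⟩
  classical
  set k := Nat.find hex with hk
  have hk1 : N + val (pp (k + 1)) z ≤ 2 ^ pp (k + 1) := Nat.find_spec hex
  have hk2 : k₁ ≤ k := by
    by_contra h
    have : 2 ^ pp (k + 1) ≤ 2 ^ pp k₁ :=
      Nat.pow_le_pow_right (by norm_num) (pp_strictMono.monotone (by omega))
    omega
  have hk3 : 2 ^ pp k < N + val (pp k) z := by
    have h0 : 2 ≤ k := (le_max_right _ _).trans hk2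
    have h1 : k - 1 < k := by omega
    have h2 := Nat.find_min hex h1
    have e : k - 1 + 1 = k := by omega
    rw [e] at h2
    omega
  obtain ⟨i, hi1, hi2, hi3⟩ := hk₀ k (((le_max_left k₀ a).trans (le_max_left _ _)).trans hk2)
  have hk4 := val_le_of_zero hi2 hi3
  have hk5 : 2 ^ i < N := by omega
  obtain ⟨β, hβ1, hβ2, hβ⟩ := pair hinf (j := j) (j' := j') (hw k hk2)
  have hk6 : 8 * 2 ^ β ≤ 2 ^ i := by
    have h0 : 2 ≤ k := (le_max_right _ _).trans hk2
    have := pp_eq k
    rw [show 8 = 2 ^ 3 by norm_num, ← pow_add]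
    exact Nat.pow_le_pow_right (by norm_num) (by omega)
  have := count (z := z) (β := β) (N := N)
    (A := {n | (R^[n] ((z, ω), j)).2 = (R^[n] ((z, ω'), j')).2})
    fun n h1 h2 => hβ n h1 (by omega)
  omega

/-! The refining sequence. -/

open Classical in
noncomputable def qY (k : ℕ) (y : X × Bool) :
    Option ((Fin k → Bool) × ((Finset.range k).powerset → Bool) × Bool) :=
  if y.1.1 ∈ Z₀ then some (fun i => y.1.1 i, fun A => y.1.2 A, y.2) else none

noncomputable def PY (k : ℕ) (y : X × Bool) : ℕ := (Fintype.equivFin _ (qY k y)).val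

theorem PY_inj {k : ℕ} {y y' : X × Bool} : PY k y = PY k y' ↔ qY k y = qY k y' := by
  rw [PY, PY, Fin.val_inj, EmbeddingLike.apply_eq_iff_eq]

theorem PY_iff {k : ℕ} {y y' : X × Bool} (h : y.1.1 ∈ Z₀) : PY k y = PY k y' ↔
    y'.1.1 ∈ Z₀ ∧ (∀ i < k, y.1.1 i = y'.1.1 i) ∧ (∀ A ⊆ Finset.range k, y.1.2 A = y'.1.2 A) ∧
      y.2 = y'.2 := by
  rw [PY_inj, qY, qY, if_pos h]
  by_cases h' : y'.1.1 ∈ Z₀
  · rw [if_pos h']
    simp only [Option.some.injEq, Prod.mk.injEq, funext_iff, h', true_and]
    constructor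
    · rintro ⟨h1, h2, h3⟩
      exact ⟨fun i hi => h1 ⟨i, hi⟩, fun A hA => h2 ⟨A, Finset.mem_powerset.2 hA⟩, h3⟩
    · rintro ⟨h1, h2, h3⟩
      exact ⟨fun i => h1 i i.2, fun A => h2 A (Finset.mem_powerset.1 A.2), h3⟩
  · rw [if_neg h']; simp [h']

theorem PY_iff' {k : ℕ} {y y' : X × Bool} (h : y.1.1 ∉ Z₀) : PY k y = PY k y' ↔ y'.1.1 ∉ Z₀ := by
  rw [PY_inj, qY, qY, if_neg h]
  by_cases h' : y'.1.1 ∈ Z₀ <;> simp [h']

/-- a function which is constant on the atoms of one partition is measurable -/
theorem meas_of_factor {Y : Type} (P : ℕ → Y → ℕ) {k : ℕ} {g : Y → Bool}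
    (hg : ∀ y y', P k y = P k y' → g y = g y') :
    Measurable[MeasurableSpace.generateFrom {C | ∃ k j, C = {x | P k x = j}}] g := by
  let _ : MeasurableSpace Y := MeasurableSpace.generateFrom {C | ∃ k j, C = {x | P k x = j}}
  refine measurable_to_bool ?_
  have : g ⁻¹' {true} = ⋃ j ∈ (P k) '' (g ⁻¹' {true}), {y | P k y = j} := by
    ext y
    simp only [mem_preimage, mem_singleton_iff, mem_iUnion, mem_image, mem_ofPred_eq, exists_prop]
    constructor
    · intro h; exact ⟨_, ⟨y, h, rfl⟩, rfl⟩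
    · rintro ⟨j, ⟨y', h, rfl⟩, h'⟩
      rw [hg _ _ h', h]
  rw [this]
  exact MeasurableSet.biUnion (to_countable _) fun j _ =>
    MeasurableSpace.measurableSet_generateFrom ⟨k, j, rfl⟩

noncomputable def sysX : MPSystem where
  X := X
  μ := μX
  T := T pp
  mp := mp_T pp

noncomputable def sysY : MPSystem where
  X := X × Bool
  μ := μY
  T := R
  mp := mp_R

theorem ae_Z₀_Y : ∀ᵐ y ∂μY, y.1.1 ∈ Z₀ := by
  have h1 : MeasurePreserving (fun y : X × Bool => y.1.1) μY (fair ℕ) :=
    (measurePreserving_fst (μ := fair ℕ) (ν := fair (Finset ℕ))).comp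
      (measurePreserving_fst (μ := μX) (ν := coin))
  exact h1.quasiMeasurePreserving.ae ae_Z₀

theorem measurableSet_PY (k j : ℕ) : MeasurableSet {y | PY k y = j} := by
  have h0 : MeasurableSet {y : X × Bool | y.1.1 ∈ Z₀} :=
    measurableSet_Z₀.preimage (measurable_fst.comp measurable_fst)
  by_cases hne : ∃ y₀, PY k y₀ = j
  · obtain ⟨y₀, rfl⟩ := hne
    by_cases h : y₀.1.1 ∈ Z₀
    · have : {y | PY k y = PY k y₀} = {y : X × Bool | y.1.1 ∈ Z₀} ∩
          ((⋂ i ∈ {i | i < k}, {y : X × Bool | y.1.1 i = y₀.1.1 i}) ∩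
          ((⋂ A ∈ {A | A ⊆ Finset.range k}, {y : X × Bool | y.1.2 A = y₀.1.2 A}) ∩
          {y | y.2 = y₀.2})) := by
        ext y
        simp only [mem_ofPred_eq, mem_inter_iff, mem_iInter]
        rw [eq_comm, PY_iff h]
        simp only [eq_comm]
      rw [this]
      refine h0.inter (MeasurableSet.inter ?_ (MeasurableSet.inter ?_ ?_))
      · exact MeasurableSet.biInter (to_countable _) fun i _ =>
          (measurableSet_coord i _).preimage (measurable_fst.comp measurable_fst)
      · exact MeasurableSet.biInter (to_countable _) fun i _ =>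
          (measurableSet_coord i _).preimage (measurable_snd.comp measurable_fst)
      · exact measurable_snd (measurableSet_singleton _)
    · have : {y | PY k y = PY k y₀} = {y : X × Bool | y.1.1 ∈ Z₀}ᶜ := by
        ext y
        simp only [mem_ofPred_eq, mem_compl_iff]
        rw [eq_comm, PY_iff' h]
      rw [this]; exact h0.compl
  · have : {y | PY k y = j} = ∅ := by
      ext y; simp only [mem_ofPred_eq, mem_empty_iff_false, iff_false]
      exact fun h => hne ⟨y, h⟩
    rw [this]; exact MeasurableSet.empty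

theorem refining_Y : IsRefining sysY PY where
  finite k := by
    refine (Set.finite_range fun i : Fin (Fintype.card (Option ((Fin k → Bool) ×
      ((Finset.range k).powerset → Bool) × Bool))) => i.val).subset ?_
    rintro _ ⟨y, rfl⟩
    exact ⟨_, rfl⟩
  measurable k j := (measurableSet_PY k j).nullMeasurableSet
  refines k y y' h := by
    by_cases hy : y.1.1 ∈ Z₀
    · rw [PY_iff hy] at h ⊢
      exact ⟨h.1, fun i hi => h.2.1 i (by omega), fun A hA => h.2.2.1 A
        (hA.trans (Finset.range_mono (Nat.le_succ k))), h.2.2.2⟩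
    · rw [PY_iff' hy] at h ⊢
      exact h
  generates B hB := by
    classical
    let r : X × Bool → X × Bool := fun y =>
      if y.1.1 ∈ Z₀ then y else ((fun _ => false, fun _ => false), false)
    have hr : @Measurable _ _ (MeasurableSpace.generateFrom {C | ∃ k j, C = {x | PY k x = j}})
        _ r := by
      have h1 : ∀ i, @Measurable _ _
          (MeasurableSpace.generateFrom {C | ∃ k j, C = {x | PY k x = j}}) _
          fun y => (r y).1.1 i := fun i => by
        refine meas_of_factor PY (k := i + 1) fun y y' h => ?_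
        by_cases hy : y.1.1 ∈ Z₀
        · have h' := (PY_iff hy).1 h
          simp only [r, if_pos hy, if_pos h'.1]
          exact h'.2.1 i (Nat.lt_succ_self i)
        · have h' := (PY_iff' hy).1 h
          simp only [r, if_neg hy, if_neg h']
      have h2 : ∀ A, @Measurable _ _
          (MeasurableSpace.generateFrom {C | ∃ k j, C = {x | PY k x = j}}) _
          fun y => (r y).1.2 A := fun A => by
        obtain ⟨a, ha⟩ : ∃ a, A ⊆ Finset.range a := A.exists_nat_subset_range
        refine meas_of_factor PY (k := a) fun y y' h => ?_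
        by_cases hy : y.1.1 ∈ Z₀
        · have h' := (PY_iff hy).1 h
          simp only [r, if_pos hy, if_pos h'.1]
          exact h'.2.2.1 A ha
        · have h' := (PY_iff' hy).1 h
          simp only [r, if_neg hy, if_neg h']
      have h3 : @Measurable _ _
          (MeasurableSpace.generateFrom {C | ∃ k j, C = {x | PY k x = j}}) _
          fun y => (r y).2 := by
        refine meas_of_factor PY (k := 0) fun y y' h => ?_
        by_cases hy : y.1.1 ∈ Z₀
        · have h' := (PY_iff hy).1 h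
          simp only [r, if_pos hy, if_pos h'.1]
          exact h'.2.2.2
        · have h' := (PY_iff' hy).1 h
          simp only [r, if_neg hy, if_neg h']
      let _ : MeasurableSpace (X × Bool) :=
        MeasurableSpace.generateFrom {C | ∃ k j, C = {x | PY k x = j}}
      exact @Measurable.prodMk _ _ _ _ _ _ _ _ (@Measurable.prodMk _ _ _ _ _ _ _ _
        (measurable_pi_iff.2 h1) (measurable_pi_iff.2 h2)) h3
    refine ⟨r ⁻¹' B, hr hB, ?_⟩
    change B =ᵐ[μY] r ⁻¹' B
    filter_upwards [ae_Z₀_Y] with y hy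
    have : r y = y := if_pos hy
    refine propext ?_
    change y ∈ B ↔ r y ∈ B
    rw [this]

theorem R_iter_base (y : X × Bool) (n : ℕ) : (R^[n] y).1.1 = S^[n] y.1.1 := by
  rw [R_iter_fst, T_iter_fst]

theorem not_scrambled {y y' : X × Bool} (hne : y ≠ y') : ¬ Scrambled sysY PY y y' := by
  rintro ⟨⟨n, hn, hd, ht⟩, k, η, hη, m, hm, hη', hm'⟩
  change ∀ k, ∀ᶠ i in atTop, PY k (R^[n i] y) = PY k (R^[n i] y') at ht
  change ∀ i, PY k (R^[m i] y) ≠ PY k (R^[m i] y') at hm'
  by_cases hy : y.1.1 ∈ Z₀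
  · have hit : ∀ n, (R^[n] y).1.1 ∈ Z₀ := fun n => by rw [R_iter_base, iter_mem_Z₀]; exact hy
    obtain ⟨i₀, hi₀⟩ := (ht 0).exists
    have hy' : y'.1.1 ∈ Z₀ := by
      have := ((PY_iff (hit _)).1 hi₀).1
      rwa [R_iter_base, iter_mem_Z₀] at this
    by_cases hz : y.1.1 = y'.1.1
    · -- the same base point
      by_cases hω : y.1.2 = y'.1.2
      · have h1 : y.1 = y'.1 := Prod.ext hz hω
        have h2 : y.2 ≠ y'.2 := fun h => hne (Prod.ext h1 h)
        have h3 : ∀ n, (R^[n] y).1 = (R^[n] y').1 ∧ (R^[n] y).2 ≠ (R^[n] y').2 := fun n => by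
          induction n with
          | zero => exact ⟨h1, h2⟩
          | succ n ih =>
            rw [Function.iterate_succ_apply', Function.iterate_succ_apply']
            simp only [R, ih.1]
            refine ⟨trivial, fun h => ih.2 ?_⟩
            simpa using h
        exact (h3 _).2 ((PY_iff (hit _)).1 hi₀).2.2.2
      · have e1 : y = ((y.1.1, y.1.2), y.2) := rfl
        have e2 : y' = ((y.1.1, y'.1.2), y'.2) := by rw [hz]
        have h1 := count_same hy hω y.2 y'.2
        rw [← e1, ← e2] at h1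
        obtain ⟨i₁, hi₁⟩ := eventually_atTop.1 (ht 0)
        have h2 : upperDensity (range n) ≤ 3 / 4 := by
          refine upperDensity_le ?_
          filter_upwards [h1, eventually_ge_atTop (8 * i₁)] with N hN hN'
          have h3 : (range n ∩ Iio N) ⊆ ({n | (R^[n] y).2 = (R^[n] y').2} ∩ Iio N) ∪
              (n '' Iio i₁) := by
            rintro _ ⟨⟨i, rfl⟩, hi⟩
            by_cases h4 : i₁ ≤ i
            · exact Or.inl ⟨((PY_iff (hit _)).1 (hi₁ i h4)).2.2.2, hi⟩
            · exact Or.inr ⟨i, not_le.1 h4, rfl⟩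
          have hfin : (({n | (R^[n] y).2 = (R^[n] y').2} ∩ Iio N) ∪ (n '' Iio i₁)).Finite :=
            ((finite_Iio N).subset inter_subset_right).union ((finite_Iio i₁).image n)
          have h4 := (ncard_le_ncard h3 hfin).trans (ncard_union_le _ _)
          have h5 : (n '' Iio i₁).ncard ≤ i₁ := by
            refine (ncard_image_le (finite_Iio i₁)).trans ?_
            rw [ncard_Iio_nat]
          have h6 : 4 * (range n ∩ Iio N).ncard ≤ 3 * N := by omega
          have h7 : (4 : ℝ≥0∞) * (range n ∩ Iio N).ncard ≤ 3 * N := by exact_mod_cast h6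
          calc ((range n ∩ Iio N).ncard : ℝ≥0∞) = 4⁻¹ * (4 * (range n ∩ Iio N).ncard) := by
                rw [← mul_assoc, ENNReal.inv_mul_cancel (by norm_num) (by norm_num), one_mul]
            _ ≤ 4⁻¹ * (3 * N) := by gcongr
            _ = 3 / 4 * N := by rw [div_eq_mul_inv]; ring
        rw [hd] at h2
        have : (3 / 4 : ℝ≥0∞) < 1 := by
          rw [ENNReal.div_lt_iff] <;> norm_num
        exact absurd h2 (not_le.2 this)
    · -- different base points
      obtain ⟨i, hi⟩ : ∃ i, y.1.1 i ≠ y'.1.1 i := by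
        by_contra h; push Not at h; exact hz (funext h)
      obtain ⟨i₁, hi₁⟩ := (ht (i + 1)).exists
      have h1 := ((PY_iff (hit _)).1 hi₁).2.1
      have h2 := val_congr h1
      rw [R_iter_base, R_iter_base, val_iter, val_iter] at h2
      have h3 : val (i + 1) y.1.1 ≡ val (i + 1) y'.1.1 [MOD 2 ^ (i + 1)] :=
        Nat.ModEq.add_right_cancel' _ h2
      rw [Nat.ModEq, Nat.mod_eq_of_lt (val_lt _ _), Nat.mod_eq_of_lt (val_lt _ _)] at h3
      exact hi (val_inj h3 i (Nat.lt_succ_self i))
  · have hit : ∀ n, (R^[n] y).1.1 ∉ Z₀ := fun n => by rw [R_iter_base, iter_mem_Z₀]; exact hy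
    obtain ⟨i₀, hi₀⟩ := (ht 0).exists
    have hy' : y'.1.1 ∉ Z₀ := by
      have := ((PY_iff' (hit _)).1 hi₀)
      rwa [R_iter_base, iter_mem_Z₀] at this
    refine hm' 0 ((PY_iff' (hit _)).2 ?_)
    rw [R_iter_base, iter_mem_Z₀]; exact hy'

end Pool.Agent.H24.Chaos
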