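import Mathlib
import Pool.Agent.H24.Chaos.NoScr

/-! Approximation of finite partitions. -/

namespace Pool.Agent.H24.Chaos

open MeasureTheory Set Filter
open scoped ENNReal

theorem saturated_mono {Y : Type} {P : ℕ → Y → ℕ}
    (hP : ∀ k x y, P (k + 1) x = P (k + 1) y → P k x = P k y) {k l : ℕ} (hkl : k ≤ l) :
    ∀ x y, P l x = P l y → P k x = P k y := by
  induction l, hkl using Nat.le_induction with
  | base => exact fun _ _ h => h
  | succ l _ ih => exact fun x y h => ih x y (hP l x y h)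

theorem approx_set {Y : Type} [MeasurableSpace Y] (μ : Measure Y) [IsFiniteMeasure μ]
    {P : ℕ → Y → ℕ} (hP : ∀ k x y, P (k + 1) x = P (k + 1) y → P k x = P k y)
    (hm : ∀ k j, NullMeasurableSet {x | P k x = j} μ) (B : Set Y)
    (hB : MeasurableSet[MeasurableSpace.generateFrom {C | ∃ k j, C = {x | P k x = j}}] B) :
    NullMeasurableSet B μ ∧ ∀ ε > 0, ∃ k, ∃ C : Set Y,
      (∀ x y, P k x = P k y → (x ∈ C ↔ y ∈ C)) ∧ μ (symmDiff B C) ≤ ε := by
  refine MeasurableSpace.generateFrom_induction {C | ∃ k j, C = {x | P k x = j}}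
    (p := fun B _ => NullMeasurableSet B μ ∧ ∀ ε > 0, ∃ k, ∃ C : Set Y,
      (∀ x y, P k x = P k y → (x ∈ C ↔ y ∈ C)) ∧ μ (symmDiff B C) ≤ ε) ?_ ?_ ?_ ?_ B hB
  · rintro _ ⟨k, j, rfl⟩ -
    refine ⟨hm k j, fun ε _ => ⟨k, {x | P k x = j}, fun x y h => ?_, ?_⟩⟩
    · simp [h]
    · simp
  · exact ⟨nullMeasurableSet_empty, fun ε _ => ⟨0, ∅, fun _ _ _ => by simp, by simp⟩⟩
  · rintro B - ⟨h1, h2⟩
    refine ⟨h1.compl, fun ε hε => ?_⟩
    obtain ⟨k, C, hC, hC'⟩ := h2 ε hε
    refine ⟨k, Cᶜ, fun x y h => ?_, ?_⟩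
    · simp [hC x y h]
    · rwa [show symmDiff Bᶜ Cᶜ = symmDiff B C from compl_symmDiff_compl _ _]
  · rintro s - h
    have hs : ∀ n, NullMeasurableSet (s n) μ := fun n => (h n).1
    refine ⟨NullMeasurableSet.iUnion hs, fun ε hε => ?_⟩
    obtain ⟨N, hN⟩ : ∃ N, μ ((⋃ n, s n) \ ⋃ n ∈ Finset.range N, s n) ≤ ε / 2 := by
      have h1 : Tendsto (fun N => μ ((⋃ n, s n) \ ⋃ n ∈ Finset.range N, s n)) atTop (nhds 0) := by
        have h2 : ⋂ N, ((⋃ n, s n) \ ⋃ n ∈ Finset.range N, s n) = ∅ := by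
          ext x
          simp only [mem_iInter, Set.mem_sdiff, mem_iUnion, Finset.mem_range, mem_empty_iff_false,
            iff_false]
          intro hx
          obtain ⟨n, hn⟩ := (hx 0).1
          exact (hx (n + 1)).2 ⟨n, Nat.lt_succ_self n, hn⟩
        have h3 := tendsto_measure_iInter_atTop (μ := μ)
          (s := fun N => (⋃ n, s n) \ ⋃ n ∈ Finset.range N, s n)
          (fun N => (NullMeasurableSet.iUnion hs).diff
            (NullMeasurableSet.biUnion (to_countable _) fun n _ => hs n))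
          (fun N M hNM => sdiff_subset_sdiff_right (biUnion_subset_biUnion_left
            (by simpa using hNM))) ⟨0, measure_ne_top _ _⟩
        rwa [h2, measure_empty] at h3
      exact ((h1.eventually (ge_mem_nhds (ENNReal.half_pos hε.ne'))).exists)
    have h4 : ∀ n, ∃ k, ∃ C : Set Y, (∀ x y, P k x = P k y → (x ∈ C ↔ y ∈ C)) ∧
        μ (symmDiff (s n) C) ≤ ε / 2 * 2⁻¹ ^ (n + 1) := fun n =>
      (h n).2 _ (ENNReal.mul_pos (ENNReal.half_pos hε.ne').ne' (by simp))
    choose k C hC hC' using h4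
    refine ⟨(Finset.range N).sup k, ⋃ n ∈ Finset.range N, C n, fun x y hxy => ?_, ?_⟩
    · simp only [mem_iUnion, exists_prop]
      refine exists_congr fun n => and_congr_right fun hn => hC n x y ?_
      exact saturated_mono hP (Finset.le_sup (f := k) hn) x y hxy
    · have h5 : symmDiff (⋃ n, s n) (⋃ n ∈ Finset.range N, C n) ⊆
          ((⋃ n, s n) \ ⋃ n ∈ Finset.range N, s n) ∪ ⋃ n, symmDiff (s n) (C n) := by
        intro x hx
        rw [mem_symmDiff] at hx
        simp only [mem_union, Set.mem_sdiff, mem_iUnion, Finset.mem_range, exists_prop, not_exists,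
          not_and, mem_symmDiff] at hx ⊢
        rcases hx with ⟨h6, h7⟩ | ⟨⟨n, h6, h7⟩, h8⟩
        · by_cases h8 : ∀ n < N, x ∉ s n
          · exact Or.inl ⟨h6, h8⟩
          · push Not at h8
            obtain ⟨n, h8, h9⟩ := h8
            exact Or.inr ⟨n, Or.inl ⟨h9, h7 n h8⟩⟩
        · exact Or.inr ⟨n, Or.inr ⟨h7, h8 n⟩⟩
      refine (measure_mono h5).trans ((measure_union_le _ _).trans ?_)
      calc _ ≤ ε / 2 + ∑' n, ε / 2 * 2⁻¹ ^ (n + 1) :=
            add_le_add hN ((measure_iUnion_le _).trans (ENNReal.tsum_le_tsum hC'))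
        _ = ε / 2 + ε / 2 := by
            rw [ENNReal.tsum_mul_left, ENNReal.tsum_geometric_add_one]
            simp [ENNReal.inv_mul_cancel]
        _ = ε := ENNReal.add_halves ε

/-- Approximation of a finite partition by a refining sequence. -/
theorem approx {M : MPSystem} {P : ℕ → M.X → ℕ} (hP : IsRefining M P) {f : M.X → ℕ}
    (hf : (range f).Finite) (hf' : ∀ j, NullMeasurableSet {x | f x = j} M.μ) {ε : ℝ≥0∞}
    (hε : 0 < ε) : ∃ k, ∃ E : Set M.X, MeasurableSet E ∧ M.μ E ≤ ε ∧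
      ∀ x ∉ E, ∀ y ∉ E, P k x = P k y → f x = f y := by
  classical
  set n := hf.toFinset.card with hn
  have h1 : ∀ j, ∃ k, ∃ C : Set M.X, (∀ x y, P k x = P k y → (x ∈ C ↔ y ∈ C)) ∧
      M.μ (symmDiff {x | f x = j} C) ≤ ε / n := fun j => by
    obtain ⟨B, hB, hB'⟩ := hf' j
    obtain ⟨B', h2, h3⟩ := hP.generates B hB
    have hpos : 0 < ε / n := ENNReal.div_pos hε.ne' (ENNReal.natCast_ne_top n)
    obtain ⟨k, C, hC, hC'⟩ := (approx_set M.μ hP.refines hP.measurable B' h2).2 _ hpos
    refine ⟨k, C, hC, ?_⟩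
    refine le_trans (measure_mono_ae ?_) hC'
    have h4 := hB'.trans h3
    filter_upwards [h4] with x hx
    have hx' : (x ∈ {x | f x = j}) = (x ∈ B') := hx
    intro h5
    have h6 : x ∈ symmDiff {x | f x = j} C := h5
    rw [mem_symmDiff, hx'] at h6
    exact (mem_symmDiff (s := B') (t := C)).2 h6
  choose k C hC hC' using h1
  refine ⟨hf.toFinset.sup k, toMeasurable M.μ (⋃ j ∈ hf.toFinset, symmDiff {x | f x = j} (C j)),
    measurableSet_toMeasurable _ _, ?_, ?_⟩
  · rw [measure_toMeasurable]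
    refine (measure_biUnion_finset_le _ _).trans ?_
    calc ∑ j ∈ hf.toFinset, M.μ (symmDiff {x | f x = j} (C j)) ≤ ∑ j ∈ hf.toFinset, ε / n :=
          Finset.sum_le_sum fun j _ => hC' j
      _ = n * (ε / n) := by rw [Finset.sum_const, nsmul_eq_mul, ← hn]
      _ ≤ ε := ENNReal.mul_div_le
  · intro x hx y hy hxy
    have hx' : x ∉ ⋃ j ∈ hf.toFinset, symmDiff {x | f x = j} (C j) := fun h =>
      hx (subset_toMeasurable _ _ h)
    have hy' : y ∉ ⋃ j ∈ hf.toFinset, symmDiff {x | f x = j} (C j) := fun h =>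
      hy (subset_toMeasurable _ _ h)
    simp only [mem_iUnion, exists_prop, not_exists, not_and, mem_symmDiff, mem_ofPred_eq,
      Finite.mem_toFinset, mem_range, not_or, not_not] at hx' hy'
    have hjx : f x ∈ hf.toFinset := by simp
    have h1 := (hx' (f x) ⟨x, rfl⟩).1 rfl
    have h2 : y ∈ C (f x) := (hC (f x) x y
      (saturated_mono hP.refines (Finset.le_sup (f := k) hjx) x y hxy)).1 h1
    exact ((hy' (f x) ⟨x, rfl⟩).2 h2).symm

/-! The cylinder partitions. -/

noncomputable def QX (k : ℕ) (x : X) : ℕ :=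
  (Fintype.equivFin ((Fin k → Bool) × ((Finset.range k).powerset → Bool))
    (fun i => x.1 i, fun A => x.2 A)).val

theorem QX_iff {k : ℕ} {x y : X} : QX k x = QX k y ↔
    (∀ i < k, x.1 i = y.1 i) ∧ ∀ A ⊆ Finset.range k, x.2 A = y.2 A := by
  rw [QX, QX, Fin.val_inj, EmbeddingLike.apply_eq_iff_eq]
  simp only [Prod.mk.injEq, funext_iff]
  constructor
  · rintro ⟨h1, h2⟩
    exact ⟨fun i hi => h1 ⟨i, hi⟩, fun A hA => h2 ⟨A, Finset.mem_powerset.2 hA⟩⟩
  · rintro ⟨h1, h2⟩
    exact ⟨fun i => h1 i i.2, fun A => h2 A (Finset.mem_powerset.1 A.2)⟩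

theorem measurableSet_QX (k j : ℕ) : MeasurableSet {y | QX k y = j} := by
  by_cases hne : ∃ y₀, QX k y₀ = j
  · obtain ⟨y₀, rfl⟩ := hne
    have : {y | QX k y = QX k y₀} = (⋂ i ∈ {i | i < k}, {y : X | y.1 i = y₀.1 i}) ∩
        ((⋂ A ∈ {A | A ⊆ Finset.range k}, {y : X | y.2 A = y₀.2 A})) := by
      ext y
      simp only [mem_ofPred_eq, mem_inter_iff, mem_iInter, QX_iff]
    rw [this]
    refine MeasurableSet.inter ?_ ?_
    · exact MeasurableSet.biInter (to_countable _) fun i _ =>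
        (measurableSet_coord i _).preimage measurable_fst
    · exact MeasurableSet.biInter (to_countable _) fun i _ =>
        (measurableSet_coord i _).preimage measurable_snd
  · have : {y | QX k y = j} = ∅ := by
      ext y; simp only [mem_ofPred_eq, mem_empty_iff_false, iff_false]
      exact fun h => hne ⟨y, h⟩
    rw [this]; exact MeasurableSet.empty

theorem finite_QX (k : ℕ) : (range (QX k)).Finite := by
  refine (Set.finite_range fun i : Fin (Fintype.card ((Fin k → Bool) ×
    ((Finset.range k).powerset → Bool))) => i.val).subset ?_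
  rintro _ ⟨y, rfl⟩
  exact ⟨_, rfl⟩

theorem refining_X : IsRefining sysX QX where
  finite := finite_QX
  measurable k j := (measurableSet_QX k j).nullMeasurableSet
  refines k y y' h := by
    rw [QX_iff] at h ⊢
    exact ⟨fun i hi => h.1 i (by omega), fun A hA => h.2 A
      (hA.trans (Finset.range_mono (Nat.le_succ k)))⟩
  generates B hB := by
    have h1 : ∀ i, @Measurable _ _
        (MeasurableSpace.generateFrom {C | ∃ k j, C = {x | QX k x = j}}) _
        fun y : X => y.1 i := fun i =>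
      meas_of_factor QX (k := i + 1) fun y y' h => (QX_iff.1 h).1 i (Nat.lt_succ_self i)
    have h2 : ∀ A, @Measurable _ _
        (MeasurableSpace.generateFrom {C | ∃ k j, C = {x | QX k x = j}}) _
        fun y : X => y.2 A := fun A => by
      obtain ⟨a, ha⟩ : ∃ a, A ⊆ Finset.range a := A.exists_nat_subset_range
      exact meas_of_factor QX (k := a) fun y y' h => (QX_iff.1 h).2 A ha
    have h3 : @Measurable _ _ (MeasurableSpace.generateFrom {C | ∃ k j, C = {x | QX k x = j}})
        _ (fun y : X => y) := by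
      let _ : MeasurableSpace X :=
        MeasurableSpace.generateFrom {C | ∃ k j, C = {x | QX k x = j}}
      exact @Measurable.prodMk _ _ _ _ _ _ _ _ (measurable_pi_iff.2 h1) (measurable_pi_iff.2 h2)
    exact ⟨B, h3 hB, Filter.EventuallyEq.rfl⟩

end Pool.Agent.H24.Chaos
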