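import Mathlib
import Pool.Agent.H24.Chaos.Approx

/-! Ergodicity and invertibility. -/

namespace Pool.Agent.H24.Chaos

open MeasureTheory Set Filter
open scoped ENNReal

/-! ### Invertibility -/

theorem S_injective : Function.Injective S := fun z z' h => by
  funext i
  have h1 := congrArg (val (i + 1)) h
  rw [val_S, val_S] at h1
  have h2 : val (i + 1) z ≡ val (i + 1) z' [MOD 2 ^ (i + 1)] := Nat.ModEq.add_right_cancel' 1 h1
  rw [Nat.ModEq, Nat.mod_eq_of_lt (val_lt _ _), Nat.mod_eq_of_lt (val_lt _ _)] at h2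
  exact val_inj h2 i (Nat.lt_succ_self i)

theorem S_surjective : Function.Surjective S := fun z' => by
  refine ⟨fun n => xor (z' n) (decide (∀ i < n, z' i = false)), ?_⟩
  have key : ∀ n, (∀ i < n, xor (z' i) (decide (∀ j < i, z' j = false)) = true) ↔
      ∀ i < n, z' i = false := by
    intro n
    constructor
    · intro h i
      induction i using Nat.strong_induction_on with
      | _ i ih =>
        intro hi
        have h1 : ∀ j < i, z' j = false := fun j hj => ih j hj (hj.trans hi)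
        have h2 := h i hi
        rw [decide_eq_true h1] at h2
        simpa using h2
    · intro h i hi
      rw [h i hi, decide_eq_true fun j hj => h j (hj.trans hi)]
      rfl
  funext n
  simp only [S, key]
  cases z' n <;> simp

theorem T_bijective (p : ℕ → ℕ) : Function.Bijective (T p) := by
  constructor
  · rintro ⟨z, ω⟩ ⟨z', ω'⟩ h
    have h1 : z = z' := S_injective (congrArg Prod.fst h)
    subst h1
    refine Prod.ext rfl ?_
    funext A
    have h2 := congrFun (congrArg Prod.snd h) (symmDiff A (dif p z (S z)))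
    simpa [T] using h2
  · rintro ⟨z', ω'⟩
    obtain ⟨z, rfl⟩ := S_surjective z'
    refine ⟨(z, fun A => ω' (symmDiff A (dif p z (S z)))), Prod.ext rfl ?_⟩
    funext A
    simp [T]

theorem R_bijective : Function.Bijective R := by
  constructor
  · rintro ⟨x, j⟩ ⟨x', j'⟩ h
    have h1 : x = x' := (T_bijective pp).1 (congrArg Prod.fst h)
    subst h1
    refine Prod.ext rfl ?_
    have h2 := congrArg Prod.snd h
    simpa [R] using h2
  · rintro ⟨x', j'⟩
    obtain ⟨x, rfl⟩ := (T_bijective pp).2 x'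
    refine ⟨(x, xor j' (φ x)), Prod.ext rfl ?_⟩
    simp [R]

/-! ### The orbits contain the flips -/

/-- flipping the bits in a finite set -/
def flipz (D : Finset ℕ) (z : ℕ → Bool) : ℕ → Bool := fun i => xor (z i) (decide (i ∈ D))

theorem mp_flipz (D : Finset ℕ) : MeasurePreserving (flipz D) (fair ℕ) (fair ℕ) :=
  mp_xor fun i => decide (i ∈ D)

/-- the special places in `D` -/
noncomputable def sp (D : Finset ℕ) : Finset ℕ := D.preimage pp pp_strictMono.injective.injOn

theorem mem_sp {D : Finset ℕ} {j : ℕ} : j ∈ sp D ↔ pp j ∈ D := Finset.mem_preimage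

noncomputable def V (D : Finset ℕ) (x : X) : X :=
  (flipz D x.1, fun A => x.2 (symmDiff A (sp D)))

theorem mp_symmDiff (g : Finset ℕ) :
    MeasurePreserving (fun (ω : Finset ℕ → Bool) A => ω (symmDiff A g))
      (fair (Finset ℕ)) (fair (Finset ℕ)) := by
  have hinv : Function.Involutive fun A : Finset ℕ => symmDiff A g := fun A => by simp
  exact mp_perm hinv.toPerm

theorem mp_V (D : Finset ℕ) : MeasurePreserving (V D) μX μX := (mp_flipz D).prod (mp_symmDiff _)

theorem sync {z z' : ℕ → Bool} {K : ℕ} (h : ∀ i, K ≤ i → z i = z' i) :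
    S^[2 ^ K - 1 - val K z] z = S^[2 ^ K - 1 - val K z'] z' := by
  have key : ∀ z, (∀ i < K, (S^[2 ^ K - 1 - val K z] z) i = true) ∧
      ∀ i, K ≤ i → (S^[2 ^ K - 1 - val K z] z) i = z i := fun z => by
    have h1 := val_lt K z
    refine ⟨val_ones.2 ?_, fun i hi => iter_high (K := K) (by omega) hi⟩
    rw [val_iter, Nat.mod_eq_of_lt (by omega)]; omega
  funext i
  rcases Nat.lt_or_ge i K with hi | hi
  · rw [(key z).1 i hi, (key z').1 i hi]
  · rw [(key z).2 i hi, (key z').2 i hi, h i hi]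

theorem flipz_high {D : Finset ℕ} {K : ℕ} (hD : ∀ i ∈ D, i < K) (z : ℕ → Bool) {i : ℕ}
    (hi : K ≤ i) : z i = flipz D z i := by
  have : i ∉ D := fun h => by have := hD i h; omega
  simp [flipz, this]

theorem Zinf_flipz {z : ℕ → Bool} (h : Zinf z) (D : Finset ℕ) : Zinf (flipz D z) := fun K => by
  obtain ⟨a, ha⟩ := D.exists_nat_subset_range
  obtain ⟨i, hi, hz⟩ := h (max K a)
  refine ⟨i, (le_max_left _ _).trans hi, ?_⟩
  rw [← flipz_high (D := D) (K := a) (fun j hj => Finset.mem_range.1 (ha hj)) z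
    ((le_max_right _ _).trans hi), hz]

theorem T_sync {z : ℕ → Bool} (hz : Zinf z) (ω : Finset ℕ → Bool) {D : Finset ℕ} {K : ℕ}
    (hD : ∀ i ∈ D, i < K) :
    (T pp)^[2 ^ K - 1 - val K z] (z, ω) =
      (T pp)^[2 ^ K - 1 - val K (flipz D z)] (V D (z, ω)) := by
  rw [T_iter pp_strictMono hz, V, T_iter pp_strictMono (Zinf_flipz hz D)]
  have h1 := sync (z := z) (z' := flipz D z) (K := K) fun i hi => flipz_high hD z hi
  refine Prod.ext h1 ?_
  funext A
  simp only
  congr 1
  ext j
  have h2 := (Zinf_flipz hz D).mem_dif pp_strictMono (2 ^ K - 1 - val K (flipz D z)) (j := j)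
  rw [← h1] at h2
  simp only [Finset.mem_symmDiff, hz.mem_dif pp_strictMono, mem_sp, ← h1, h2]
  generalize (S^[2 ^ K - 1 - val K z] z) (pp j) = b
  simp only [flipz]
  by_cases hj : pp j ∈ D <;> by_cases hA : j ∈ A <;> cases z (pp j) <;> cases b <;> simp [hj, hA]

theorem invariant_iter {α : Type} {f : α → α} {B : Set α} (h : f ⁻¹' B = B) (n : ℕ) (x : α) :
    f^[n] x ∈ B ↔ x ∈ B := by
  induction n with
  | zero => rfl
  | succ n ih =>
    rw [Function.iterate_succ_apply', ← ih]
    exact iff_of_eq (congrArg (f^[n] x ∈ ·) h)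

theorem invariant_V {B : Set X} (h : T pp ⁻¹' B = B) {x : X} (hz : Zinf x.1) (D : Finset ℕ) :
    V D x ∈ B ↔ x ∈ B := by
  obtain ⟨a, ha⟩ := D.exists_nat_subset_range
  have hD : ∀ i ∈ D, i < a := fun i hi => Finset.mem_range.1 (ha hi)
  rw [← invariant_iter h (2 ^ a - 1 - val a x.1) x,
    ← invariant_iter h (2 ^ a - 1 - val a (flipz D x.1)) (V D x)]
  rw [show x = (x.1, x.2) from rfl, T_sync hz x.2 hD]

/-! ### The walk is ergodic -/

theorem indep {ι : Type} {s t : Finset ι} (hst : Disjoint s t) {P Q : Set (ι → Bool)}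
    (hP : ∀ ω ω' : ι → Bool, (∀ i ∈ s, ω i = ω' i) → (ω ∈ P ↔ ω' ∈ P))
    (hQ : ∀ ω ω' : ι → Bool, (∀ i ∈ t, ω i = ω' i) → (ω ∈ Q ↔ ω' ∈ Q)) :
    fair ι (P ∩ Q) = fair ι P * fair ι Q := by
  have h1 : ProbabilityTheory.iIndepFun (fun (i : ι) (ω : ι → Bool) => ω i) (fair ι) :=
    ProbabilityTheory.iIndepFun_infinitePi (X := fun _ b => b) fun _ => measurable_id
  have h2 := (h1.indepFun_finset s t hst fun i => measurable_pi_apply i).measure_inter_preimage_eq_mul
    ((fun (ω : ι → Bool) (i : s) => ω i) '' P) ((fun (ω : ι → Bool) (i : t) => ω i) '' Q)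
    (Set.toFinite _).measurableSet (Set.toFinite _).measurableSet
  have e1 : (fun (ω : ι → Bool) (i : s) => ω i) ⁻¹' ((fun (ω : ι → Bool) (i : s) => ω i) '' P) = P := by
    ext ω
    constructor
    · rintro ⟨ω', h, h'⟩
      exact (hP ω' ω fun i hi => congrFun h' ⟨i, hi⟩).1 h
    · exact fun h => ⟨ω, h, rfl⟩
  have e2 : (fun (ω : ι → Bool) (i : t) => ω i) ⁻¹' ((fun (ω : ι → Bool) (i : t) => ω i) '' Q) = Q := by
    ext ω
    constructor
    · rintro ⟨ω', h, h'⟩
      exact (hQ ω' ω fun i hi => congrFun h' ⟨i, hi⟩).1 h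
    · exact fun h => ⟨ω, h, rfl⟩
  rwa [e1, e2] at h2

/-- the measure of the fibres -/
noncomputable def fib (C : Set X) (z : ℕ → Bool) : ℝ≥0∞ := fair (Finset ℕ) (Prod.mk z ⁻¹' C)

theorem measurable_fib {C : Set X} (hC : MeasurableSet C) : Measurable (fib C) :=
  measurable_measure_prodMk_left hC

theorem lintegral_fib {C : Set X} (hC : MeasurableSet C) : ∫⁻ z, fib C z ∂fair ℕ = μX C :=
  (Measure.prod_apply hC).symm

/-- a cylinder set -/
def IsCyl (M : ℕ) (C : Set X) : Prop := ∀ x y, QX M x = QX M y → (x ∈ C ↔ y ∈ C)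

theorem IsCyl.measurable {M : ℕ} {C : Set X} (h : IsCyl M C) : MeasurableSet C := by
  have : C = ⋃ j ∈ QX M '' C, {x | QX M x = j} := by
    ext x
    simp only [mem_iUnion, mem_image, mem_ofPred_eq, exists_prop]
    constructor
    · exact fun hx => ⟨_, ⟨x, hx, rfl⟩, rfl⟩
    · rintro ⟨_, ⟨y, hy, rfl⟩, h'⟩
      exact (h x y h').2 hy
  rw [this]
  exact MeasurableSet.biUnion (to_countable _) fun j _ => measurableSet_QX M j

theorem IsCyl.compl {M : ℕ} {C : Set X} (h : IsCyl M C) : IsCyl M Cᶜ := fun x y hxy => by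
  simp [h x y hxy]

theorem IsCyl.fib_congr {M : ℕ} {C : Set X} (h : IsCyl M C) {z z' : ℕ → Bool}
    (hz : ∀ i < M, z i = z' i) : Prod.mk z ⁻¹' C = Prod.mk z' ⁻¹' C := by
  ext ω
  exact h _ _ (QX_iff.2 ⟨hz, fun _ _ => rfl⟩)

theorem IsCyl.sum_fib {M : ℕ} {C : Set X} (h : IsCyl M C) (z : ℕ → Bool) :
    ∑ D ∈ (Finset.range M).powerset, fib C (flipz D z) = 2 ^ M * μX C := by
  have key : ∀ z : ℕ → Bool, ∑ D ∈ (Finset.range M).powerset, fib C (flipz D z) =
      ∑ D ∈ (Finset.range M).powerset, fib C (flipz D fun _ => false) := by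
    intro z
    set Dz : Finset ℕ := {i ∈ Finset.range M | z i = true} with hDz
    have hDz' : Dz ⊆ Finset.range M := Finset.filter_subset _ _
    have hmem : ∀ D ∈ (Finset.range M).powerset, symmDiff D Dz ∈ (Finset.range M).powerset := by
      intro D hD
      rw [Finset.mem_powerset] at hD ⊢
      intro i hi
      rw [Finset.mem_symmDiff] at hi
      rcases hi with ⟨hi, -⟩ | ⟨hi, -⟩
      · exact hD hi
      · exact hDz' hi
    refine Finset.sum_bij' (fun D _ => symmDiff D Dz) (fun D _ => symmDiff D Dz) hmem hmem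
      (fun D _ => by simp) (fun D _ => by simp) fun D hD => ?_
    simp only [fib]
    rw [h.fib_congr fun i hi => ?_]
    simp only [flipz, Finset.mem_symmDiff, hDz, Finset.mem_filter, Finset.mem_range, hi, true_and]
    by_cases h1 : i ∈ D <;> cases z i <;> simp [h1]
  have h1 : ∫⁻ z, ∑ D ∈ (Finset.range M).powerset, fib C (flipz D z) ∂fair ℕ = 2 ^ M * μX C := by
    rw [lintegral_finsetSum (f := fun D z => fib C (flipz D z)) _
      fun D _ => (measurable_fib h.measurable).comp (mp_flipz D).measurable]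
    have h2 : ∀ D ∈ (Finset.range M).powerset, ∫⁻ z, fib C (flipz D z) ∂fair ℕ = μX C :=
      fun D _ => by
        rw [(mp_flipz D).lintegral_comp (measurable_fib h.measurable), lintegral_fib h.measurable]
    rw [Finset.sum_congr rfl h2, Finset.sum_const, Finset.card_powerset, Finset.card_range,
      nsmul_eq_mul]
    push_cast; rfl
  rw [← h1, key]
  simp only [key]
  rw [lintegral_const, measure_univ, mul_one]

theorem IsCyl.inter_V {M : ℕ} {C C' : Set X} (h : IsCyl M C) (h' : IsCyl M C') {D : Finset ℕ}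
    (hD : D ⊆ Finset.range M) :
    μX (C ∩ V (insert (pp M) D) ⁻¹' C') = ∫⁻ z, fib C z * fib C' (flipz D z) ∂fair ℕ := by
  have hm : MeasurableSet (C ∩ V (insert (pp M) D) ⁻¹' C') :=
    h.measurable.inter ((mp_V _).measurable h'.measurable)
  rw [← lintegral_fib hm]
  refine lintegral_congr fun z => ?_
  have hpM : M ≤ pp M := pp_strictMono.le_apply
  set g := sp (insert (pp M) D) with hg
  have hgM : M ∈ g := mem_sp.2 (Finset.mem_insert_self _ _)
  set Q' : Set (Finset ℕ → Bool) := Prod.mk (flipz D z) ⁻¹' C' with hQ'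
  have e1 : Prod.mk z ⁻¹' (C ∩ V (insert (pp M) D) ⁻¹' C') = (Prod.mk z ⁻¹' C) ∩
      ((fun (ω : Finset ℕ → Bool) A => ω (symmDiff A g)) ⁻¹' Q') := by
    ext ω
    simp only [mem_preimage, mem_inter_iff, V, hQ']
    refine and_congr_right fun _ => h' _ _ (QX_iff.2 ⟨fun i hi => ?_, fun _ _ => rfl⟩)
    have : i ≠ pp M := by omega
    simp [flipz, this]
  have hQ'dep : ∀ ω ω' : Finset ℕ → Bool, (∀ A ∈ (Finset.range M).powerset, ω A = ω' A) →
      (ω ∈ Q' ↔ ω' ∈ Q') := fun ω ω' hω =>
    h' _ _ (QX_iff.2 ⟨fun _ _ => rfl, fun A hA => hω A (Finset.mem_powerset.2 hA)⟩)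
  rw [fib, e1, indep (s := (Finset.range M).powerset)
    (t := (Finset.range M).powerset.image fun A => symmDiff A g) ?_ ?_ ?_]
  · rw [(mp_symmDiff g).measure_preimage]
    · rfl
    · exact (measurable_prodMk_left h'.measurable).nullMeasurableSet
  · rw [Finset.disjoint_left]
    intro A hA hA'
    obtain ⟨A', hA'1, hA'2⟩ := Finset.mem_image.1 hA'
    have h1 : M ∉ A' := fun h => by
      simpa using Finset.mem_range.1 (Finset.mem_powerset.1 hA'1 h)
    have h2 : M ∈ symmDiff A' g := Finset.mem_symmDiff.2 (Or.inr ⟨hgM, h1⟩)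
    rw [hA'2] at h2
    simpa using Finset.mem_range.1 (Finset.mem_powerset.1 hA h2)
  · exact fun ω ω' hω => h _ _ (QX_iff.2 ⟨fun _ _ => rfl, fun A hA =>
      hω A (Finset.mem_powerset.2 hA)⟩)
  · intro ω ω' hω
    exact hQ'dep _ _ fun A hA => hω _ (Finset.mem_image_of_mem _ hA)

theorem IsCyl.sum_inter {M : ℕ} {C C' : Set X} (h : IsCyl M C) (h' : IsCyl M C') :
    ∑ D ∈ (Finset.range M).powerset, μX (C ∩ V (insert (pp M) D) ⁻¹' C') =
      2 ^ M * (μX C * μX C') := by
  rw [Finset.sum_congr rfl fun D hD => h.inter_V h' (Finset.mem_powerset.1 hD),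
    ← lintegral_finsetSum]
  · simp only [← Finset.mul_sum, h'.sum_fib]
    rw [lintegral_mul_const _ (measurable_fib h.measurable), lintegral_fib h.measurable]
    ring
  · exact fun D _ => (measurable_fib h.measurable).mul
      ((measurable_fib h'.measurable).comp (mp_flipz D).measurable)

theorem ae_Zinf : ∀ᵐ x ∂μX, Zinf x.1 := by
  have h1 : ∀ᵐ z ∂fair ℕ, Zinf z := ae_Z₀.mono fun z hz => Zinf_of_Z₀ hz
  exact (measurePreserving_fst (μ := fair ℕ) (ν := fair (Finset ℕ))).quasiMeasurePreserving.ae h1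

theorem approx_cyl {B : Set X} (hB : MeasurableSet B) {ε : ℝ≥0∞} (hε : 0 < ε) :
    ∃ M C, IsCyl M C ∧ μX (symmDiff B C) ≤ ε := by
  obtain ⟨B', hB', hBB'⟩ := refining_X.generates B hB
  obtain ⟨M, C, hC, hC'⟩ := (approx_set μX refining_X.refines refining_X.measurable B' hB').2 ε hε
  refine ⟨M, C, hC, le_trans (measure_mono_ae ?_) hC'⟩
  filter_upwards [hBB'] with x hx
  have hx' : (x ∈ B) = (x ∈ B') := hx
  intro h5
  have h6 : x ∈ symmDiff B C := h5
  rw [mem_symmDiff, hx'] at h6
  exact (mem_symmDiff (s := B') (t := C)).2 h6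

theorem zero_one {B : Set X} (hB : MeasurableSet B) (h : T pp ⁻¹' B = B) : μX B * μX Bᶜ = 0 := by
  have key : ∀ ε : ℝ≥0∞, 0 < ε → ε ≤ 1 → μX B * μX Bᶜ ≤ 5 * ε := by
    intro ε hε hε1
    obtain ⟨M, C, hC, hBC⟩ := approx_cyl hB hε
    have h1 : ∀ D ∈ (Finset.range M).powerset, μX (C ∩ V (insert (pp M) D) ⁻¹' Cᶜ) ≤ 2 * ε := by
      intro D _
      have h2 : μX (C ∩ V (insert (pp M) D) ⁻¹' Cᶜ) ≤
          μX (symmDiff B C ∪ V (insert (pp M) D) ⁻¹' (symmDiff B C)) := by
        refine measure_mono_ae ?_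
        filter_upwards [ae_Zinf] with x hx
        intro h3
        have h4 : x ∈ C := h3.1
        have h5 : V (insert (pp M) D) x ∉ C := h3.2
        have h6 := invariant_V h hx (insert (pp M) D)
        by_cases h7 : x ∈ B
        · exact Or.inr ((mem_symmDiff (s := B) (t := C)).2 (Or.inl ⟨h6.2 h7, h5⟩))
        · exact Or.inl ((mem_symmDiff (s := B) (t := C)).2 (Or.inr ⟨h4, h7⟩))
      refine h2.trans ((measure_union_le _ _).trans ?_)
      rw [(mp_V _).measure_preimage (hB.symmDiff hC.measurable).nullMeasurableSet, two_mul]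
      exact add_le_add hBC hBC
    have h2 := hC.sum_inter hC.compl
    have h3 : 2 ^ M * (μX C * μX Cᶜ) ≤ 2 ^ M * (2 * ε) := by
      rw [← h2]
      refine (Finset.sum_le_sum h1).trans ?_
      rw [Finset.sum_const, Finset.card_powerset, Finset.card_range, nsmul_eq_mul]
      push_cast; rfl
    have h4 : μX C * μX Cᶜ ≤ 2 * ε :=
      (ENNReal.mul_le_mul_iff_right (by positivity) (by finiteness)).1 h3
    have h5 : μX B ≤ μX C + ε := by
      refine (measure_mono (t := C ∪ symmDiff B C) fun x hx => ?_).trans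
        ((measure_union_le _ _).trans (add_le_add le_rfl hBC))
      by_cases hC : x ∈ C
      · exact Or.inl hC
      · exact Or.inr ((mem_symmDiff (s := B) (t := C)).2 (Or.inl ⟨hx, hC⟩))
    have h6 : μX Bᶜ ≤ μX Cᶜ + ε := by
      refine (measure_mono (t := Cᶜ ∪ symmDiff B C) fun x hx => ?_).trans
        ((measure_union_le _ _).trans (add_le_add le_rfl hBC))
      by_cases hC : x ∈ C
      · exact Or.inr ((mem_symmDiff (s := B) (t := C)).2 (Or.inr ⟨hC, hx⟩))
      · exact Or.inl hC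
    have h7 : μX C + μX Cᶜ = 1 := by
      rw [measure_add_measure_compl hC.measurable, measure_univ]
    calc μX B * μX Bᶜ ≤ (μX C + ε) * (μX Cᶜ + ε) := mul_le_mul' h5 h6
      _ = μX C * μX Cᶜ + ε * (μX C + μX Cᶜ) + ε * ε := by ring
      _ ≤ 2 * ε + ε * 1 + ε * 1 := by rw [h7]; gcongr
      _ ≤ 5 * ε := by
        rw [mul_one]
        calc 2 * ε + ε + ε = 4 * ε := by ring
          _ ≤ 5 * ε := by gcongr; norm_num
  by_contra hne
  have h0 : 0 < μX B * μX Bᶜ := pos_iff_ne_zero.2 hne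
  have hlt : μX B * μX Bᶜ ≠ ⊤ := ENNReal.mul_ne_top (measure_ne_top _ _) (measure_ne_top _ _)
  have h1 : 0 < min 1 (μX B * μX Bᶜ / 10) := lt_min one_pos (ENNReal.div_pos hne (by norm_num))
  have h2 := key _ h1 (min_le_left _ _)
  have h3 : μX B * μX Bᶜ ≤ 5 * (μX B * μX Bᶜ / 10) := h2.trans (by gcongr; exact min_le_right _ _)
  have h4 : 5 * (μX B * μX Bᶜ / 10) = μX B * μX Bᶜ / 2 := by
    rw [div_eq_mul_inv, div_eq_mul_inv, show (10 : ℝ≥0∞) = 5 * 2 by norm_num,
      ENNReal.mul_inv (by simp) (by simp)]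
    calc 5 * (μX B * μX Bᶜ * (5⁻¹ * 2⁻¹)) = (5 * 5⁻¹) * (μX B * μX Bᶜ * 2⁻¹) := by ring
      _ = _ := by rw [ENNReal.mul_inv_cancel (by norm_num) (by norm_num), one_mul]
  rw [h4] at h3
  exact absurd h3 (not_le.2 (ENNReal.half_lt_self hne hlt))

theorem ergodic_T : Ergodic (T pp) μX := by
  refine ⟨mp_T pp, ⟨fun B hB h => ?_⟩⟩
  rcases mul_eq_zero.1 (zero_one hB h) with h1 | h1
  · exact (measure_eq_zero_iff_ae_notMem.1 h1).mono (fun x hx => by simpa using hx) |>
      fun h => Filter.eventuallyConst_set'.2 (Or.inl (ae_eq_empty.2 h1))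
  · exact Filter.eventuallyConst_set'.2 (Or.inr (ae_eq_univ.2 h1))

/-! ### The extension is ergodic -/

/-- the bits of a level -/
noncomputable def lev (k : ℕ) : Finset ℕ := Finset.Ico (bb k) (bb k + cnt k)

theorem sp_lev (k : ℕ) : sp (lev k) = ∅ := by
  ext j
  simp only [mem_sp, lev, Finset.mem_Ico, Finset.notMem_empty, iff_false, not_and, not_lt]
  intro h1
  by_contra h2
  exact pp_ne h1 (not_le.1 h2) (j := j) rfl

noncomputable def VY (k : ℕ) (y : X × Bool) : X × Bool := ((flipz (lev k) y.1.1, y.1.2), !y.2)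

theorem V_lev (k : ℕ) (x : X) : V (lev k) x = (flipz (lev k) x.1, x.2) := by
  refine Prod.ext rfl ?_
  funext A
  have : symmDiff A ∅ = A := by ext j; simp [Finset.mem_symmDiff]
  simp only [V, sp_lev, this]

theorem coin_not : coin.map not = coin := by
  have := coin_xor true
  simpa using this

theorem mp_not : MeasurePreserving not coin coin := ⟨measurable_of_finite _, coin_not⟩

theorem mp_VY (k : ℕ) : MeasurePreserving (VY k) μY μY :=
  ((mp_flipz (lev k)).prod (MeasurePreserving.id (fair (Finset ℕ)))).prod mp_not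

theorem PK_lev {K k : ℕ} (hk : k < K) (x : X) :
    PK K (flipz (lev k) x.1, x.2) = PK K x + 1 := by
  have hw : ∀ l, w l (flipz (lev k) x.1, x.2) = w l x := fun l => by
    have hF : F l (flipz (lev k) x.1) = F l x.1 := by
      ext j
      have h1 : pp j ∉ lev k := fun h => by
        rw [lev, Finset.mem_Ico] at h
        exact pp_ne h.1 h.2 (j := j) rfl
      simp [F, flipz, h1]
    funext A
    simp only [w, hF]
  have hpos : ∀ l, pos l (flipz (lev k) x.1, x.2) = pos l x := fun l => by rw [pos, pos, hw]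
  have h1 : ∀ l, l ≠ k → U l (flipz (lev k) x.1, x.2) = U l x := fun l hl => by
    simp only [U, hpos]
    have h2 : pos l x ∉ lev k := fun h => by
      rw [lev, Finset.mem_Ico] at h
      exact level_ne hl (bb_le_pos l x) (pos_lt l x) h.1 h.2 rfl
    simp [flipz, h2]
  have h2 : b2z (U k (flipz (lev k) x.1, x.2)) = b2z (U k x) + 1 := by
    simp only [U, hpos]
    have h2 : pos k x ∈ lev k := Finset.mem_Ico.2 ⟨bb_le_pos k x, pos_lt k x⟩
    simp only [flipz, h2, decide_true]
    cases x.1 (pos k x) <;> decide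
  have hk' : k ∈ Finset.range K := Finset.mem_range.2 hk
  rw [PK, PK, ← Finset.add_sum_erase _ _ hk', ← Finset.add_sum_erase _ _ hk', h2,
    Finset.sum_congr rfl fun l hl => by rw [h1 l (Finset.ne_of_mem_erase hl)]]
  ring

theorem cnt_pos (k : ℕ) : 0 < cnt k := Fintype.card_pos

theorem R_sync {y : X × Bool} (hz : Zinf y.1.1) (k : ℕ) : ∃ a b, R^[a] y = R^[b] (VY k y) := by
  obtain ⟨⟨z, ω⟩, j⟩ := y
  simp only at hz
  set K := bb k + cnt k with hK
  have hD : ∀ i ∈ lev k, i < K := fun i hi => (Finset.mem_Ico.1 hi).2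
  have hkK : k < K := by have := le_bb k; have := cnt_pos k; omega
  refine ⟨2 ^ K - 1 - val K z, 2 ^ K - 1 - val K (flipz (lev k) z), ?_⟩
  have h1 := T_sync hz ω hD
  rw [V_lev] at h1
  refine Prod.ext ?_ ?_
  · rw [R_iter_fst, R_iter_fst]; exact h1
  · refine b2z_inj ?_
    have e1 := val_lt K z
    have e2 := val_lt K (flipz (lev k) z)
    simp only [VY]
    rw [R_iter_snd hz ω j (K := K) (by omega),
      R_iter_snd (Zinf_flipz hz _) ω (!j) (K := K) (by omega), h1, PK_lev hkK (z, ω)]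
    have h3 : b2z (!j) = b2z j + 1 := by cases j <;> decide
    rw [h3]
    have : (1 : ZMod 2) + 1 = 0 := by decide
    linear_combination - this

theorem ergodic_R : Ergodic R μY := by
  refine ⟨mp_R, ⟨fun B hB h => ?_⟩⟩
  have haeZ : ∀ᵐ y ∂μY, Zinf y.1.1 := ae_Z₀_Y.mono fun y hy => Zinf_of_Z₀ hy
  have hV : ∀ k, ∀ᵐ y ∂μY, (VY k y ∈ B ↔ y ∈ B) := fun k => haeZ.mono fun y hy => by
    obtain ⟨a, b, hab⟩ := R_sync hy k
    rw [← invariant_iter h a y, ← invariant_iter h b (VY k y), hab]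
  -- the invariance under the flip of the last coordinate
  let fl : X × Bool → X × Bool := fun y => (y.1, !y.2)
  have mp_fl : MeasurePreserving fl μY μY := (MeasurePreserving.id μX).prod mp_not
  have hfl : μY (B \ fl ⁻¹' B) = 0 := by
    refine le_antisymm (le_of_forall_pos_le_add fun ε hε => ?_) zero_le
    rw [zero_add]
    have hε2 : 0 < ε / 2 := ENNReal.half_pos hε.ne'
    obtain ⟨B', hB', hBB'⟩ := refining_Y.generates B hB
    obtain ⟨M, C, hC, hC'⟩ := (approx_set μY refining_Y.refines refining_Y.measurable B' hB').2 _ hε2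
    have hCm : MeasurableSet C := by
      have : C = ⋃ j ∈ PY M '' C, {x | PY M x = j} := by
        ext x
        simp only [mem_iUnion, mem_image, mem_ofPred_eq, exists_prop]
        constructor
        · exact fun hx => ⟨_, ⟨x, hx, rfl⟩, rfl⟩
        · rintro ⟨_, ⟨y, hy, rfl⟩, h'⟩
          exact (hC x y h').2 hy
      rw [this]
      exact MeasurableSet.biUnion (to_countable _) fun j _ => measurableSet_PY M j
    have hBC : μY (symmDiff B C) ≤ ε / 2 := by
      refine le_trans (measure_mono_ae ?_) hC'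
      filter_upwards [hBB'] with x hx
      have hx' : (x ∈ B) = (x ∈ B') := hx
      intro h5
      have h6 : x ∈ symmDiff B C := h5
      rw [mem_symmDiff, hx'] at h6
      exact (mem_symmDiff (s := B') (t := C)).2 h6
    have hle : μY (B \ fl ⁻¹' B) ≤
        μY (VY M ⁻¹' (symmDiff B C) ∪ fl ⁻¹' (symmDiff B C)) := by
      refine measure_mono_ae ?_
      filter_upwards [ae_Z₀_Y, (mp_VY M).quasiMeasurePreserving.ae ae_Z₀_Y, hV M] with y h1 h2 h3
      intro h4
      have h5 : y ∈ B := h4.1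
      have h6 : fl y ∉ B := h4.2
      have h7 : VY M y ∈ B := h3.2 h5
      have h8 : VY M y ∈ C ↔ fl y ∈ C := by
        refine hC _ _ ((PY_iff h2).2 ⟨h1, fun i hi => ?_, fun _ _ => rfl, rfl⟩)
        have : i ∉ lev M := fun h => by
          have := (Finset.mem_Ico.1 h).1
          have := le_bb M
          omega
        simp [VY, fl, flipz, this]
      by_cases h9 : fl y ∈ C
      · exact Or.inr ((mem_symmDiff (s := B) (t := C)).2 (Or.inr ⟨h9, h6⟩))
      · exact Or.inl ((mem_symmDiff (s := B) (t := C)).2 (Or.inl ⟨h7, fun h => h9 (h8.1 h)⟩))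
    refine hle.trans ((measure_union_le _ _).trans ?_)
    rw [(mp_VY M).measure_preimage (hB.symmDiff hCm).nullMeasurableSet,
      mp_fl.measure_preimage (hB.symmDiff hCm).nullMeasurableSet]
    calc _ ≤ ε / 2 + ε / 2 := add_le_add hBC hBC
      _ = ε := ENNReal.add_halves ε
  -- the base
  set A : Set X := {x | (x, true) ∈ B ∧ (x, false) ∈ B} with hA
  have hAm : MeasurableSet A := (measurable_prodMk_right hB).inter (measurable_prodMk_right hB)
  have hAinv : T pp ⁻¹' A = A := by
    have h1 : ∀ x j, ((T pp x, xor j (φ x)) ∈ B ↔ (x, j) ∈ B) := fun x j =>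
      iff_of_eq (congrArg ((x, j) ∈ ·) h)
    ext x
    have h2 := h1 x true
    have h3 := h1 x false
    simp only [hA, mem_preimage, mem_ofPred_eq]
    cases hφ : φ x
    · simp only [hφ, Bool.xor_false] at h2 h3
      rw [h2, h3]
    · simp only [hφ, Bool.xor_true, Bool.not_true, Bool.not_false] at h2 h3
      rw [h2, h3, and_comm]
  have hAB : Prod.fst ⁻¹' A =ᵐ[μY] B := by
    have h1 : (Prod.fst ⁻¹' A : Set (X × Bool)) ⊆ B := fun ⟨x, j⟩ hx => by
      cases j
      · exact hx.2
      · exact hx.1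
    refine (ae_eq_set.2 ⟨?_, ?_⟩)
    · rw [sdiff_eq_empty.2 h1]; exact measure_empty
    · refine measure_mono_null ?_ hfl
      rintro ⟨x, j⟩ ⟨h2, h3⟩
      refine ⟨h2, fun h4 => h3 ?_⟩
      cases j
      · exact ⟨h4, h2⟩
      · exact ⟨h2, h4⟩
  have hmp : MeasurePreserving (Prod.fst : X × Bool → X) μY μX :=
    measurePreserving_fst (μ := μX) (ν := coin)
  have h1 := (hmp.aeconst_preimage hAm.nullMeasurableSet).2 (ergodic_T.aeconst_set hAm hAinv)
  exact h1.congr hAB

end Pool.Agent.H24.Chaos
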