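import Mathlib
import Pool.Agent.H24.Chaos.Walk

/-! A maximal inequality for dyadic blocks. -/

namespace Pool.Agent.H24.Chaos

open MeasureTheory Set Filter
open scoped ENNReal

variable {p : ℕ → ℕ}

/-- the number of visits to `E` before the time `N` -/
noncomputable def visits (p : ℕ → ℕ) (E : Set X) (N : ℕ) (x : X) : ℕ :=
  ∑ n ∈ Finset.range N, E.indicator 1 ((T p)^[n] x)

theorem visits_add (E : Set X) (N M : ℕ) (x : X) :
    visits p E (N + M) x = visits p E N x + visits p E M ((T p)^[N] x) := by
  rw [visits, Finset.sum_range_add]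
  congr 1
  refine Finset.sum_congr rfl fun n _ => ?_
  rw [add_comm, Function.iterate_add_apply]

theorem visits_mono (E : Set X) {N M : ℕ} (h : N ≤ M) (x : X) :
    visits p E N x ≤ visits p E M x :=
  Finset.sum_le_sum_of_subset (Finset.range_mono h)

theorem visits_le (E : Set X) (N : ℕ) (x : X) : visits p E N x ≤ N := by
  calc visits p E N x ≤ ∑ n ∈ Finset.range N, 1 := Finset.sum_le_sum fun n _ => by
        by_cases h : (T p)^[n] x ∈ E <;> simp [h]
    _ = N := by simp

/-- the exceptional set of the maximal inequality -/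
def bad (p : ℕ → ℕ) (E : Set X) (c L : ℕ) : Set X :=
  {x | ∃ K ≤ L, 2 ^ K < c * visits p E (2 ^ K - val K x.1) x}

theorem val_zero_iter {L : ℕ} {x : X} (h : val L x.1 = 0) {a : ℕ} (ha : a < 2 ^ L) :
    val L ((T p)^[a] x).1 = a := by
  rw [T_iter_fst, val_iter, h, zero_add, Nat.mod_eq_of_lt ha]

theorem pointwise (E : Set X) (c L : ℕ) (x : X) (hx : val L x.1 = 0) :
    visits p (bad p E c L) (2 ^ L) x ≤ c * visits p E (2 ^ L) x := by
  induction L generalizing x with
  | zero =>
    by_cases h : x ∈ bad p E c 0
    · obtain ⟨K, hK, h'⟩ := h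
      obtain rfl : K = 0 := by omega
      rw [hx, Nat.sub_zero] at h'
      exact (visits_le _ _ _).trans h'.le
    · have : visits p (bad p E c 0) (2 ^ 0) x = 0 := by simp [visits, h]
      rw [this]; exact Nat.zero_le _
  | succ L ih =>
    have h0 : val L x.1 = 0 := by
      rw [val_succ] at hx; omega
    by_cases h : 2 ^ (L + 1) < c * visits p E (2 ^ (L + 1)) x
    · exact (visits_le _ _ _).trans h.le
    · have h1 : visits p (bad p E c (L + 1)) (2 ^ (L + 1)) x ≤
          visits p (bad p E c L) (2 ^ (L + 1)) x := by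
        refine Finset.sum_le_sum fun a ha => ?_
        rw [Finset.mem_range] at ha
        by_cases h2 : (T p)^[a] x ∈ bad p E c (L + 1)
        · obtain ⟨K, hK, h3⟩ := h2
          have h4 : K ≤ L := by
            by_contra h4
            obtain rfl : K = L + 1 := by omega
            apply h
            refine h3.trans_le (Nat.mul_le_mul_left c ?_)
            rw [val_zero_iter hx ha]
            calc visits p E (2 ^ (L + 1) - a) ((T p)^[a] x) ≤
                visits p E a x + visits p E (2 ^ (L + 1) - a) ((T p)^[a] x) := Nat.le_add_left _ _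
              _ = visits p E (2 ^ (L + 1)) x := by rw [← visits_add]; congr 1; omega
          have h5 : (T p)^[a] x ∈ bad p E c L := ⟨K, h4, h3⟩
          have h6 : (T p)^[a] x ∈ bad p E c (L + 1) := ⟨K, hK, h3⟩
          rw [indicator_of_mem h5, indicator_of_mem h6]
        · rw [indicator_of_notMem h2]; exact Nat.zero_le _
      refine h1.trans ?_
      have e : 2 ^ (L + 1) = 2 ^ L + 2 ^ L := by ring
      have h7 : val L ((T p)^[2 ^ L] x).1 = 0 := by
        rw [T_iter_fst, val_iter, h0, zero_add, Nat.mod_self]
      rw [e, visits_add, visits_add, Nat.mul_add]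
      exact Nat.add_le_add (ih x h0) (ih _ h7)

theorem measurable_val (L : ℕ) : Measurable fun x : X => val L x.1 := by
  refine Finset.measurable_sum _ fun i _ => ?_
  have h : Measurable fun b : Bool => 2 ^ i * b.toNat := measurable_of_finite _
  exact h.comp ((measurable_pi_apply i).comp measurable_fst)

theorem measurable_T_iter (n : ℕ) : Measurable ((T p)^[n]) := (mp_T p).measurable.iterate n

theorem measurable_visits {E : Set X} (hE : MeasurableSet E) (N : ℕ) :
    Measurable (visits p E N) :=
  Finset.measurable_sum _ fun n _ =>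
    ((measurable_const (a := (1 : ℕ))).indicator hE).comp (measurable_T_iter n)

theorem measurableSet_bad {E : Set X} (hE : MeasurableSet E) (c L : ℕ) :
    MeasurableSet (bad p E c L) := by
  have : bad p E c L = ⋃ K ∈ {K | K ≤ L}, ⋃ v : ℕ, {x : X | val K x.1 = v} ∩
      {x | 2 ^ K < c * visits p E (2 ^ K - v) x} := by
    ext x
    simp only [bad, mem_ofPred_eq, mem_iUnion, mem_inter_iff, exists_prop]
    constructor
    · rintro ⟨K, h1, h2⟩; exact ⟨K, h1, _, rfl, h2⟩
    · rintro ⟨K, h1, _, rfl, h2⟩; exact ⟨K, h1, h2⟩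
  rw [this]
  refine MeasurableSet.biUnion (to_countable _) fun K _ => MeasurableSet.iUnion fun v => ?_
  refine (measurable_val K (measurableSet_singleton v)).inter ?_
  exact measurableSet_lt measurable_const ((measurable_visits hE _).const_mul c)

theorem lintegral_visits {E : Set X} (hE : MeasurableSet E) (L : ℕ) :
    ∫⁻ x in {x : X | val L x.1 = 0}, (visits p E (2 ^ L) x : ℝ≥0∞) ∂μX = μX E := by
  have h0 : ∀ x, (visits p E (2 ^ L) x : ℝ≥0∞) =
      ∑ a ∈ Finset.range (2 ^ L), ((T p)^[a] ⁻¹' E).indicator (fun _ => (1 : ℝ≥0∞)) x := by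
    intro x
    rw [visits, Nat.cast_sum]
    refine Finset.sum_congr rfl fun a _ => ?_
    by_cases h : (T p)^[a] x ∈ E <;> simp [indicator, h]
  simp only [h0]
  rw [lintegral_finsetSum]
  · have h1 : ∀ a ∈ Finset.range (2 ^ L), ∫⁻ x in {x : X | val L x.1 = 0},
        ((T p)^[a] ⁻¹' E).indicator (fun _ => (1 : ℝ≥0∞)) x ∂μX =
        μX ({x : X | val L x.1 = a} ∩ E) := by
      intro a ha
      rw [Finset.mem_range] at ha
      rw [lintegral_indicator (measurable_T_iter a hE), setLIntegral_const, one_mul,
        Measure.restrict_apply (measurable_T_iter a hE)]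
      have h2 : (T p)^[a] ⁻¹' ({x : X | val L x.1 = a} ∩ E) =
          (T p)^[a] ⁻¹' E ∩ {x : X | val L x.1 = 0} := by
        ext x
        simp only [mem_preimage, mem_inter_iff, mem_ofPred_eq, T_iter_fst, val_iter]
        rw [and_comm]
        refine and_congr_right fun _ => ?_
        have h3 := val_lt L x.1
        constructor
        · intro h4
          by_contra h5
          rcases Nat.lt_or_ge (val L x.1 + a) (2 ^ L) with h6 | h6
          · rw [Nat.mod_eq_of_lt h6] at h4; omega
          · rw [Nat.mod_eq_sub_mod h6, Nat.mod_eq_of_lt (by omega)] at h4; omega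
        · intro h4
          rw [h4, zero_add, Nat.mod_eq_of_lt ha]
      have h3 : MeasurableSet ({x : X | val L x.1 = a} ∩ E) :=
        (measurable_val L (measurableSet_singleton a)).inter hE
      rw [← h2, ((mp_T p).iterate a).measure_preimage h3.nullMeasurableSet]
    rw [Finset.sum_congr rfl h1, ← measure_biUnion_finset]
    · congr 1
      ext x
      simp only [mem_iUnion, Finset.mem_range, mem_inter_iff, mem_ofPred_eq, exists_prop]
      exact ⟨fun ⟨_, _, _, h⟩ => h, fun h => ⟨_, val_lt L x.1, rfl, h⟩⟩
    · intro a _ b _ hab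
      refine Set.disjoint_left.2 fun x hx hx' => hab ?_
      exact hx.1.symm.trans hx'.1
    · exact fun a _ => (measurable_val L (measurableSet_singleton a)).inter hE
  · exact fun a _ => measurable_const.indicator (measurable_T_iter a hE)

theorem maximal {E : Set X} (hE : MeasurableSet E) (c : ℕ) :
    μX (⋃ L, bad p E c L) ≤ c * μX E := by
  have hmono : Monotone (bad p E c) := fun L L' h x ⟨K, hK, hx⟩ => ⟨K, hK.trans h, hx⟩
  rw [hmono.measure_iUnion]
  refine iSup_le fun L => ?_
  rw [← lintegral_visits (p := p) (measurableSet_bad hE c L) L,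
    ← lintegral_visits (p := p) hE L, ← lintegral_const_mul']
  · refine setLIntegral_mono' (measurable_val L (measurableSet_singleton 0)) fun x hx => ?_
    exact_mod_cast pointwise E c L x hx
  · exact ENNReal.natCast_ne_top c

end Pool.Agent.H24.Chaos
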