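import Mathlib
import Pool.Agent.H24.Chaos.Approx

/-! The modifications of the scenery. -/

namespace Pool.Agent.H24.Chaos

open MeasureTheory Set Filter
open scoped ENNReal

def code (A : Finset ℕ) : ℕ := ∑ a ∈ A, 2 ^ a

theorem code_inj {A B : Finset ℕ} (h : code A = code B) : A = B :=
  Finset.geomSum_injective le_rfl h

theorem code_lt {A : Finset ℕ} {i : ℕ} (h : ∀ a ∈ A, a < i) : code A < 2 ^ i :=
  Nat.geomSum_lt le_rfl h

/-- the part below `i` -/
def low (i : ℕ) (A : Finset ℕ) : Finset ℕ := {a ∈ A | a < i}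

theorem mem_low {i : ℕ} {A : Finset ℕ} {a : ℕ} : a ∈ low i A ↔ a ∈ A ∧ a < i := Finset.mem_filter

/-- the run of the greatest element -/
noncomputable def run (s : ℕ → ℕ) (A : Finset ℕ) : ℕ := sInf {i | A ⊆ Finset.range (s (i + 1))}

/-- the relevant indices -/
noncomputable def sel (s : ℕ → ℕ) (i : ℕ) (c : ℕ → Bool) (A : Finset ℕ) : Finset ℕ :=
  {t ∈ Finset.range i | c t = true ∧ s i + i * code (low i A) + t ∈ A}

/-- The modification. -/
noncomputable def θ (s : ℕ → ℕ) (c : ℕ → Bool) (A : Finset ℕ) : Bool :=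
  if Even (run s A) then false else decide (Odd (sel s (run s A) c A).card)

structure Runs (s : ℕ → ℕ) : Prop where
  le : ∀ i, i ≤ s i
  step : ∀ i, s i + i * 2 ^ i + (i + 1) ≤ s (i + 1)

section
variable {s : ℕ → ℕ} (hs : Runs s)
include hs

theorem Runs.mono : Monotone s := monotone_nat_of_le_succ fun i => by
  have := hs.step i; omega

theorem Runs.run_eq {A : Finset ℕ} {i a : ℕ} (hA : A ⊆ Finset.range (s (i + 1))) (ha : a ∈ A)
    (hi : s i ≤ a) : run s A = i := by
  have h1 : run s A ≤ i := Nat.sInf_le hA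
  by_contra h2
  have h3 : A ⊆ Finset.range (s (run s A + 1)) := Nat.sInf_mem (s := {i | A ⊆ Finset.range (s (i + 1))})
    ⟨i, hA⟩
  have h4 := Finset.mem_range.1 (h3 ha)
  have h5 := hs.mono (show run s A + 1 ≤ i by omega)
  omega

theorem Runs.θ_even {A : Finset ℕ} {i a : ℕ} (hA : A ⊆ Finset.range (s (i + 1))) (ha : a ∈ A)
    (hi : s i ≤ a) (he : Even i) (c : ℕ → Bool) : θ s c A = false := by
  rw [θ, hs.run_eq hA ha hi, if_pos he]

theorem Runs.θ_odd {A : Finset ℕ} {i a : ℕ} (hA : A ⊆ Finset.range (s (i + 1))) (ha : a ∈ A)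
    (hi : s i ≤ a) (ho : ¬ Even i) (c : ℕ → Bool) :
    θ s c A = decide (Odd (sel s i c A).card) := by
  rw [θ, hs.run_eq hA ha hi, if_neg ho]

end

theorem sel_flip {s : ℕ → ℕ} {i t₀ : ℕ} (ht : t₀ < i) {D D' : Finset ℕ} (hD : low i D' = low i D)
    {P : Prop} (h : ∀ t < i, (s i + i * code (low i D) + t ∈ D' ↔
      ¬ ((s i + i * code (low i D) + t ∈ D) ↔ (P ∧ t = t₀)))) (c : ℕ → Bool) :
    (Odd (sel s i c D').card ↔ ¬ (Odd (sel s i c D).card ↔ (P ∧ c t₀ = true))) := by
  by_cases hP : P ∧ c t₀ = true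
  · have h1 : sel s i c D' = symmDiff (sel s i c D) {t₀} := by
      ext t
      simp only [sel, Finset.mem_symmDiff, Finset.mem_filter, Finset.mem_range,
        Finset.mem_singleton, hD]
      by_cases hti : t < i
      · rw [h t hti]
        by_cases h2 : t = t₀
        · subst h2; simp [hti, hP.1, hP.2]
        · simp [hti, h2]
      · have h2 : t ≠ t₀ := fun h2 => hti (h2 ▸ ht)
        simp [hti, h2]
    rw [h1]
    by_cases h2 : t₀ ∈ sel s i c D
    · have h3 : symmDiff (sel s i c D) {t₀} = (sel s i c D).erase t₀ := by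
        ext t
        simp only [Finset.mem_symmDiff, Finset.mem_singleton, Finset.mem_erase]
        by_cases h4 : t = t₀
        · subst h4; simp [h2]
        · simp [h4]
      have h4 := Finset.card_erase_add_one h2
      rw [h3, ← h4, Nat.odd_add_one]
      simp [hP]
    · have h3 : symmDiff (sel s i c D) {t₀} = insert t₀ (sel s i c D) := by
        ext t
        simp only [Finset.mem_symmDiff, Finset.mem_singleton, Finset.mem_insert]
        by_cases h4 : t = t₀
        · subst h4; simp [h2]
        · simp [h4]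
      rw [h3, Finset.card_insert_of_notMem h2, Nat.odd_add_one]
      simp [hP]
  · have h1 : sel s i c D' = sel s i c D := by
      ext t
      simp only [sel, Finset.mem_filter, Finset.mem_range, hD]
      refine and_congr_right fun hti => and_congr_right fun hc => ?_
      rw [h t hti]
      have : ¬ (P ∧ t = t₀) := fun ⟨h2, h3⟩ => hP ⟨h2, h3 ▸ hc⟩
      simp [this]
    rw [h1]
    simp [hP]

/-! Counting with flips. -/

theorem flip_count {V E : Type} [Fintype V] [DecidableEq V] (G : Finset V) (𝓔 : Finset E)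
    (g : E → V → V) (r : V → E) (h1 : ∀ v ∈ G, ∀ e ∈ 𝓔, r (g e v) = e)
    (h2 : ∀ e ∈ 𝓔, ∀ v ∈ G, ∀ v' ∈ G, g e v = g e v' → v = v') :
    G.card * 𝓔.card ≤ Fintype.card V := by
  rw [← Finset.card_product]
  refine Finset.card_le_card_of_injOn (t := Finset.univ) (fun q => g q.2 q.1) (fun _ _ => by simp) ?_
  rintro ⟨v, e⟩ hv ⟨v', e'⟩ hv' h
  simp only [Finset.coe_product, mem_prod, Finset.mem_coe] at hv hv'
  simp only at h
  have h3 : e = e' := by rw [← h1 v hv.1 e hv.2, h, h1 v' hv'.1 e' hv'.2]
  subst h3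
  rw [h2 e hv.2 v hv.1 v' hv'.1 h]

/-- the sequence with given first bits -/
def glue (z : ℕ → Bool) (K : ℕ) (v : Fin K → Bool) : ℕ → Bool :=
  fun i => if h : i < K then v ⟨i, h⟩ else z i

/-- the set of the special places below `a` with changed bits -/
def δ (p : ℕ → ℕ) (z : ℕ → Bool) (a K : ℕ) (v : Fin K → Bool) : Finset ℕ :=
  {j ∈ Finset.range a | z (p j) ≠ glue z K v (p j)}

open Classical in
noncomputable def toggle (p : ℕ → ℕ) {K : ℕ} (J : Finset ℕ) (v : Fin K → Bool) : Fin K → Bool :=
  fun i => xor (v i) (decide (∃ j ∈ J, p j = i.1))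

theorem toggle_toggle (p : ℕ → ℕ) {K : ℕ} (J : Finset ℕ) (v : Fin K → Bool) :
    toggle p J (toggle p J v) = v := by
  funext i; simp [toggle]

theorem δ_toggle {p : ℕ → ℕ} (hp : StrictMono p) (z : ℕ → Bool) {a K : ℕ} (ha : ∀ j < a, p j < K)
    {J : Finset ℕ} (hJ : J ⊆ Finset.range a) (v : Fin K → Bool) :
    δ p z a K (toggle p J v) = symmDiff (δ p z a K v) J := by
  classical
  ext j
  simp only [δ, Finset.mem_symmDiff, Finset.mem_filter, Finset.mem_range]
  by_cases hj : j < a
  · have h1 : (∃ j' ∈ J, p j' = p j) ↔ j ∈ J :=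
      ⟨fun ⟨j', h, h'⟩ => hp.injective h' ▸ h, fun h => ⟨j, h, rfl⟩⟩
    simp only [glue, dif_pos (ha j hj), toggle, hj, true_and, h1]
    by_cases hjJ : j ∈ J <;> cases z (p j) <;> cases v ⟨p j, ha j hj⟩ <;> simp [hjJ]
  · have : j ∉ J := fun h => hj (Finset.mem_range.1 (hJ h))
    simp [hj, this]

/-- from times to bits -/
theorem times_le {z : ℕ → Bool} {K : ℕ} {Q : ℕ → Prop} [DecidablePred Q] {G : Finset (Fin K → Bool)}
    (h : ∀ n, val K z + n < 2 ^ K → Q n → (fun i : Fin K => (S^[n] z) i.1) ∈ G) :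
    {n ∈ Finset.range (2 ^ K - val K z) | Q n}.card ≤ G.card := by
  refine Finset.card_le_card_of_injOn (fun n => fun i : Fin K => (S^[n] z) i.1) ?_ ?_
  · intro n hn
    simp only [Finset.coe_filter, mem_ofPred_eq, Finset.mem_range] at hn
    exact h n (by omega) hn.2
  · intro n hn m hm hnm
    simp only [Finset.coe_filter, mem_ofPred_eq, Finset.mem_range] at hn hm
    refine iter_inj (K := K) (z := z) (by omega) (by omega) fun i hi => ?_
    exact congrFun hnm ⟨i, hi⟩

theorem glue_low {z : ℕ → Bool} {K n : ℕ} (h : val K z + n < 2 ^ K) :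
    glue z K (fun i : Fin K => (S^[n] z) i.1) = S^[n] z := by
  funext i
  by_cases hi : i < K
  · simp [glue, hi]
  · simp only [glue, dif_neg hi]
    exact (iter_high h (not_lt.1 hi)).symm

/-- the length of the blocks -/
noncomputable def kk (s : ℕ → ℕ) (i : ℕ) : ℕ := pp (s (i + 1) - 1) + 1

section
variable {s : ℕ → ℕ} (hs : Runs s)
include hs

theorem Runs.pos (i : ℕ) : 0 < s (i + 1) := by have := hs.step i; omega

omit hs in
theorem lt_kk {i j : ℕ} (h : j < s (i + 1)) : pp j < kk s i := by
  have := pp_strictMono.monotone (show j ≤ s (i + 1) - 1 by omega)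
  rw [kk]; omega

theorem Runs.dif_eq {z : ℕ → Bool} (hz : Zinf z) {i n : ℕ} (h : val (kk s i) z + n < 2 ^ kk s i) :
    dif pp z (S^[n] z) = δ pp z (s (i + 1)) (kk s i) (fun i : Fin (kk s i) => (S^[n] z) i.1) := by
  ext j
  rw [hz.mem_dif pp_strictMono, δ, Finset.mem_filter, glue_low h, Finset.mem_range]
  refine ⟨fun hj => ⟨?_, hj⟩, fun hj => hj.2⟩
  by_contra hj'
  refine hj (iter_high h ?_).symm
  have := pp_strictMono (show s (i + 1) - 1 < j by have := hs.pos i; omega)
  rw [kk]; omega

/-- the exceptional times -/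
def Exc (s : ℕ → ℕ) (z : ℕ → Bool) (i n : ℕ) : Prop :=
  ∀ t < i + 1, z (pp (s (i + 1) - 1 - t)) = (S^[n] z) (pp (s (i + 1) - 1 - t))

open Classical in
theorem Runs.count_exc (z : ℕ → Bool) (i : ℕ) :
    {n ∈ Finset.range (2 ^ kk s i - val (kk s i) z) | Exc s z i n}.card * 2 ^ (i + 1) ≤
      2 ^ kk s i := by
  set K := kk s i with hK
  set G : Finset (Fin K → Bool) := {v | ∀ t < i + 1, s (i + 1) - 1 - t ∉ δ pp z (s (i + 1)) K v}
    with hG
  have hst := hs.step i
  refine (Nat.mul_le_mul_right _ (times_le (z := z) (G := G) ?_)).trans ?_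
  · intro n hn hQ
    simp only [hG, Finset.mem_filter, Finset.mem_univ, true_and]
    intro t ht hmem
    rw [δ, Finset.mem_filter, glue_low hn] at hmem
    exact hmem.2 (hQ t ht)
  · have h1 : ((Finset.range (i + 1)).powerset).card = 2 ^ (i + 1) := by simp
    have h2 : Fintype.card (Fin K → Bool) = 2 ^ K := by simp
    rw [← h1, ← h2]
    have hJ : ∀ J ∈ (Finset.range (i + 1)).powerset,
        J.image (fun t => s (i + 1) - 1 - t) ⊆ Finset.range (s (i + 1)) := fun J _ a ha => by
      obtain ⟨t, -, rfl⟩ := Finset.mem_image.1 ha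
      rw [Finset.mem_range]; omega
    refine flip_count G _ (fun J v => toggle pp (J.image fun t => s (i + 1) - 1 - t) v)
      (fun v => {t ∈ Finset.range (i + 1) | s (i + 1) - 1 - t ∈ δ pp z (s (i + 1)) K v}) ?_ ?_
    · intro v hv J hJ'
      rw [δ_toggle pp_strictMono z (fun j hj => lt_kk hj) (hJ J hJ')]
      simp only [hG, Finset.mem_filter, Finset.mem_univ, true_and] at hv
      ext t
      rw [Finset.mem_filter, Finset.mem_range, Finset.mem_symmDiff]
      constructor
      · rintro ⟨h3, ⟨h4, -⟩ | ⟨h4, -⟩⟩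
        · exact absurd h4 (hv t h3)
        · obtain ⟨t', h5, h6⟩ := Finset.mem_image.1 h4
          have := Finset.mem_range.1 (Finset.mem_powerset.1 hJ' h5)
          have : t' = t := by omega
          exact this ▸ h5
      · intro h3
        have h4 := Finset.mem_range.1 (Finset.mem_powerset.1 hJ' h3)
        exact ⟨h4, Or.inr ⟨Finset.mem_image_of_mem _ h3, hv t h4⟩⟩
    · intro J _ v _ v' _ h
      have := congrArg (toggle pp (J.image fun t => s (i + 1) - 1 - t)) h
      rwa [toggle_toggle, toggle_toggle] at this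

theorem Runs.exists_top {z : ℕ → Bool} (hz : Zinf z) {i n : ℕ}
    (h : val (kk s i) z + n < 2 ^ kk s i) (he : ¬ Exc s z i n) :
    ∃ e ∈ dif pp z (S^[n] z), s i + i * 2 ^ i ≤ e := by
  simp only [Exc, not_forall] at he
  obtain ⟨t, ht, h1⟩ := he
  refine ⟨s (i + 1) - 1 - t, (hz.mem_dif pp_strictMono n).2 h1, ?_⟩
  have := hs.step i
  omega

theorem Runs.dif_subset {z : ℕ → Bool} (hz : Zinf z) {i n : ℕ}
    (h : val (kk s i) z + n < 2 ^ kk s i) :
    dif pp z (S^[n] z) ⊆ Finset.range (s (i + 1)) := by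
  rw [hs.dif_eq hz h]; exact Finset.filter_subset _ _

/-- The modified point. -/
noncomputable def Ψ (s : ℕ → ℕ) (x : X) (c : ℕ → Bool) : X :=
  (x.1, fun A => xor (x.2 A) (θ s c A))

omit hs in
theorem Ψ_iter {x : X} (hz : Zinf x.1) (c : ℕ → Bool) (n : ℕ) :
    (T pp)^[n] (Ψ s x c) = (S^[n] x.1, fun A => xor (x.2 (symmDiff A (dif pp x.1 (S^[n] x.1))))
      (θ s c (symmDiff A (dif pp x.1 (S^[n] x.1))))) := by
  rw [Ψ, T_iter pp_strictMono hz]

/-- in an even run the modification is not visible -/
theorem Runs.near {x : X} (hz : Zinf x.1) {i n m : ℕ} (he : Even i) (hm : m ≤ s i)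
    (h : val (kk s i) x.1 + n < 2 ^ kk s i) (hexc : ¬ Exc s x.1 i n) (c c' : ℕ → Bool) :
    QX m ((T pp)^[n] (Ψ s x c)) = QX m ((T pp)^[n] (Ψ s x c')) := by
  rw [QX_iff, Ψ_iter hz, Ψ_iter hz]
  refine ⟨fun _ _ => rfl, fun A hA => ?_⟩
  simp only
  obtain ⟨e, he1, he2⟩ := hs.exists_top hz h hexc
  have hst := hs.step i
  have h1 : symmDiff A (dif pp x.1 (S^[n] x.1)) ⊆ Finset.range (s (i + 1)) := by
    intro a ha
    rw [Finset.mem_symmDiff] at ha
    rcases ha with ⟨ha, -⟩ | ⟨ha, -⟩
    · have := Finset.mem_range.1 (hA ha)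
      rw [Finset.mem_range]; omega
    · exact hs.dif_subset hz h ha
  have h2 : e ∈ symmDiff A (dif pp x.1 (S^[n] x.1)) := by
    rw [Finset.mem_symmDiff]
    refine Or.inr ⟨he1, fun h' => ?_⟩
    have := Finset.mem_range.1 (hA h')
    omega
  rw [hs.θ_even h1 h2 (by omega) he, hs.θ_even h1 h2 (by omega) he]

open Classical in
/-- in an odd run different modifications are almost independent -/
theorem Runs.far {x : X} (hz : Zinf x.1) {i m t₀ : ℕ} (ho : ¬ Even i) (hm : m ≤ i) (ht : t₀ < i)
    {c c' : ℕ → Bool} (hc : c t₀ ≠ c' t₀) :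
    {n ∈ Finset.range (2 ^ kk s i - val (kk s i) x.1) | ¬ Exc s x.1 i n ∧
      QX m ((T pp)^[n] (Ψ s x c)) = QX m ((T pp)^[n] (Ψ s x c'))}.card * 2 ^ (2 ^ m) ≤
      2 ^ kk s i := by
  obtain ⟨z, ω⟩ := x
  simp only at hz ⊢
  set K := kk s i with hK
  have hst := hs.step i
  have hle := hs.le i
  set a := s (i + 1) with ha
  set G : Finset (Fin K → Bool) := {v | (∃ e ∈ δ pp z a K v, s i + i * 2 ^ i ≤ e) ∧
    ∀ A ∈ (Finset.range m).powerset,
      θ s c (symmDiff A (δ pp z a K v)) = θ s c' (symmDiff A (δ pp z a K v))} with hG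
  refine (Nat.mul_le_mul_right _ (times_le (z := z) (G := G) ?_)).trans ?_
  · intro n hn ⟨h1, h2⟩
    simp only [hG, Finset.mem_filter, Finset.mem_univ, true_and]
    rw [ha, hK, ← hs.dif_eq hz hn]
    refine ⟨hs.exists_top hz hn h1, fun A hA => ?_⟩
    rw [QX_iff, Ψ_iter hz, Ψ_iter hz] at h2
    have := h2.2 A (Finset.mem_powerset.1 hA)
    simpa using this
  · have h1 : ((Finset.range m).powerset.powerset).card = 2 ^ (2 ^ m) := by simp
    have h2 : Fintype.card (Fin K → Bool) = 2 ^ K := by simp
    rw [← h1, ← h2]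
    let J : Finset (Finset ℕ) → (Fin K → Bool) → Finset ℕ := fun 𝓔 v =>
      𝓔.image fun A => s i + i * code (low i (symmDiff A (δ pp z a K v))) + t₀
    have hJlt : ∀ 𝓔 v, ∀ j ∈ J 𝓔 v, s i ≤ j ∧ j < s i + i * 2 ^ i := by
      intro 𝓔 v j hj
      obtain ⟨A, -, rfl⟩ := Finset.mem_image.1 hj
      have h3 : code (low i (symmDiff A (δ pp z a K v))) < 2 ^ i :=
        code_lt fun a ha => (mem_low.1 ha).2
      have h4 : i * code (low i (symmDiff A (δ pp z a K v))) + i ≤ i * 2 ^ i := by
        rw [← Nat.mul_succ]; exact Nat.mul_le_mul_left i h3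
      constructor <;> omega
    have hJs : ∀ 𝓔 v, J 𝓔 v ⊆ Finset.range a := fun 𝓔 v j hj => by
      have := hJlt 𝓔 v j hj
      rw [Finset.mem_range]; omega
    have hδ : ∀ 𝓔 v, δ pp z a K (toggle pp (J 𝓔 v) v) = symmDiff (δ pp z a K v) (J 𝓔 v) :=
      fun 𝓔 v => δ_toggle pp_strictMono z (fun j hj => lt_kk hj) (hJs 𝓔 v) v
    refine flip_count G _ (fun 𝓔 v => toggle pp (J 𝓔 v) v)
      (fun v => {A ∈ (Finset.range m).powerset |
        θ s c (symmDiff A (δ pp z a K v)) ≠ θ s c' (symmDiff A (δ pp z a K v))}) ?_ ?_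
    · intro v hv 𝓔 h𝓔
      simp only [hG, Finset.mem_filter, Finset.mem_univ, true_and] at hv
      obtain ⟨⟨e, he1, he2⟩, hv⟩ := hv
      rw [hδ]
      set D₀ := δ pp z a K v with hD₀
      have hD₀s : D₀ ⊆ Finset.range a := Finset.filter_subset _ _
      -- the main computation
      have key : ∀ A ∈ (Finset.range m).powerset, ∀ c : ℕ → Bool,
          (θ s c (symmDiff A (symmDiff D₀ (J 𝓔 v))) = true ↔
            ¬ (θ s c (symmDiff A D₀) = true ↔ (A ∈ 𝓔 ∧ c t₀ = true))) := by
        intro A hA c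
        have hA' : ∀ b ∈ A, b < m := fun b hb =>
          Finset.mem_range.1 (Finset.mem_powerset.1 hA hb)
        have s1 : symmDiff A D₀ ⊆ Finset.range (s (i + 1)) := by
          intro b hb
          rw [Finset.mem_symmDiff] at hb
          rcases hb with ⟨hb, -⟩ | ⟨hb, -⟩
          · have := hA' b hb
            rw [Finset.mem_range]; omega
          · exact hD₀s hb
        have s2 : symmDiff A (symmDiff D₀ (J 𝓔 v)) ⊆ Finset.range (s (i + 1)) := by
          intro b hb
          rw [Finset.mem_symmDiff, Finset.mem_symmDiff] at hb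
          rcases hb with ⟨hb, -⟩ | ⟨⟨hb, -⟩ | ⟨hb, -⟩, -⟩
          · have := hA' b hb
            rw [Finset.mem_range]; omega
          · exact hD₀s hb
          · exact hJs 𝓔 v hb
        have heA : e ∉ A := fun h' => by have := hA' e h'; omega
        have heJ : e ∉ J 𝓔 v := fun h' => by have := hJlt 𝓔 v e h'; omega
        have m1 : e ∈ symmDiff A D₀ := Finset.mem_symmDiff.2 (Or.inr ⟨he1, heA⟩)
        have m2 : e ∈ symmDiff A (symmDiff D₀ (J 𝓔 v)) :=
          Finset.mem_symmDiff.2 (Or.inr ⟨Finset.mem_symmDiff.2 (Or.inl ⟨he1, heJ⟩), heA⟩)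
        rw [hs.θ_odd s1 m1 (by omega) ho, hs.θ_odd s2 m2 (by omega) ho, decide_eq_true_eq,
          decide_eq_true_eq]
        refine sel_flip ht ?_ (fun t hti => ?_) c
        · ext b
          rw [mem_low, mem_low]
          refine and_congr_left fun hb => ?_
          have : b ∉ J 𝓔 v := fun h' => by have := hJlt 𝓔 v b h'; omega
          simp [Finset.mem_symmDiff, this]
        · set q := s i + i * code (low i (symmDiff A D₀)) + t with hq
          have hqA : q ∉ A := fun h' => by have := hA' q h'; omega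
          have hqJ : q ∈ J 𝓔 v ↔ (A ∈ 𝓔 ∧ t = t₀) := by
            constructor
            · intro h'
              obtain ⟨B, hB, hB'⟩ := Finset.mem_image.1 h'
              rw [hq] at hB'
              simp only [← hD₀] at hB'
              have e1 : t₀ = t ∧ code (low i (symmDiff B D₀)) = code (low i (symmDiff A D₀)) := by
                have e2 : i * code (low i (symmDiff B D₀)) + t₀ =
                  i * code (low i (symmDiff A D₀)) + t := by omega
                have e3 := congrArg (· % i) e2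
                simp only [Nat.mul_add_mod, Nat.mod_eq_of_lt ht, Nat.mod_eq_of_lt hti] at e3
                refine ⟨e3, ?_⟩
                rw [e3] at e2
                exact Nat.eq_of_mul_eq_mul_left (by omega) (Nat.add_right_cancel e2)
              have e4 := code_inj e1.2
              have e5 : B = A := by
                have hB1 : ∀ b ∈ B, b < m := fun b hb => Finset.mem_range.1
                  (Finset.mem_powerset.1 (Finset.mem_powerset.1 h𝓔 hB) hb)
                ext b
                by_cases hb : b < i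
                · have := congrArg (fun s => b ∈ s) e4
                  simp only [mem_low, Finset.mem_symmDiff, hb, and_true, eq_iff_iff] at this
                  tauto
                · constructor
                  · intro h'; have := hB1 b h'; omega
                  · intro h'; have := hA' b h'; omega
              exact ⟨e5 ▸ hB, e1.1.symm⟩
            · rintro ⟨h3, h4⟩
              rw [hq, h4]
              exact Finset.mem_image_of_mem (fun A => s i + i * code (low i (symmDiff A D₀)) + t₀) h3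
          rw [← hqJ]
          simp only [Finset.mem_symmDiff, hqA, false_and, false_or, not_false_eq_true, and_true]
          tauto
      ext A
      rw [Finset.mem_filter]
      have h𝓔' : A ∈ 𝓔 → A ∈ (Finset.range m).powerset := fun h => Finset.mem_powerset.1 h𝓔 h
      by_cases hA : A ∈ (Finset.range m).powerset
      · have k1 := key A hA c
        have k2 := key A hA c'
        have k3 := hv A hA
        simp only [hA, true_and]
        rw [k3] at k1
        generalize θ s c (symmDiff A (symmDiff D₀ (J 𝓔 v))) = b1 at *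
        generalize θ s c' (symmDiff A (symmDiff D₀ (J 𝓔 v))) = b2 at *
        generalize θ s c' (symmDiff A D₀) = b3 at *
        by_cases hAE : A ∈ 𝓔
        · revert hc k1 k2
          cases c t₀ <;> cases c' t₀ <;> cases b1 <;> cases b2 <;> cases b3 <;> simp [hAE]
        · revert k1 k2
          cases b1 <;> cases b2 <;> cases b3 <;> simp [hAE]
      · simp only [hA, false_and, false_iff]
        exact fun h => hA (h𝓔' h)
    · intro 𝓔 _ v _ v' _ h
      have h3 : low i (δ pp z a K v) = low i (δ pp z a K v') := by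
        have h4 : ∀ v, low i (δ pp z a K (toggle pp (J 𝓔 v) v)) = low i (δ pp z a K v) := by
          intro v
          rw [hδ]
          ext b
          rw [mem_low, mem_low]
          refine and_congr_left fun hb => ?_
          have : b ∉ J 𝓔 v := fun h' => by have := hJlt 𝓔 v b h'; omega
          simp [Finset.mem_symmDiff, this]
        rw [← h4 v, ← h4 v', h]
      have h5 : J 𝓔 v = J 𝓔 v' := by
        refine Finset.image_congr fun A _ => ?_
        have : low i (symmDiff A (δ pp z a K v)) = low i (symmDiff A (δ pp z a K v')) := by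
          ext b
          have := congrArg (fun s => b ∈ s) h3
          simp only [mem_low, Finset.mem_symmDiff, eq_iff_iff] at this ⊢
          tauto
        simp only [this]
      rw [h5] at h
      have := congrArg (toggle pp (J 𝓔 v')) h
      rwa [toggle_toggle, toggle_toggle] at this

end

end Pool.Agent.H24.Chaos
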