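import Mathlib
import Pool.Agent.H24.Chaos.Theta
import Pool.Agent.H24.Chaos.Max

/-! The walk is uniformly chaotic. -/

namespace Pool.Agent.H24.Chaos

open MeasureTheory Set Filter
open scoped ENNReal

theorem density_of_frequently {A : Set ℕ} {a : ℝ≥0∞} {q : ℕ} (hq : 0 < q)
    (ha : a + (q : ℝ≥0∞)⁻¹ ≤ 1)
    (h : ∃ᶠ N : ℕ in atTop, q * N ≤ N + q * (A ∩ Iio N).ncard) : a ≤ upperDensity A := by
  refine le_upperDensity (h.mono fun N hN => ?_)
  have hq0 : (q : ℝ≥0∞) ≠ 0 := by exact_mod_cast hq.ne'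
  have hqt : (q : ℝ≥0∞) ≠ ⊤ := ENNReal.natCast_ne_top q
  have h1 : (q : ℝ≥0∞) * N ≤ N + q * (A ∩ Iio N).ncard := by exact_mod_cast hN
  have h2 : (N : ℝ≥0∞) ≤ (q : ℝ≥0∞)⁻¹ * N + (A ∩ Iio N).ncard := by
    calc (N : ℝ≥0∞) = (q : ℝ≥0∞)⁻¹ * (q * N) := by
          rw [← mul_assoc, ENNReal.inv_mul_cancel hq0 hqt, one_mul]
      _ ≤ (q : ℝ≥0∞)⁻¹ * (N + q * (A ∩ Iio N).ncard) := by gcongr
      _ = _ := by rw [mul_add, ← mul_assoc, ENNReal.inv_mul_cancel hq0 hqt, one_mul]
  have h3 : (q : ℝ≥0∞)⁻¹ * N + a * N ≤ (q : ℝ≥0∞)⁻¹ * N + (A ∩ Iio N).ncard := by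
    refine le_trans ?_ h2
    calc (q : ℝ≥0∞)⁻¹ * N + a * N = (a + (q : ℝ≥0∞)⁻¹) * N := by ring
      _ ≤ 1 * N := by gcongr
      _ = N := one_mul _
  exact (ENNReal.add_le_add_iff_left (ENNReal.mul_ne_top (ENNReal.inv_ne_top.2 hq0)
    (ENNReal.natCast_ne_top N))).1 h3

theorem exists_q {a : ℝ≥0∞} (h : a < 1) : ∃ q : ℕ, 0 < q ∧ a + (q : ℝ≥0∞)⁻¹ ≤ 1 := by
  obtain ⟨q, hq⟩ := ENNReal.exists_inv_nat_lt (tsub_pos_of_lt h).ne'
  refine ⟨q, ?_, ?_⟩
  · rcases Nat.eq_zero_or_pos q with rfl | h0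
    · simp at hq
    · exact h0
  · calc a + (q : ℝ≥0∞)⁻¹ ≤ a + (1 - a) := by gcongr
      _ = 1 := add_tsub_cancel_of_le h.le

/-- The error sets. -/
theorem step {P : ℕ → X → ℕ} (hP : IsRefining sysX P) (i : ℕ) {ε : ℝ≥0∞} (hε : 0 < ε) :
    ∃ (M k : ℕ) (E : Set X), MeasurableSet E ∧ μX E ≤ ε ∧
      (∀ x ∉ E, ∀ y ∉ E, QX M x = QX M y → P i x = P i y) ∧
      (∀ x ∉ E, ∀ y ∉ E, P k x = P k y → QX i x = QX i y) := by
  have hε2 : 0 < ε / 2 := ENNReal.half_pos hε.ne'
  obtain ⟨M, E₁, hE₁, hE₁', h1⟩ := approx (M := sysX) refining_X (hP.finite i) (hP.measurable i) hε2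
  obtain ⟨k, E₂, hE₂, hE₂', h2⟩ := approx (M := sysX) hP (finite_QX i)
    (fun j => (measurableSet_QX i j).nullMeasurableSet) hε2
  refine ⟨M, k, E₁ ∪ E₂, hE₁.union hE₂, ?_, fun x hx y hy h => ?_, fun x hx y hy h => ?_⟩
  · calc μX (E₁ ∪ E₂) ≤ μX E₁ + μX E₂ := measure_union_le _ _
      _ ≤ ε / 2 + ε / 2 := add_le_add hE₁' hE₂'
      _ = ε := ENNReal.add_halves ε
  · exact h1 x (fun h => hx (Or.inl h)) y (fun h => hy (Or.inl h)) h
  · exact h2 x (fun h => hx (Or.inr h)) y (fun h => hy (Or.inr h)) h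

/-- a function of finitely many bits is measurable -/
theorem measurable_bits {g : (ℕ → Bool) → Bool} {r : ℕ}
    (h : ∀ c c', (∀ t < r, c t = c' t) → g c = g c') : Measurable g := by
  have h1 : g = (fun v : Fin r → Bool => g fun i => if h : i < r then v ⟨i, h⟩ else false) ∘
      fun c => fun i : Fin r => c i.1 := by
    funext c
    refine h _ _ fun t ht => ?_
    simp [ht]
  rw [h1]
  exact (measurable_of_finite _).comp (measurable_pi_iff.2 fun i => measurable_pi_apply _)

theorem measurable_θ (s : ℕ → ℕ) (A : Finset ℕ) : Measurable fun c => θ s c A := by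
  refine measurable_bits (r := run s A) fun c c' h => ?_
  have : sel s (run s A) c A = sel s (run s A) c' A := by
    refine Finset.filter_congr fun t ht => ?_
    rw [h t (Finset.mem_range.1 ht)]
  simp only [θ, this]

theorem measurable_Ψ (s : ℕ → ℕ) : Measurable fun q : X × (ℕ → Bool) => Ψ s q.1 q.2 := by
  refine Measurable.prodMk (measurable_fst.comp measurable_fst) (measurable_pi_iff.2 fun A => ?_)
  have h3 : Measurable fun p : Bool × Bool => xor p.1 p.2 := measurable_of_finite _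
  have h1 : Measurable fun q : X × (ℕ → Bool) => q.1.2 A :=
    (measurable_pi_apply A).comp (measurable_snd.comp measurable_fst)
  have h2 : Measurable fun q : X × (ℕ → Bool) => θ s q.2 A := (measurable_θ s A).comp measurable_snd
  exact h3.comp (h1.prodMk h2)

theorem mp_Ψ (s : ℕ → ℕ) (c : ℕ → Bool) : MeasurePreserving (fun x => Ψ s x c) μX μX :=
  (MeasurePreserving.id (fair ℕ)).prod (mp_xor (θ s c))

theorem fair_countable {C : Set (ℕ → Bool)} (h : C.Countable) : fair ℕ C = 0 := by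
  have : NullSingletonClass (fair ℕ) := ⟨fun c => by
    have h1 := fair_null id Function.injective_id c
    have h2 : {ω : ℕ → Bool | ∀ n, ω (id n) = c (id n)} = {c} := by
      ext ω; simp [funext_iff]
    rwa [h2] at h1⟩
  exact h.measure_zero _

theorem exists_uncountable (s : ℕ → ℕ) {G : Set X} (hG : MeasurableSet G) (hG' : μX G ≠ 0) :
    ∃ x, ¬ {c | Ψ s x c ∈ G}.Countable := by
  by_contra! h
  apply hG'
  have hm := measurable_Ψ s hG
  have h1 : (μX.prod (fair ℕ)) ((fun q : X × (ℕ → Bool) => Ψ s q.1 q.2) ⁻¹' G) = 0 := by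
    rw [Measure.prod_apply hm]
    simp only [lintegral_eq_zero_iff (measurable_measure_prodMk_left hm)]
    exact Eventually.of_forall fun x => fair_countable (h x)
  rw [Measure.prod_apply_symm hm] at h1
  have h2 : ∀ c, μX ((fun x => (x, c)) ⁻¹' ((fun q : X × (ℕ → Bool) => Ψ s q.1 q.2) ⁻¹' G)) =
      μX G := fun c => (mp_Ψ s c).measure_preimage hG.nullMeasurableSet
  simpa only [h2, lintegral_const, measure_univ, mul_one] using h1

/-- infinitely often a zero at a special place -/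
theorem ae_io (q : ℕ → ℕ) (hq : StrictMono q) : ∀ᵐ x ∂μX, ∀ I, ∃ i ≥ I, x.1 (q i) = false := by
  rw [ae_all_iff]
  intro I
  have h1 : ∀ᵐ z ∂fair ℕ, ∃ i ≥ I, z (q i) = false := by
    rw [ae_iff]
    refine measure_mono_null ?_ (fair_null (fun n => q (I + n))
      (fun a b h => Nat.add_left_cancel (hq.injective h)) fun _ => true)
    intro z hz n
    simp only [mem_ofPred_eq] at hz
    by_contra h
    exact hz ⟨I + n, Nat.le_add_right _ _, by simpa using h⟩
  exact (measurePreserving_fst (μ := fair ℕ) (ν := fair (Finset ℕ))).quasiMeasurePreserving.ae h1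

theorem chaotic_X : UniformlyChaoticPlus sysX := by
  classical
  intro P hP
  change ℕ → X → ℕ at P
  have hε : ∀ i : ℕ, (0 : ℝ≥0∞) < 8⁻¹ ^ (i + 1) := fun i => by
    refine pos_iff_ne_zero.2 (pow_ne_zero _ (by simp))
  choose M kP E hE hμE hnear hfar using fun i => step hP i (hε i)
  -- the runs
  let s : ℕ → ℕ := fun i => Nat.rec (M 0) (fun i si => si + i * 2 ^ i + (i + 1) + M (i + 1)) i
  have hs0 : s 0 = M 0 := rfl
  have hs1 : ∀ i, s (i + 1) = s i + i * 2 ^ i + (i + 1) + M (i + 1) := fun i => rfl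
  have hMs : ∀ i, M i ≤ s i := fun i => by
    cases i with
    | zero => exact le_rfl
    | succ i => rw [hs1]; omega
  have hs : Runs s := by
    refine ⟨fun i => ?_, fun i => ?_⟩
    · induction i with
      | zero => exact Nat.zero_le _
      | succ i ih => rw [hs1]; omega
    · rw [hs1]; omega
  have hkk : StrictMono (kk s) := strictMono_nat_of_lt_succ fun i => by
    have h1 := hs.step i
    have h2 := hs.step (i + 1)
    have := pp_strictMono (show s (i + 1) - 1 < s (i + 1 + 1) - 1 by omega)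
    rw [kk, kk]; omega
  -- the good set
  set B : Set X := ⋃ i, ⋃ L, bad pp (E i) (2 ^ i) L with hB
  have hBm : MeasurableSet B := MeasurableSet.iUnion fun i => MeasurableSet.iUnion fun L =>
    measurableSet_bad (hE i) _ L
  have hμB : μX B ≤ 2⁻¹ := by
    refine (measure_iUnion_le _).trans ?_
    calc ∑' i, μX (⋃ L, bad pp (E i) (2 ^ i) L) ≤ ∑' i : ℕ, 4⁻¹ ^ (i + 1) := by
          refine ENNReal.tsum_le_tsum fun i => ?_
          refine (maximal (hE i) _).trans ?_
          calc ((2 ^ i : ℕ) : ℝ≥0∞) * μX (E i) ≤ 2 ^ (i + 1) * 8⁻¹ ^ (i + 1) := by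
                refine mul_le_mul' ?_ (hμE i)
                push_cast
                exact pow_le_pow_right₀ (by norm_num) (Nat.le_succ i)
            _ = 4⁻¹ ^ (i + 1) := by
                rw [← mul_pow]
                congr 1
                rw [show (8 : ℝ≥0∞) = 2 * 4 by norm_num, ENNReal.mul_inv (by simp) (by simp),
                  ← mul_assoc, ENNReal.mul_inv_cancel (by simp) (by simp), one_mul]
      _ = 4⁻¹ * (1 - 4⁻¹)⁻¹ := ENNReal.tsum_geometric_add_one _
      _ ≤ 2⁻¹ := by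
          have h1 : (1 - 4⁻¹ : ℝ≥0∞)⁻¹ ≤ 2 := by
            rw [ENNReal.inv_le_iff_inv_le]
            refine ENNReal.le_sub_of_add_le_right (by simp) ?_
            calc (2⁻¹ + 4⁻¹ : ℝ≥0∞) ≤ 2⁻¹ + 2⁻¹ := by
                  gcongr; norm_num
              _ = 1 := ENNReal.inv_two_add_inv_two
          calc (4⁻¹ : ℝ≥0∞) * (1 - 4⁻¹)⁻¹ ≤ 4⁻¹ * 2 := by gcongr
            _ = 2⁻¹ := by
                rw [show (4 : ℝ≥0∞) = 2 * 2 by norm_num, ENNReal.mul_inv (by simp) (by simp),
                  mul_assoc, ENNReal.inv_mul_cancel (by simp) (by simp), mul_one]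
  set q₀ : ℕ → ℕ := fun j => pp (s (2 * j + 1) - 1) with hq₀
  set q₁ : ℕ → ℕ := fun j => pp (s (2 * j + 1 + 1) - 1) with hq₁
  have hq₀' : StrictMono q₀ := fun a b hab => by
    have := hkk (show 2 * a < 2 * b by omega)
    simp only [kk] at this
    simp only [hq₀]; omega
  have hq₁' : StrictMono q₁ := fun a b hab => by
    have := hkk (show 2 * a + 1 < 2 * b + 1 by omega)
    simp only [kk] at this
    simp only [hq₁]; omega
  have haeB : ∀ᵐ x ∂μX, Zinf x.1 ∧ (∀ I, ∃ i ≥ I, x.1 (q₀ i) = false) ∧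
      ∀ I, ∃ i ≥ I, x.1 (q₁ i) = false := by
    filter_upwards [ae_io id strictMono_id, ae_io q₀ hq₀', ae_io q₁ hq₁'] with x h1 h2 h3
    exact ⟨h1, h2, h3⟩
  obtain ⟨G, hGsub, hGm, hG0⟩ : ∃ G : Set X, (∀ x ∈ G, x ∉ B ∧ Zinf x.1 ∧
      (∀ I, ∃ i ≥ I, x.1 (q₀ i) = false) ∧ ∀ I, ∃ i ≥ I, x.1 (q₁ i) = false) ∧
      MeasurableSet G ∧ μX G ≠ 0 := by
    obtain ⟨N, hN, hNm, hN0⟩ := exists_measurable_superset_of_null (ae_iff.1 haeB)
    refine ⟨(B ∪ N)ᶜ, fun x hx => ?_, (hBm.union hNm).compl, ?_⟩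
    · rw [mem_compl_iff, mem_union, not_or] at hx
      refine ⟨hx.1, ?_⟩
      by_contra h
      exact hx.2 (hN h)
    · rw [measure_compl (hBm.union hNm) (measure_ne_top _ _), measure_univ]
      have h1 : μX (B ∪ N) ≤ 2⁻¹ := (measure_union_le _ _).trans (by rw [hN0, add_zero]; exact hμB)
      refine (tsub_pos_of_lt (h1.trans_lt ?_)).ne'
      simp
  obtain ⟨x, hx⟩ := exists_uncountable s hGm hG0
  set D := {c | Ψ s x c ∈ G} with hD
  -- facts on the base point
  have hbase : ∀ c ∈ D, Zinf x.1 ∧ (∀ I, ∃ i ≥ I, x.1 (q₀ i) = false) ∧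
      ∀ I, ∃ i ≥ I, x.1 (q₁ i) = false := fun c hc => (hGsub _ hc).2
  -- visits to the error sets
  have hvis : ∀ c ∈ D, ∀ i K, 2 ^ i * visits pp (E i) (2 ^ K - val K x.1) (Ψ s x c) ≤ 2 ^ K := by
    intro c hc i K
    by_contra h
    refine (hGsub _ hc).1 (mem_iUnion.2 ⟨i, mem_iUnion.2 ⟨K, K, le_rfl, ?_⟩⟩)
    exact not_le.1 h
  -- the windows
  set W : ℕ → ℕ := fun i => 2 ^ kk s i - val (kk s i) x.1 with hW
  have hWlt : ∀ i n, n < W i → val (kk s i) x.1 + n < 2 ^ kk s i := fun i n h => by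
    simp only [hW] at h; omega
  have hWbig : ∀ i, x.1 (pp (s (i + 1) - 1)) = false → 2 ^ kk s i < 2 * W i := fun i h => by
    have h1 := val_le_of_zero (K := kk s i) (i := pp (s (i + 1) - 1)) (by rw [kk]; omega) h
    have h2 : 2 ^ kk s i = 2 ^ pp (s (i + 1) - 1) * 2 := by rw [kk, pow_succ]
    simp only [hW]; omega
  have hWtop : ∀ i, x.1 (pp (s (i + 1) - 1)) = false → i ≤ W i := fun i h => by
    have h1 := hWbig i h
    have h2 : kk s i < 2 ^ kk s i := Nat.lt_two_pow_self
    have h3 : i ≤ kk s i := hkk.le_apply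
    have h4 : 2 ^ kk s i = 2 ^ pp (s (i + 1) - 1) * 2 := by rw [kk, pow_succ]
    have h5 : pp (s (i + 1) - 1) < 2 ^ pp (s (i + 1) - 1) := Nat.lt_two_pow_self
    have h6 : kk s i = pp (s (i + 1) - 1) + 1 := rfl
    omega
  have hcountvis : ∀ (c : ℕ → Bool) (i N : ℕ), {n ∈ Finset.range N | (T pp)^[n] (Ψ s x c) ∈ E i}.card =
      visits pp (E i) N (Ψ s x c) := by
    intro c i N
    rw [visits, Finset.card_filter]
    refine Finset.sum_congr rfl fun n _ => ?_
    by_cases h : (T pp)^[n] (Ψ s x c) ∈ E i <;> simp [h]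
  -- together
  have htog : ∀ c ∈ D, ∀ c' ∈ D, Together sysX P (Ψ s x c) (Ψ s x c') := by
    intro c hc c' hc'
    obtain ⟨hz, hev, -⟩ := hbase c hc
    set g : ℕ → ℕ := fun n => sInf {i | n < 2 ^ kk s i} with hg
    have hg1 : ∀ i n, n < 2 ^ kk s i → g n ≤ i := fun i n h => Nat.sInf_le h
    have hg2 : ∀ i n, 2 ^ kk s i ≤ n → i < g n := fun i n h => by
      have h1 : n < 2 ^ kk s (g n) := Nat.sInf_mem (s := {i | n < 2 ^ kk s i})
        ⟨n, lt_of_lt_of_le Nat.lt_two_pow_self (Nat.pow_le_pow_right (by norm_num) hkk.le_apply)⟩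
      by_contra h2
      have := Nat.pow_le_pow_right (show 0 < 2 by norm_num) (hkk.monotone (not_lt.1 h2))
      omega
    set A : Set ℕ := {n | P (g n) ((T pp)^[n] (Ψ s x c)) = P (g n) ((T pp)^[n] (Ψ s x c'))} with hA
    have hdens : ∀ q : ℕ, ∃ᶠ N : ℕ in atTop, q * N ≤ N + q * (A ∩ Iio N).ncard := by
      intro q
      rw [frequently_atTop]
      intro I
      obtain ⟨j, hj, hzj⟩ := hev (max I (6 * q))
      set i := 2 * j with hi
      have hzi : x.1 (pp (s (i + 1) - 1)) = false := hzj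
      have hiI : I ≤ W i := by
        have := hWtop i hzi
        have := le_max_left I (6 * q)
        omega
      refine ⟨W i, hiI, ?_⟩
      -- the bad times
      have h1 : Finset.range (W i) ⊆ {n ∈ Finset.range (W i) | n ∈ A} ∪
          ({n ∈ Finset.range (W i) | Exc s x.1 i n} ∪
          ({n ∈ Finset.range (W i) | (T pp)^[n] (Ψ s x c) ∈ E i} ∪
          {n ∈ Finset.range (W i) | (T pp)^[n] (Ψ s x c') ∈ E i})) := by
        intro n hn
        simp only [Finset.mem_union, Finset.mem_filter, hn, true_and]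
        rw [Finset.mem_range] at hn
        by_cases h2 : Exc s x.1 i n
        · exact Or.inr (Or.inl h2)
        by_cases h3 : (T pp)^[n] (Ψ s x c) ∈ E i
        · exact Or.inr (Or.inr (Or.inl h3))
        by_cases h4 : (T pp)^[n] (Ψ s x c') ∈ E i
        · exact Or.inr (Or.inr (Or.inr h4))
        left
        have h5 := hnear i _ h3 _ h4 (hs.near hz (by simp [hi]) (hMs i) (hWlt i n hn) h2 c c')
        refine saturated_mono hP.refines (hg1 i n ?_) _ _ h5
        have := hWlt i n hn; omega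
      have h2 := (Finset.card_le_card h1).trans ((Finset.card_union_le _ _).trans
        (Nat.add_le_add_left ((Finset.card_union_le _ _).trans
        (Nat.add_le_add_left (Finset.card_union_le _ _) _)) _))
      rw [Finset.card_range, hcountvis, hcountvis] at h2
      have h3 : {n ∈ Finset.range (W i) | n ∈ A}.card = (A ∩ Iio (W i)).ncard := by
        have : A ∩ Iio (W i) = (({n ∈ Finset.range (W i) | n ∈ A} : Finset ℕ) : Set ℕ) := by
          ext n; simp [and_comm]
        rw [this, Set.ncard_coe_finset]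
      rw [h3] at h2
      have h4 := hs.count_exc x.1 i
      have h5 := hvis c hc i (kk s i)
      have h6 := hvis c' hc' i (kk s i)
      have h7 := hWbig i hzi
      change {n ∈ Finset.range (W i) | Exc s x.1 i n}.card * 2 ^ (i + 1) ≤ 2 ^ kk s i at h4
      change 2 ^ i * visits pp (E i) (W i) (Ψ s x c) ≤ 2 ^ kk s i at h5
      change 2 ^ i * visits pp (E i) (W i) (Ψ s x c') ≤ 2 ^ kk s i at h6
      have h8 : 6 * q ≤ 2 ^ i := by
        have : i < 2 ^ i := Nat.lt_two_pow_self
        have := le_max_right I (6 * q)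
        omega
      generalize {n ∈ Finset.range (W i) | Exc s x.1 i n}.card = e at *
      generalize visits pp (E i) (W i) (Ψ s x c) = v at *
      generalize visits pp (E i) (W i) (Ψ s x c') = v' at *
      generalize (A ∩ Iio (W i)).ncard = a at *
      have h9 : e * 2 ^ i ≤ 2 ^ kk s i := by
        refine le_trans (Nat.mul_le_mul_left e ?_) h4
        exact Nat.pow_le_pow_right (by norm_num) (Nat.le_succ i)
      have h10 : 6 * q * (e + (v + v')) ≤ 6 * W i := by
        calc 6 * q * (e + (v + v')) ≤ 2 ^ i * (e + (v + v')) := Nat.mul_le_mul_right _ h8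
          _ = e * 2 ^ i + (2 ^ i * v + 2 ^ i * v') := by ring
          _ ≤ 6 * W i := by omega
      nlinarith
    have hud : upperDensity A = 1 := by
      refine le_antisymm (upperDensity_le_one A) (le_of_forall_lt fun a ha => ?_)
      obtain ⟨b, hab, hb⟩ := exists_between ha
      obtain ⟨q, hq, hq'⟩ := exists_q hb
      exact hab.trans_le (density_of_frequently hq hq' (hdens q))
    obtain ⟨n, hn, hr⟩ := exists_seq (infinite_of_upperDensity (A := A) (by rw [hud]; simp))
    refine ⟨n, hn, by rw [hr]; exact hud, fun k => ?_⟩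
    filter_upwards [eventually_ge_atTop (2 ^ kk s k)] with i hi
    have h1 : n i ∈ A := by rw [← hr]; exact ⟨i, rfl⟩
    exact saturated_mono hP.refines (hg2 k (n i) (hi.trans hn.le_apply)).le _ _ h1
  -- apart
  have hap : ∀ m q : ℕ, 8 * q ≤ 2 ^ m → 0 < q → ∀ a, a + (q : ℝ≥0∞)⁻¹ ≤ 1 → 0 < a →
      ∀ c ∈ D, ∀ c' ∈ D, c ≠ c' → Apart sysX P (Ψ s x c) (Ψ s x c') (kP m) a := by
    intro m q hm hq a ha ha0 c hc c' hc' hne
    obtain ⟨hz, -, hod⟩ := hbase c hc
    obtain ⟨t₀, ht₀⟩ : ∃ t, c t ≠ c' t := by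
      by_contra h; push Not at h; exact hne (funext h)
    set A : Set ℕ := {n | P (kP m) ((T pp)^[n] (Ψ s x c)) ≠ P (kP m) ((T pp)^[n] (Ψ s x c'))}
      with hA
    have hdens : ∃ᶠ N : ℕ in atTop, q * N ≤ N + q * (A ∩ Iio N).ncard := by
      rw [frequently_atTop]
      intro I
      obtain ⟨j, hj, hzj⟩ := hod (max I (max m (t₀ + 1)))
      set i := 2 * j + 1 with hi
      have hzi : x.1 (pp (s (i + 1) - 1)) = false := hzj
      have hj1 := (le_max_left I (max m (t₀ + 1))).trans hj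
      have hj2 := (le_max_right I (max m (t₀ + 1))).trans hj
      have hj3 := (le_max_left m (t₀ + 1)).trans hj2
      have hj4 := (le_max_right m (t₀ + 1)).trans hj2
      have hiI : I ≤ W i := by
        have := hWtop i hzi
        omega
      refine ⟨W i, hiI, ?_⟩
      have h1 : Finset.range (W i) ⊆ {n ∈ Finset.range (W i) | n ∈ A} ∪
          ({n ∈ Finset.range (W i) | Exc s x.1 i n} ∪
          ({n ∈ Finset.range (W i) | ¬ Exc s x.1 i n ∧
            QX m ((T pp)^[n] (Ψ s x c)) = QX m ((T pp)^[n] (Ψ s x c'))} ∪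
          ({n ∈ Finset.range (W i) | (T pp)^[n] (Ψ s x c) ∈ E m} ∪
          {n ∈ Finset.range (W i) | (T pp)^[n] (Ψ s x c') ∈ E m}))) := by
        intro n hn
        simp only [Finset.mem_union, Finset.mem_filter, hn, true_and]
        by_cases h2 : Exc s x.1 i n
        · exact Or.inr (Or.inl h2)
        by_cases h3 : (T pp)^[n] (Ψ s x c) ∈ E m
        · exact Or.inr (Or.inr (Or.inr (Or.inl h3)))
        by_cases h4 : (T pp)^[n] (Ψ s x c') ∈ E m
        · exact Or.inr (Or.inr (Or.inr (Or.inr h4)))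
        by_cases h5 : n ∈ A
        · exact Or.inl h5
        · have h6 : P (kP m) ((T pp)^[n] (Ψ s x c)) = P (kP m) ((T pp)^[n] (Ψ s x c')) := by
            by_contra h7; exact h5 h7
          exact Or.inr (Or.inr (Or.inl ⟨h2, hfar m _ h3 _ h4 h6⟩))
      have h2 := (Finset.card_le_card h1).trans ((Finset.card_union_le _ _).trans
        (Nat.add_le_add_left ((Finset.card_union_le _ _).trans
        (Nat.add_le_add_left ((Finset.card_union_le _ _).trans
        (Nat.add_le_add_left (Finset.card_union_le _ _) _)) _)) _))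
      rw [Finset.card_range, hcountvis, hcountvis] at h2
      have h3 : {n ∈ Finset.range (W i) | n ∈ A}.card = (A ∩ Iio (W i)).ncard := by
        have : A ∩ Iio (W i) = (({n ∈ Finset.range (W i) | n ∈ A} : Finset ℕ) : Set ℕ) := by
          ext n; simp [and_comm]
        rw [this, Set.ncard_coe_finset]
      rw [h3] at h2
      have h4 := hs.count_exc x.1 i
      have h4' := hs.far (x := x) hz (i := i) (m := m) (t₀ := t₀) (by simp [hi]) (by omega)
        (by omega) ht₀
      have h5 := hvis c hc m (kk s i)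
      have h6 := hvis c' hc' m (kk s i)
      have h7 := hWbig i hzi
      change {n ∈ Finset.range (W i) | Exc s x.1 i n}.card * 2 ^ (i + 1) ≤ 2 ^ kk s i at h4
      change {n ∈ Finset.range (W i) | ¬ Exc s x.1 i n ∧
            QX m ((T pp)^[n] (Ψ s x c)) = QX m ((T pp)^[n] (Ψ s x c'))}.card * 2 ^ 2 ^ m ≤
            2 ^ kk s i at h4'
      change 2 ^ m * visits pp (E m) (W i) (Ψ s x c) ≤ 2 ^ kk s i at h5
      change 2 ^ m * visits pp (E m) (W i) (Ψ s x c') ≤ 2 ^ kk s i at h6
      generalize {n ∈ Finset.range (W i) | Exc s x.1 i n}.card = e at *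
      generalize {n ∈ Finset.range (W i) | ¬ Exc s x.1 i n ∧
            QX m ((T pp)^[n] (Ψ s x c)) = QX m ((T pp)^[n] (Ψ s x c'))}.card = f at *
      generalize visits pp (E m) (W i) (Ψ s x c) = v at *
      generalize visits pp (E m) (W i) (Ψ s x c') = v' at *
      generalize (A ∩ Iio (W i)).ncard = b at *
      have h9 : e * 2 ^ m ≤ 2 ^ kk s i := by
        refine le_trans (Nat.mul_le_mul_left e ?_) h4
        exact Nat.pow_le_pow_right (by norm_num) (by omega)
      have h9' : f * 2 ^ m ≤ 2 ^ kk s i := by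
        refine le_trans (Nat.mul_le_mul_left f ?_) h4'
        exact Nat.pow_le_pow_right (by norm_num) Nat.lt_two_pow_self.le
      have h10 : 8 * q * (e + (f + (v + v'))) ≤ 8 * W i := by
        calc 8 * q * (e + (f + (v + v'))) ≤ 2 ^ m * (e + (f + (v + v'))) :=
              Nat.mul_le_mul_right _ hm
          _ = e * 2 ^ m + (f * 2 ^ m + (2 ^ m * v + 2 ^ m * v')) := by ring
          _ ≤ 8 * W i := by omega
      nlinarith
    have hud : a ≤ upperDensity A := density_of_frequently hq ha hdens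
    obtain ⟨n, hn, hr⟩ := exists_seq (infinite_of_upperDensity (A := A)
      (lt_of_lt_of_le ha0 hud).ne')
    refine ⟨n, hn, by rw [hr]; exact hud, fun i => ?_⟩
    have h1 : n i ∈ A := by rw [← hr]; exact ⟨i, rfl⟩
    exact h1
  -- the choice of the indices
  have hch : ∀ η : ℝ≥0∞, ∃ k, η < 1 → ∀ c ∈ D, ∀ c' ∈ D, c ≠ c' →
      Apart sysX P (Ψ s x c) (Ψ s x c') k η := by
    intro η
    by_cases h : η < 1
    · obtain ⟨q, hq, hq'⟩ := exists_q (max_lt h (ENNReal.one_half_lt_one))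
      refine ⟨kP (8 * q), fun _ c hc c' hc' hne => ?_⟩
      obtain ⟨n, hn, h1, h2⟩ := hap (8 * q) q Nat.lt_two_pow_self.le hq _ hq'
        (lt_max_of_lt_right (by simp)) c hc c' hc' hne
      exact ⟨n, hn, (le_max_left _ _).trans h1, h2⟩
    · exact ⟨0, fun h' => absurd h' h⟩
  choose κ hκ using hch
  refine ⟨(fun c => Ψ s x c) '' D, fun hcount => hx ?_, κ, ?_⟩
  · refine countable_of_injective_of_countable_image (f := fun c => Ψ s x c) ?_ hcount
    intro c hc c' hc' hcc
    by_contra hne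
    obtain ⟨n, -, -, h2⟩ := hκ 0 (by simp) c hc c' hc' hne
    refine h2 0 ?_
    simp only at hcc
    rw [hcc]
  · rintro _ ⟨c, hc, rfl⟩ _ ⟨c', hc', rfl⟩ hne
    have hcc : c ≠ c' := fun h => hne (by rw [h])
    exact ⟨htog c hc c' hc', fun η hη => hκ η hη c hc c' hc' hcc⟩

end Pool.Agent.H24.Chaos
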